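import Pool.Agent.N520.AN.Solv
import Pool.Agent.N72.AN2.PAR
import Pool.Agent.N494.AN2.GR
import Pool.Agent.N293.AN2.Sub
import Pool.Agent.N11.AN2.Two
import Pool.Agent.N661.AN2.Bel
import Pool.Agent.N2.AN2.FAM
import Pool.Agent.N507.AN2.IM
import Pool.Agent.N562.AN2.Cpt
import Pool.Agent.N749.AN2.Low
import Pool.Agent.N933.AN2.Three
import Pool.Agent.N764.AN2.NoFix

/-!
Project AN: the parts of the proof together.
-/

set_option autoImplicit false

open Set Filter Topology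
open Pool.Agent.W689.Mk Pool.Agent.N520.RO

namespace Pool.Agent.N520.AN

theorem p_par : S2_PAR := Pool.Agent.N72.AN2.t_par
theorem p_gr : S2_GR := Pool.Agent.N494.AN2.t_gr p_par
theorem p_sub : S2_SUB := Pool.Agent.N293.AN2.t_sub
theorem p_two : S2_TWO := Pool.Agent.N11.AN2.t_two p_gr p_sub
theorem p_bel : S2_BEL := Pool.Agent.N661.AN2.t_bel p_sub
theorem p_fam : S2_FAM := Pool.Agent.N2.AN2.t_fam
theorem p_im : S2_IM := Pool.Agent.N507.AN2.IM.t_im p_par
theorem p_cpt : S2_CPT := Pool.Agent.N562.AN2.t_cpt p_gr p_sub p_two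
theorem p_low : S2_LOW := Pool.Agent.N749.AN2.t_low p_sub p_two p_bel p_im p_par
theorem p_three : S2_THREE := Pool.Agent.N933.AN2.t_three p_sub p_two p_bel
theorem p_nofix : S3_NOFIX := Pool.Agent.N764.AN2.NoFix.t_nofix p_sub p_two

theorem anti_complete (X Γ E : Type) [NormedAddCommGroup E] [NormedSpace ℝ E]
    [FiniteDimensional ℝ E] [TopologicalSpace X] [T2Space X] [SecondCountableTopology X]
    [ConnectedSpace X] [Group Γ] [MulAction Γ X] (dev : X → E) (hol : Γ →* (E ≃ᵃ[ℝ] E))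
    (D : AffData X Γ E dev hol) (hinj : Function.Injective dev) (H : Subgroup Γ)
    (hH : H.FiniteIndex) (S : ℕ → Submodule ℝ E) (m : ℕ) (hO : OverFlag hol H S m) (q : ℕ)
    (hA : Anti q (LinOn hol H (S 0)))
    (hE : Elem hol H (S 0) q → ∃ H' : Subgroup Γ, H'.FiniteIndex ∧ H' ≤ H ∧
      Group.IsSolvable (LinOn hol H' (S 0))) (j : ℕ)
    (hj : ∀ γ ∈ derivedSeries H j, ∀ v : E, hol (γ : Γ) v - v ∈ S 0) : IsHomeomorph dev :=
  anti_full p_par p_cpt p_fam p_im p_low p_three X Γ E dev hol D hinj H hH S m hO q hA hE j hj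

theorem anti_solvable (X Γ E : Type) [NormedAddCommGroup E] [NormedSpace ℝ E]
    [FiniteDimensional ℝ E] [TopologicalSpace X] [T2Space X] [SecondCountableTopology X]
    [ConnectedSpace X] [Group Γ] [MulAction Γ X] (dev : X → E) (hol : Γ →* (E ≃ᵃ[ℝ] E))
    (D : AffData X Γ E dev hol) (hinj : Function.Injective dev)
    (hfree : ∀ (γ : Γ) (x : X), γ • x = x → γ = 1) (H : Subgroup Γ)
    (hH : H.FiniteIndex) (S : ℕ → Submodule ℝ E) (m : ℕ) (hO : OverFlag hol H S m) (q : ℕ)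
    (hA : Anti q (LinOn hol H (S 0))) (hdim : Module.finrank ℝ (S 0) = 2 * q)
    (hE : Elem hol H (S 0) q → ∃ H' : Subgroup Γ, H'.FiniteIndex ∧ H' ≤ H ∧
      Group.IsSolvable (LinOn hol H' (S 0))) (j : ℕ)
    (hj : ∀ γ ∈ derivedSeries H j, ∀ v : E, hol (γ : Γ) v - v ∈ S 0) :
    IsHomeomorph dev ∧ ∃ H' : Subgroup Γ, H'.FiniteIndex ∧ Group.IsSolvable (H'.map hol) :=
  anti_solv p_par p_cpt p_fam p_im p_low p_three p_nofix X Γ E dev hol D hinj hfree H hH S m hO q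
    hA hdim hE j hj

end Pool.Agent.N520.AN
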