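import Pool.Agent.N520.AN.Stm2

/-!
Project AN, fourth part: two planes. Exact statements of the parts.
-/

set_option autoImplicit false

open Set Filter Topology

namespace Pool.Agent.N520.AN

/-- groups of automorphisms of determinant `±1` of a plane are antipodal -/
def S4_PL : Prop := ∀ (V : Type) [NormedAddCommGroup V] [NormedSpace ℝ V] [FiniteDimensional ℝ V],
  Module.finrank ℝ V = 2 → ∀ Λ : Subgroup (V ≃ₗ[ℝ] V),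
  (∀ A ∈ Λ, |LinearMap.det (A : V →ₗ[ℝ] V)| = 1) → Anti 1 Λ

/-- an open connected set with local hyperplanes in the complement at all boundary points is
convex -/
def S4_STAR : Prop := ∀ (E : Type) [NormedAddCommGroup E] [NormedSpace ℝ E]
  [FiniteDimensional ℝ E] (Ω : Set E), IsOpen Ω → IsConnected Ω →
  (∀ p ∈ closure Ω, p ∉ Ω → ∃ N : Submodule ℝ E, Module.finrank ℝ N + 1 = Module.finrank ℝ E ∧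
    ∃ ε : ℝ, 0 < ε ∧ ∀ v ∈ N, ‖v‖ < ε → p + v ∉ Ω) → Convex ℝ Ω

/-- groups of automorphisms of a plane which preserve a line are solvable -/
def S4_TRI : Prop := ∀ (V : Type) [NormedAddCommGroup V] [NormedSpace ℝ V] [FiniteDimensional ℝ V],
  Module.finrank ℝ V = 2 → ∀ (Λ : Subgroup (V ≃ₗ[ℝ] V)) (l : Submodule ℝ V),
  Module.finrank ℝ l = 1 → (∀ A ∈ Λ, ∀ v ∈ l, A v ∈ l) → Group.IsSolvable Λ

/-- the boundary point `p` of the first type, with the lines `K₁`, `K₂` -/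
def TyI {E : Type} [NormedAddCommGroup E] [NormedSpace ℝ E] (Ω : Set E) (V₁ V₂ : Submodule ℝ E)
    (p : E) (K₁ K₂ : Submodule ℝ E) : Prop :=
  K₁ ≤ V₁ ∧ K₂ ≤ V₂ ∧ Module.finrank ℝ K₁ = 1 ∧ Module.finrank ℝ K₂ = 1 ∧
    (∀ v ∈ K₁ ⊔ K₂, p + v ∉ Ω) ∧
    ∀ M₁ ≤ V₁, ∀ M₂ ≤ V₂, Module.finrank ℝ M₁ = 1 → Module.finrank ℝ M₂ = 1 → M₁ ≠ K₁ → M₂ ≠ K₂ →
      ∀ v ∈ K₁ ⊔ K₂, ∃ m ∈ M₁ ⊔ M₂, p + v + m ∈ Ω

/-- the types of the boundary points -/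
def S4_TYP : Prop := ∀ (E : Type) [NormedAddCommGroup E] [NormedSpace ℝ E]
  [FiniteDimensional ℝ E] (V₁ V₂ : Submodule ℝ E), IsCompl V₁ V₂ → Module.finrank ℝ V₁ = 2 →
  Module.finrank ℝ V₂ = 2 → ∀ (Λ₁ : Subgroup (V₁ ≃ₗ[ℝ] V₁)) (Λ₂ : Subgroup (V₂ ≃ₗ[ℝ] V₂)),
  (∀ A ∈ Λ₁, |LinearMap.det (A : V₁ →ₗ[ℝ] V₁)| = 1) →
  (∀ A ∈ Λ₂, |LinearMap.det (A : V₂ →ₗ[ℝ] V₂)| = 1) →
  ∀ (Ω : Set E) (p : E) (x : ℕ → E) (g : ℕ → E ≃ₗ[ℝ] E) (r : ℝ), 0 < r →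
  Tendsto x atTop (𝓝 p) →
  (∀ j, ∃ A ∈ Λ₁, ∀ v : V₁, g j (v : E) = (A v : E)) →
  (∀ j, ∃ A ∈ Λ₂, ∀ v : V₂, g j (v : E) = (A v : E)) →
  (∀ j w, ‖w‖ ≤ r → x j + g j w ∈ Ω) →
  (∀ (φ : ℕ → ℕ) (w : ℕ → E) (v : E), StrictMono φ → (∀ j, ‖w j‖ ≤ r) →
    Tendsto (fun j => g (φ j) (w j)) atTop (𝓝 v) → p + v ∉ Ω) →
  (∃ N : Submodule ℝ E, Module.finrank ℝ N + 1 = Module.finrank ℝ E ∧
    ∃ ε : ℝ, 0 < ε ∧ ∀ v ∈ N, ‖v‖ < ε → p + v ∉ Ω) ∨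
  ∃ K₁ K₂ : Submodule ℝ E, TyI Ω V₁ V₂ p K₁ K₂

end Pool.Agent.N520.AN
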