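import Pool.Agent.N520.AN.TwoQ
import Pool.Agent.N645.SP.Pl
import Pool.Agent.N540.SP.Star
import Pool.Agent.N638.SP.Tri
import Pool.Agent.N91.SP.Typ

/-!
Project AN, fourth part: the parts of the proof together.
-/

set_option autoImplicit false

open Set Filter Topology
open Pool.Agent.W689.Mk

namespace Pool.Agent.N520.AN

theorem p_pl : S4_PL := Pool.Agent.N645.SP.t_pl p_gr
theorem p_typ : S4_TYP := Pool.Agent.N91.SP.t_typ p_pl p_sub p_two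

theorem two_planes_all (X Γ E : Type) [NormedAddCommGroup E] [NormedSpace ℝ E]
    [FiniteDimensional ℝ E] [TopologicalSpace X] [T2Space X] [SecondCountableTopology X]
    [ConnectedSpace X] [Group Γ] [MulAction Γ X] (dev : X → E) (hol : Γ →* (E ≃ᵃ[ℝ] E))
    (D : AffData X Γ E dev hol) (hinj : Function.Injective dev) (H : Subgroup Γ)
    (hH : H.FiniteIndex) (V₁ V₂ : Submodule ℝ E) (hc : IsCompl V₁ V₂)
    (h1 : Module.finrank ℝ V₁ = 2) (h2 : Module.finrank ℝ V₂ = 2)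
    (i1 : ∀ γ ∈ H, ∀ v ∈ V₁, (hol γ).linear v ∈ V₁) (i2 : ∀ γ ∈ H, ∀ v ∈ V₂, (hol γ).linear v ∈ V₂)
    (d1 : ∀ A ∈ LinOn hol H V₁, |LinearMap.det (A : V₁ →ₗ[ℝ] V₁)| = 1)
    (d2 : ∀ A ∈ LinOn hol H V₂, |LinearMap.det (A : V₂ →ₗ[ℝ] V₂)| = 1) : IsHomeomorph dev :=
  two_planes p_pl Pool.Agent.N540.SP.t_star Pool.Agent.N638.SP.t_tri p_typ X Γ E dev hol D hinj H hH
    V₁ V₂ hc h1 h2 i1 i2 d1 d2

end Pool.Agent.N520.AN
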