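import Pool.Agent.N520.AN.Stm
import Pool.Agent.N520.RO.Asm
import Pool.Agent.R522.Mk.Rk1

/-!
Project AN (Markus conjecture): divergent antipodal linear holonomy. The assembly.
-/

set_option autoImplicit false

open Set Filter Topology
open Pool.Agent.W689.Mk Pool.Agent.R522.Mk.Rk Pool.Agent.N520.RO

namespace Pool.Agent.N520.AN

/-- the group of the linear parts of the elements of `H` -/
def LinHol {Γ E : Type} [Group Γ] [NormedAddCommGroup E] [NormedSpace ℝ E]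
    (hol : Γ →* (E ≃ᵃ[ℝ] E)) (H : Subgroup Γ) : Subgroup (E ≃ₗ[ℝ] E) :=
  H.map (AffineEquiv.linearHom.comp hol)

theorem mem_LinHol {Γ E : Type} [Group Γ] [NormedAddCommGroup E] [NormedSpace ℝ E]
    (hol : Γ →* (E ≃ᵃ[ℝ] E)) (H : Subgroup Γ) (g : E ≃ₗ[ℝ] E) :
    g ∈ LinHol hol H ↔ ∃ γ ∈ H, (hol γ).linear = g := Iff.rfl

/-- the space orthogonal to the orthogonal space -/
theorem perp_perp {E : Type} [NormedAddCommGroup E] [NormedSpace ℝ E] [FiniteDimensional ℝ E]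
    (B : E →ₗ[ℝ] E →ₗ[ℝ] ℝ) (hB : ∀ v, (∀ w, B v w = 0) → v = 0) (L : Submodule ℝ E) {x : E}
    (hx : x ∉ L) : ∃ w, (∀ v ∈ L, B w v = 0) ∧ B w x ≠ 0 := by
  obtain ⟨φ, hφ, hL⟩ := Submodule.exists_le_ker_of_notMem hx
  have hinj : Function.Injective (B : E →ₗ[ℝ] Module.Dual ℝ E) := by
    rw [← LinearMap.ker_eq_bot, LinearMap.ker_eq_bot']
    intro v hv
    exact hB v fun w => by
      have : (B v) w = (0 : Module.Dual ℝ E) w := by rw [hv]
      exact this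
  have hsur : Function.Surjective (B : E →ₗ[ℝ] Module.Dual ℝ E) :=
    (LinearMap.injective_iff_surjective_of_finrank_eq_finrank
      (Subspace.dual_finrank_eq (K := ℝ) (V := E)).symm).1 hinj
  obtain ⟨w, hw⟩ := hsur φ
  refine ⟨w, fun v hv => ?_, ?_⟩
  · have : (B w) v = φ v := by rw [hw]
    rw [this]
    exact hL hv
  · have : (B w) x = φ x := by rw [hw]
    rw [this]
    exact hφ

/-- a group without divergent sequences is bounded -/
theorem bdd_of_not_div {E : Type} [NormedAddCommGroup E] [NormedSpace ℝ E]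
    (Λ : Subgroup (E ≃ₗ[ℝ] E)) (h : ∀ g : ℕ → E ≃ₗ[ℝ] E, (∀ j, g j ∈ Λ) → ¬ Div g) :
    ∃ C : ℝ, ∀ g ∈ Λ, ∀ v, ‖g v‖ ≤ C * ‖v‖ := by
  by_contra hc
  push Not at hc
  choose g hg v hv using fun n : ℕ => hc n
  have hv0 : ∀ n, 0 < ‖v n‖ := by
    intro n
    rcases (norm_nonneg (v n)).eq_or_lt with h0 | h0
    · exfalso
      have h1 : v n = 0 := norm_eq_zero.1 h0.symm
      have h2 := hv n
      rw [h1, map_zero, norm_zero, mul_zero] at h2
      exact lt_irrefl _ h2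
    · exact h0
  refine h g hg ⟨fun n => (‖v n‖)⁻¹ • v n, fun n => ?_, ?_⟩
  · rw [norm_smul, norm_inv, norm_norm, inv_mul_cancel₀ (hv0 n).ne']
  · refine tendsto_atTop_mono (fun n => ?_) tendsto_natCast_atTop_atTop
    rw [map_smul, norm_smul, norm_inv, norm_norm]
    have h1 := (hv n).le
    rw [inv_mul_eq_div, le_div_iff₀ (hv0 n)]
    exact h1

theorem bounded_case (X Γ E : Type) [NormedAddCommGroup E] [NormedSpace ℝ E]
    [FiniteDimensional ℝ E] [TopologicalSpace X] [T2Space X] [SecondCountableTopology X]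
    [Nonempty X] [Group Γ] [MulAction Γ X] (dev : X → E) (hol : Γ →* (E ≃ᵃ[ℝ] E))
    (D : AffData X Γ E dev hol) (hinj : Function.Injective dev) (H : Subgroup Γ)
    (hH : H.FiniteIndex) (C : ℝ) (hC : ∀ γ ∈ H, ∀ v : E, ‖(hol γ).linear v‖ ≤ C * ‖v‖) :
    IsHomeomorph dev := by
  refine (quasi X Γ E dev hol D hinj H hH (fun i => if i = 0 then ⊥ else ⊤) 1
    ⟨by simp, by simp, ?_, ?_, C, ?_⟩).1
  · intro i hi
    obtain rfl : i = 0 := by omega
    simp
  · intro i hi γ hγ v hv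
    rcases Nat.eq_zero_or_pos i with rfl | h0
    · simp only [if_true] at hv ⊢
      rw [(Submodule.mem_bot ℝ).1 hv, map_zero]
      exact Submodule.zero_mem _
    · show (hol γ).linear v ∈ (if i = 0 then (⊥ : Submodule ℝ E) else ⊤)
      rw [if_neg (by omega)]
      trivial
  · intro i hi γ hγ
    refine ⟨1, one_pos, fun v _ => ⟨⟨0, Submodule.zero_mem _, ?_⟩, 0, Submodule.zero_mem _, ?_⟩⟩
    · rw [sub_zero, mul_one]
      exact hC γ hγ v
    · rw [sub_zero, inv_one, mul_one]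
      exact hC γ⁻¹ (H.inv_mem hγ) v

theorem main (hEX : S_EX) (hCPT : S_CPT) (hFAM : S_FAM) (hIM : S_IM) (hLOW : S_LOW)
    (X Γ E : Type) [NormedAddCommGroup E] [NormedSpace ℝ E]
    [FiniteDimensional ℝ E] [TopologicalSpace X] [T2Space X] [SecondCountableTopology X]
    [ConnectedSpace X] [Group Γ] [MulAction Γ X] (dev : X → E) (hol : Γ →* (E ≃ᵃ[ℝ] E))
    (D : AffData X Γ E dev hol) (hinj : Function.Injective dev) (H : Subgroup Γ)
    (hH : H.FiniteIndex) (B : E →ₗ[ℝ] E →ₗ[ℝ] ℝ) (q : ℕ) (hA : Antip B q (LinHol hol H))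
    (hN : ∀ g : ℕ → E ≃ₗ[ℝ] E, (∀ j, g j ∈ LinHol hol H) → Module.finrank ℝ (att g) = q →
      ∃ γ ∈ H, ∃ v ∈ att g, (hol γ).linear v ∉ att g) : IsHomeomorph dev := by
  rcases (Pl B q (LinHol hol H)).eq_empty_or_nonempty with hemp | hne
  · obtain ⟨C, hC⟩ := bdd_of_not_div (LinHol hol H) fun g hg hdiv => by
      obtain ⟨φ, -, hφ⟩ := hA.div g hg hdiv
      obtain ⟨k, hk, -⟩ := hEX E B q (LinHol hol H) hA (g ∘ φ) (fun j => hg _) hφ
      rw [hemp] at hk
      exact hk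
    exact bounded_case X Γ E dev hol D hinj H hH C fun γ hγ => hC _ ⟨γ, hγ, rfl⟩
  · obtain ⟨δ, hδ, hδ'⟩ := hLOW E B q (LinHol hol H) hA (fun g hg hgq => by
      obtain ⟨γ, hγ, v, hv, h⟩ := hN g hg hgq
      exact ⟨_, ⟨γ, hγ, rfl⟩, v, hv, h⟩) hne
    rcases fixed_plate (Pool.Agent.Y449.MK.restrict D H hH) hinj
        (hCPT E B q (LinHol hol H) hA) (hFAM E B q (LinHol hol H) hA) hδ
        (fun γ => hδ' _ ⟨γ, γ.2, rfl⟩)
        (fun γ k hk => hIM E B q (LinHol hol H) hA _ ⟨γ, γ.2, rfl⟩ k hk) with h | ⟨k, hk, -, hinv⟩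
    · exact h
    · exfalso
      obtain ⟨-, g, hg, hgq, hr⟩ := hk
      obtain ⟨γ, hγ, v, hv, hn⟩ := hN g hg hgq
      obtain ⟨w, hw, hw'⟩ := perp_perp B hA.nondeg (att g) hn
      have h1 : w ∈ range k := (hr w).2 hw
      have h2 : (hol γ).linear.symm w ∈ range k := (hinv ⟨γ, hγ⟩ w).1 h1
      have h3 := (hr _).1 h2 v hv
      apply hw'
      have h4 := hA.pres (hol γ).linear ⟨γ, hγ, rfl⟩ ((hol γ).linear.symm w) v
      rw [LinearEquiv.apply_symm_apply] at h4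
      rw [h4, h3]

end Pool.Agent.N520.AN
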