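import Pool.Agent.N520.RO.Asm2

/-!
Project AN, second part: invariant families of plates in an invariant subspace.
-/

set_option autoImplicit false

open Set Filter Topology Metric
open Pool.Agent.W689.Mk Pool.Agent.TH94.MK Pool.Agent.R522.Mk.Rk Pool.Agent.TH569.MK
open Pool.Agent.N520.RO

namespace Pool.Agent.N520.AN

section
variable {V F : Type} [NormedAddCommGroup V] [NormedSpace ℝ V]
  [NormedAddCommGroup F] [NormedSpace ℝ F]

/-- the map preserves the plate -/
def Pres (A : V ≃ₗ[ℝ] V) (k : F →L[ℝ] V) : Prop := ∀ u, u ∈ range k ↔ A.symm u ∈ range k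

theorem pres_iff (A : V ≃ₗ[ℝ] V) (k : F →L[ℝ] V) : Pres A k ↔ (A : V → V) '' range k = range k := by
  have hmem : ∀ u, u ∈ (A : V → V) '' range k ↔ A.symm u ∈ range k := by
    intro u
    constructor
    · rintro ⟨v, hv, rfl⟩
      rw [LinearEquiv.symm_apply_apply]
      exact hv
    · intro h
      exact ⟨_, h, A.apply_symm_apply u⟩
  constructor
  · intro h
    ext u
    rw [hmem, ← h u]
  · intro h u
    rw [← hmem, h]

/-- a system of plates for the group of the maps `B γ` -/
structure PSys {Γ : Type} [Group Γ] (B : Γ →* (V ≃ₗ[ℝ] V)) (P : Set (F →L[ℝ] V)) : Prop where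
  cpt : IsCompact P
  fam : Fam P
  low : ∃ δ : ℝ, 0 < δ ∧ ∀ γ, ∃ k ∈ P, ∀ f, δ * ‖(B γ).symm (k f)‖ ≤ ‖k f‖
  im : ∀ γ, ∀ k ∈ P, ∃ l ∈ P, ∀ u, u ∈ range l ↔ (B γ).symm u ∈ range k
  three : ∀ k1 ∈ P, ∀ k2 ∈ P, ∀ k3 ∈ P, range k1 ≠ range k2 → range k2 ≠ range k3 →
    range k1 ≠ range k3 → ∃ C : ℝ, ∀ γ, Pres (B γ) k1 → Pres (B γ) k2 → Pres (B γ) k3 →
    ∀ v, ‖B γ v‖ ≤ C * ‖v‖
  elem : ∀ k ∈ P, ∀ H : Subgroup Γ, H.FiniteIndex → ∃ γ ∈ H, ¬ Pres (B γ) k

/-- a normal subgroup which fixes a plate: a subgroup of finite index fixes the plate, or the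
normal subgroup fixes three plates -/
theorem elem_cases' {Γ : Type} [Group Γ] {B : Γ →* (V ≃ₗ[ℝ] V)} {P : Set (F →L[ℝ] V)}
    (him : ∀ γ, ∀ k ∈ P, ∃ l ∈ P, ∀ u, u ∈ range l ↔ (B γ).symm u ∈ range k)
    (M : Subgroup Γ) [hM : M.Normal] {k0 : F →L[ℝ] V} (hk0 : k0 ∈ P)
    (h0 : ∀ n ∈ M, Pres (B n) k0) :
    (∃ (H : Subgroup Γ), H.FiniteIndex ∧ ∀ γ ∈ H, Pres (B γ) k0) ∨
    ∃ k1 ∈ P, ∃ k2 ∈ P, range k0 ≠ range k1 ∧ range k1 ≠ range k2 ∧ range k0 ≠ range k2 ∧
      (∀ n ∈ M, Pres (B n) k1) ∧ ∀ n ∈ M, Pres (B n) k2 := by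
  let _ : MulAction Γ (Set V) :=
    { smul := fun γ A => (B γ : V → V) '' A
      one_smul := by
        intro A
        show (B 1 : V → V) '' A = A
        rw [map_one]
        exact image_id A
      mul_smul := by
        intro γ δ A
        show (B (γ * δ) : V → V) '' A = (B γ : V → V) '' ((B δ : V → V) '' A)
        rw [map_mul, image_image]
        rfl }
  have hfixiff : ∀ (γ : Γ) (k : F →L[ℝ] V), Pres (B γ) k ↔ γ • range k = range k :=
    fun γ k => pres_iff (B γ) k
  -- the image of a plate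
  have himg : ∀ (γ : Γ), ∀ k ∈ P, ∃ l ∈ P, range l = γ • range k := by
    intro γ k hk
    obtain ⟨l, hl, h⟩ := him γ k hk
    refine ⟨l, hl, ?_⟩
    ext u
    rw [h]
    constructor
    · intro h
      exact ⟨_, h, (B γ).apply_symm_apply u⟩
    · rintro ⟨v, hv, rfl⟩
      rw [LinearEquiv.symm_apply_apply]
      exact hv
  -- the fixed plates are permuted
  have hperm : ∀ (γ : Γ) (k l : F →L[ℝ] V), range l = γ • range k → (∀ n ∈ M, Pres (B n) k) →
      ∀ n ∈ M, Pres (B n) l := by
    intro γ k l hkl hk n hn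
    rw [hfixiff, hkl, ← mul_smul]
    have hn' : γ⁻¹ * n * γ ∈ M := by
      have := hM.conj_mem n hn γ⁻¹
      rwa [inv_inv] at this
    have e1 : n * γ = γ * (γ⁻¹ * n * γ) := by group
    rw [e1, mul_smul, (hfixiff _ _).mp (hk _ hn')]
  by_cases hex : ∃ k1 ∈ P, ∃ k2 ∈ P, range k0 ≠ range k1 ∧ range k1 ≠ range k2 ∧
      range k0 ≠ range k2 ∧ (∀ n ∈ M, Pres (B n) k1) ∧ ∀ n ∈ M, Pres (B n) k2
  · exact Or.inr hex
  left
  refine ⟨MulAction.stabilizer Γ (range k0), ?_, ?_⟩
  · -- the orbit has at most two elements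
    have hfin : (MulAction.orbit Γ (range k0)).Finite := by
      by_cases h1 : ∃ k1 ∈ P, range k0 ≠ range k1 ∧ ∀ n ∈ M, Pres (B n) k1
      · obtain ⟨k1, hk1, h1, h1'⟩ := h1
        refine ((Set.finite_singleton (range k1)).insert (range k0)).subset ?_
        rintro _ ⟨γ, rfl⟩
        obtain ⟨l, hl, hlk⟩ := himg γ k0 hk0
        have h2 := hperm γ k0 l hlk h0
        show γ • range k0 ∈ _
        rw [← hlk]
        by_contra hc
        rw [mem_insert_iff, mem_singleton_iff, not_or] at hc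
        apply hex
        exact ⟨k1, hk1, l, hl, h1, fun h3 => hc.2 h3.symm, fun h3 => hc.1 h3.symm, h1', h2⟩
      · refine (Set.finite_singleton (range k0)).subset ?_
        rintro _ ⟨γ, rfl⟩
        obtain ⟨l, hl, hlk⟩ := himg γ k0 hk0
        have h2 := hperm γ k0 l hlk h0
        show γ • range k0 ∈ _
        rw [← hlk, mem_singleton_iff]
        by_contra hc
        apply h1
        exact ⟨l, hl, fun h3 => hc h3.symm, h2⟩
    have hfin' : Finite (Γ ⧸ MulAction.stabilizer Γ (range k0)) := by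
      have : Finite (MulAction.orbit Γ (range k0)) := hfin
      exact Finite.of_equiv _ (MulAction.orbitEquivQuotientStabilizer Γ (range k0))
    exact Subgroup.finiteIndex_of_finite_quotient
  · intro γ hγ
    rw [hfixiff]
    exact hγ

end

/-- the linear holonomy of `H` on an invariant subspace -/
noncomputable def restr {Γ E : Type} [Group Γ] [NormedAddCommGroup E] [NormedSpace ℝ E]
    (hol : Γ →* (E ≃ᵃ[ℝ] E)) (W : Submodule ℝ E) (hW : ∀ γ, ∀ v ∈ W, (hol γ).linear v ∈ W) :
    Γ →* (W ≃ₗ[ℝ] W) where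
  toFun γ :=
    { toFun := fun v => ⟨(hol γ).linear v, hW γ v v.2⟩
      map_add' := fun v w => Subtype.ext (map_add _ _ _)
      map_smul' := fun c v => Subtype.ext (map_smul _ _ _)
      invFun := fun v => ⟨(hol γ⁻¹).linear v, hW γ⁻¹ v v.2⟩
      left_inv := by
        intro v
        refine Subtype.ext ?_
        show (hol γ⁻¹).linear ((hol γ).linear (v : E)) = v
        have : AffineEquiv.linearHom (hol γ⁻¹) * AffineEquiv.linearHom (hol γ) = 1 := by
          rw [← map_mul, ← map_mul, inv_mul_cancel, map_one, map_one]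
        exact LinearEquiv.congr_fun this (v : E)
      right_inv := by
        intro v
        refine Subtype.ext ?_
        show (hol γ).linear ((hol γ⁻¹).linear (v : E)) = v
        have : AffineEquiv.linearHom (hol γ) * AffineEquiv.linearHom (hol γ⁻¹) = 1 := by
          rw [← map_mul, ← map_mul, mul_inv_cancel, map_one, map_one]
        exact LinearEquiv.congr_fun this (v : E) }
  map_one' := by
    refine LinearEquiv.ext fun v => Subtype.ext ?_
    show (hol 1).linear (v : E) = v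
    rw [map_one]
    rfl
  map_mul' γ δ := by
    refine LinearEquiv.ext fun v => Subtype.ext ?_
    show (hol (γ * δ)).linear (v : E) = (hol γ).linear ((hol δ).linear (v : E))
    rw [map_mul]
    rfl

theorem restr_apply {Γ E : Type} [Group Γ] [NormedAddCommGroup E] [NormedSpace ℝ E]
    (hol : Γ →* (E ≃ᵃ[ℝ] E)) (W : Submodule ℝ E) (hW : ∀ γ, ∀ v ∈ W, (hol γ).linear v ∈ W) (γ : Γ)
    (v : W) : (restr hol W hW γ v : E) = (hol γ).linear (v : E) := rfl

/-- main theorem, for the whole group -/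
theorem gen0 {F : Type} [NormedAddCommGroup F] [NormedSpace ℝ F] [FiniteDimensional ℝ F]
    (X Γ E : Type) [NormedAddCommGroup E] [NormedSpace ℝ E]
    [FiniteDimensional ℝ E] [TopologicalSpace X] [T2Space X] [SecondCountableTopology X]
    [ConnectedSpace X] [Group Γ] [MulAction Γ X] (dev : X → E) (hol : Γ →* (E ≃ᵃ[ℝ] E))
    (D : AffData X Γ E dev hol) (hinj : Function.Injective dev) (S : ℕ → Submodule ℝ E) (m : ℕ)
    (hO : OverFlag hol ⊤ S m) (hWinv : ∀ γ, ∀ v ∈ S 0, (hol γ).linear v ∈ S 0)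
    (P : Set (F →L[ℝ] S 0)) (hP : PSys (restr hol (S 0) hWinv) P) (j : ℕ)
    (hj : ∀ γ ∈ derivedSeries Γ j, ∀ v : E, hol γ v - v ∈ S 0) : IsHomeomorph dev := by
  set B := restr hol (S 0) hWinv with hBdef
  have hB : ∀ γ (v : S 0), (hol γ).linear (v : E) = (B γ v : E) := fun γ v => rfl
  obtain ⟨δ, hδ, hlow⟩ := hP.low
  obtain ⟨C0, hC0, hC0r, hcc⟩ := range_cc D
  obtain ⟨r, hr0, hgood⟩ := Pool.Agent.N441.RO.t_slice E F Γ hol (S 0) (fun γ => B γ) hB
    P hP.cpt (range dev) D.loc.isOpenMap.isOpen_range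
    (range_inv D) (range_pd D hinj) C0 hC0 hC0r hcc δ hδ hlow
  -- dichotomy for the slices
  have hdich : ∀ x ∈ range dev, {v : S 0 | x + v ∈ range dev} = univ ∨
      ∃ k ∈ P, ∀ y ∈ {v : S 0 | x + v ∈ range dev}, ∀ f,
        y + k f ∈ {v : S 0 | x + v ∈ range dev} := by
    intro x hx
    have hopen : IsOpen {v : S 0 | x + v ∈ range dev} :=
      D.loc.isOpenMap.isOpen_range.preimage (continuous_const.add continuous_subtype_val)
    exact Pool.Agent.N712.RO.t_dich (S 0) F P hP.fam {v : S 0 | x + v ∈ range dev} r hopen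
      ⟨0, by show x + ((0 : S 0) : E) ∈ range dev; rwa [Submodule.coe_zero, add_zero]⟩ hr0
      (fun p hp hp' => hgood x p hp hp')
  by_cases hall : ∀ x ∈ range dev, {v : S 0 | x + v ∈ range dev} = univ
  · refine over_complete X Γ E dev hol D S m hO fun x v hv => ?_
    refine geod_of_range D.loc hinj x v fun t => ?_
    have h1 : (t • (⟨v, hv⟩ : S 0)) ∈ {v : S 0 | dev x + v ∈ range dev} := by
      rw [hall _ (mem_range_self x)]
      trivial
    exact h1
  push Not at hall
  obtain ⟨x, hx, hbad⟩ := hall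
  obtain ⟨k0, hk0, hinv0⟩ := (hdich x hx).resolve_left hbad
  set Ω : Set (S 0) := {v : S 0 | x + v ∈ range dev} with hΩ
  have h0mem : (0 : S 0) ∈ Ω := by
    show x + ((0 : S 0) : E) ∈ range dev
    rwa [Submodule.coe_zero, add_zero]
  -- two transversal directions are impossible
  have hno : ∀ k : F →L[ℝ] S 0, (∀ y ∈ Ω, ∀ f, y + k f ∈ Ω) → ¬ Trans k0 k := by
    intro k hk ht
    apply hbad
    refine eq_univ_iff_forall.mpr fun v => ?_
    obtain ⟨f, f', hf⟩ := ht v
    have h1 := hk _ (hinv0 0 h0mem f) (-f')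
    rw [map_neg, zero_add, ← sub_eq_add_neg, hf] at h1
    exact h1
  -- the derived subgroup fixes the plate
  have hlinW : ∀ n ∈ derivedSeries Γ j, ∀ v : E, (hol n).linear v - v ∈ S 0 := by
    intro n hn v
    have h1 := hj n hn v
    have h2 := hj n hn 0
    have h3 := lin_zero (hol n) v
    have h4 : (hol n).linear v - v = (hol n v - v) - (hol n 0 - 0) := by
      rw [h3]
      abel
    rw [h4]
    exact Submodule.sub_mem _ h1 h2
  have hfix0 : ∀ n ∈ derivedSeries Γ j, Pres (B n) k0 := by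
    intro n hn
    obtain ⟨l, hl, hlk⟩ := hP.im n k0 hk0
    have hle : range k0 = range l := by
      rcases hP.fam k0 hk0 l hl with h | h
      · exact h
      exfalso
      refine hno l ?_ h
      -- the slice is invariant under `n`
      have hstep : ∀ n ∈ derivedSeries Γ j, ∀ y : S 0, y ∈ Ω → ∃ z : S 0, z ∈ Ω ∧
          x + (z : E) = hol n (x + y) := by
        intro n hn y hy
        have h1 : hol n (x + y) - (x + y) ∈ S 0 := hj n hn _
        have h2 : hol n (x + y) - x ∈ S 0 := by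
          have : hol n (x + y) - x = (hol n (x + y) - (x + y)) + y := by abel
          rw [this]
          exact Submodule.add_mem _ h1 y.2
        refine ⟨⟨_, h2⟩, ?_, ?_⟩
        · show x + (hol n (x + y) - x) ∈ range dev
          rw [add_sub_cancel]
          exact range_inv D n _ hy
        · show x + (hol n (x + y) - x) = _
          rw [add_sub_cancel]
      intro y hy f
      obtain ⟨f0, hf0⟩ := (hlk (l f)).mp (mem_range_self f)
      have hf0' : B n (k0 f0) = l f := by rw [hf0, LinearEquiv.apply_symm_apply]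
      obtain ⟨z, hz, hz'⟩ := hstep n⁻¹ (inv_mem hn) y hy
      have h1 := hinv0 z hz f0
      obtain ⟨u, hu, hu'⟩ := hstep n hn _ h1
      have h2 : u = y + l f := by
        apply Subtype.ext
        have e1 : x + (u : E) = x + ((y + l f : S 0) : E) := by
          rw [hu', Submodule.coe_add, ← add_assoc, hz', hol_add]
          have e2 : hol n (hol n⁻¹ (x + y)) = x + y := hol_apply_inv n _
          rw [e2, Submodule.coe_add, add_assoc, ← hf0']
          rfl
        exact add_left_cancel e1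
      rw [← h2]
      exact hu
    intro u
    rw [← hlk u, ← hle]
  have hnorm : (derivedSeries Γ j).Normal := inferInstance
  rcases elem_cases' hP.im (derivedSeries Γ j) hk0 hfix0 with
    ⟨H, hH, hk⟩ | ⟨k1, hk1, k2, hk2, a1, a2, a3, b1, b2⟩
  · obtain ⟨γ, hγ, hn⟩ := hP.elem k0 hk0 H hH
    exact absurd (hk γ hγ) hn
  · obtain ⟨C, hC⟩ := hP.three k0 hk0 k1 hk1 k2 hk2 a1 a2 a3
    refine complete_of_derived vs2 X Γ E dev hol D hinj (S 0) hWinv j C hlinW ?_
    intro n hn v hv
    exact hC n (hfix0 n hn) (b1 n hn) (b2 n hn) ⟨v, hv⟩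

end Pool.Agent.N520.AN
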