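import Pool.Agent.N520.AN.Stm

/-!
Project AN, second part: antipodal groups of linear maps, without an invariant form.
Definitions and exact statements of the parts.
-/

set_option autoImplicit false

open Set Filter Topology

namespace Pool.Agent.N520.AN

section
variable {E : Type} [NormedAddCommGroup E] [NormedSpace ℝ E]

/-- the limits of the sequences `g j (x j)` with bounded `x` -/
def big (g : ℕ → E ≃ₗ[ℝ] E) : Submodule ℝ E where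
  carrier := {v | ∃ (x : ℕ → E) (C : ℝ), (∀ j, ‖x j‖ ≤ C) ∧
    Tendsto (fun j => g j (x j)) atTop (𝓝 v)}
  add_mem' := by
    rintro v w ⟨x, C, hx, hv⟩ ⟨y, D, hy, hw⟩
    refine ⟨fun j => x j + y j, C + D, fun j => (norm_add_le _ _).trans (add_le_add (hx j) (hy j)),
      ?_⟩
    simpa using hv.add hw
  zero_mem' := ⟨fun _ => 0, 0, fun _ => by simp, by simp⟩
  smul_mem' := by
    rintro a v ⟨x, C, hx, hv⟩
    refine ⟨fun j => a • x j, |a| * C, fun j => ?_, ?_⟩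
    · rw [norm_smul, Real.norm_eq_abs]
      exact mul_le_mul_of_nonneg_left (hx j) (abs_nonneg a)
    · simpa using hv.const_smul a

/-- the sequence has a limit flag `att g ⊆ big g` of dimensions `q` and `n - q` -/
def Fl (q : ℕ) (g : ℕ → E ≃ₗ[ℝ] E) : Prop :=
  Module.finrank ℝ (att g) = q ∧ Module.finrank ℝ (big g) + q = Module.finrank ℝ E

/-- an antipodal group: every unbounded sequence has a subsequence with a limit flag, and two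
limit flags are equal or transversal -/
structure Anti (q : ℕ) (Λ : Subgroup (E ≃ₗ[ℝ] E)) : Prop where
  pos : 0 < q
  div : ∀ g : ℕ → E ≃ₗ[ℝ] E, (∀ j, g j ∈ Λ) → Div g → ∃ φ : ℕ → ℕ, StrictMono φ ∧ Fl q (g ∘ φ)
  anti : ∀ g h : ℕ → E ≃ₗ[ℝ] E, (∀ j, g j ∈ Λ) → (∀ j, h j ∈ Λ) → Fl q g → Fl q h →
    big g = big h ∨ att g ⊓ big h = ⊥

/-- the sequence of the inverses -/
def inv (g : ℕ → E ≃ₗ[ℝ] E) (j : ℕ) : E ≃ₗ[ℝ] E := (g j).symm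

theorem att_le_big (g : ℕ → E ≃ₗ[ℝ] E) : att g ≤ big g := by
  rintro v ⟨b, hb, hv⟩
  obtain ⟨C, hC⟩ := (Metric.isBounded_range_of_tendsto b hb).exists_norm_le
  exact ⟨b, C, fun j => hC _ ⟨j, rfl⟩, hv⟩

theorem att_sub (g : ℕ → E ≃ₗ[ℝ] E) {φ : ℕ → ℕ} (hφ : StrictMono φ) : att g ≤ att (g ∘ φ) := by
  rintro v ⟨b, hb, hv⟩
  exact ⟨b ∘ φ, hb.comp hφ.tendsto_atTop, hv.comp hφ.tendsto_atTop⟩

theorem big_sub (g : ℕ → E ≃ₗ[ℝ] E) {φ : ℕ → ℕ} (hφ : StrictMono φ) : big g ≤ big (g ∘ φ) := by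
  rintro v ⟨x, C, hx, hv⟩
  exact ⟨x ∘ φ, C, fun j => hx _, hv.comp hφ.tendsto_atTop⟩

theorem inv_comp (g : ℕ → E ≃ₗ[ℝ] E) (φ : ℕ → ℕ) : inv (g ∘ φ) = inv g ∘ φ := rfl

theorem inv_inv' (g : ℕ → E ≃ₗ[ℝ] E) : inv (inv g) = g := rfl

theorem inv_mem' {Λ : Subgroup (E ≃ₗ[ℝ] E)} {g : ℕ → E ≃ₗ[ℝ] E} (hg : ∀ j, g j ∈ Λ) (j : ℕ) :
    inv g j ∈ Λ := Λ.inv_mem (hg j)

/-- a sequence with a limit vector is unbounded -/
theorem div_of_att {g : ℕ → E ≃ₗ[ℝ] E} {v : E} (hv : v ∈ att g) (hv0 : v ≠ 0) : Div g := by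
  obtain ⟨b, hb, hv⟩ := hv
  refine ⟨fun j => ‖b j‖⁻¹ • b j, fun j => ?_, ?_⟩
  · rw [norm_smul, norm_inv, norm_norm]
    rcases eq_or_ne (‖b j‖) 0 with h | h
    · rw [h]; simp
    · rw [inv_mul_cancel₀ h]
  · have h1 : Tendsto (fun j => ‖g j (b j)‖) atTop (𝓝 ‖v‖) := hv.norm
    have hpos : 0 < ‖v‖ := norm_pos_iff.2 hv0
    have h2 : ∀ᶠ j in atTop, ‖v‖ / 2 < ‖g j (b j)‖ := h1.eventually (lt_mem_nhds (by linarith))
    have h3 : Tendsto (fun j => ‖b j‖) atTop (𝓝[>] 0) := by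
      rw [tendsto_nhdsWithin_iff]
      refine ⟨by simpa using hb.norm, ?_⟩
      filter_upwards [h2] with j hj
      have : b j ≠ 0 := by
        intro h0
        rw [h0, map_zero, norm_zero] at hj
        linarith
      exact norm_pos_iff.2 this
    have h4 : Tendsto (fun j => ‖b j‖⁻¹ * (‖v‖ / 2)) atTop atTop :=
      (tendsto_inv_nhdsGT_zero.comp h3).atTop_mul_const (by linarith)
    refine tendsto_atTop_mono' _ ?_ h4
    filter_upwards [h2] with j hj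
    rw [map_smul, norm_smul, norm_inv, norm_norm]
    exact mul_le_mul_of_nonneg_left hj.le (by positivity)

variable [FiniteDimensional ℝ E]

/-- the plates: normalized parametrizations of the limit spaces `big g` -/
def Plt (q : ℕ) (Λ : Subgroup (E ≃ₗ[ℝ] E)) :
    Set (EuclideanSpace ℝ (Fin (Module.finrank ℝ E - q)) →L[ℝ] E) :=
  {k | (∀ f, ‖toEuclidean (k f)‖ = ‖f‖) ∧ ∃ g : ℕ → E ≃ₗ[ℝ] E, (∀ j, g j ∈ Λ) ∧ Fl q g ∧
    ∀ x, x ∈ range k ↔ x ∈ big g}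

end

/-- every subspace has a normalized parametrization -/
def S2_PAR : Prop := ∀ (E : Type) [NormedAddCommGroup E] [NormedSpace ℝ E] [FiniteDimensional ℝ E]
  (q : ℕ) (L : Submodule ℝ E), Module.finrank ℝ L + q = Module.finrank ℝ E →
  ∃ k : EuclideanSpace ℝ (Fin (Module.finrank ℝ E - q)) →L[ℝ] E,
    (∀ f, ‖toEuclidean (k f)‖ = ‖f‖) ∧ ∀ x, x ∈ range k ↔ x ∈ L

/-- for a subsequence the dimensions are complementary -/
def S2_GR : Prop := ∀ (E : Type) [NormedAddCommGroup E] [NormedSpace ℝ E] [FiniteDimensional ℝ E]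
  (g : ℕ → E ≃ₗ[ℝ] E), ∃ φ : ℕ → ℕ, StrictMono φ ∧
    Module.finrank ℝ (big (g ∘ φ)) + Module.finrank ℝ (att (inv g ∘ φ)) = Module.finrank ℝ E

/-- the limit flags of subsequences -/
def S2_SUB : Prop := ∀ (E : Type) [NormedAddCommGroup E] [NormedSpace ℝ E] [FiniteDimensional ℝ E]
  (q : ℕ) (Λ : Subgroup (E ≃ₗ[ℝ] E)), Anti q Λ → ∀ g : ℕ → E ≃ₗ[ℝ] E, (∀ j, g j ∈ Λ) →
  Module.finrank ℝ (att g) ≤ q ∧ (Div g → Module.finrank ℝ (big g) + q ≤ Module.finrank ℝ E) ∧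
  (Fl q g → ∀ φ : ℕ → ℕ, StrictMono φ → att (g ∘ φ) = att g ∧ big (g ∘ φ) = big g)

/-- limit flags for a sequence and for its inverse -/
def S2_TWO : Prop := ∀ (E : Type) [NormedAddCommGroup E] [NormedSpace ℝ E] [FiniteDimensional ℝ E]
  (q : ℕ) (Λ : Subgroup (E ≃ₗ[ℝ] E)), Anti q Λ → ∀ g : ℕ → E ≃ₗ[ℝ] E, (∀ j, g j ∈ Λ) → Div g →
  ∃ φ : ℕ → ℕ, StrictMono φ ∧ Fl q (g ∘ φ) ∧ Fl q (inv g ∘ φ)

/-- the maps are bounded from below on the plates transversal to the repelling space -/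
def S2_BEL : Prop := ∀ (E : Type) [NormedAddCommGroup E] [NormedSpace ℝ E] [FiniteDimensional ℝ E]
  (q : ℕ) (Λ : Subgroup (E ≃ₗ[ℝ] E)), Anti q Λ → ∀ g h : ℕ → E ≃ₗ[ℝ] E, (∀ j, g j ∈ Λ) →
  (∀ j, h j ∈ Λ) → Fl q (inv g) → Fl q h → big h ≠ big (inv g) →
  ∃ δ : ℝ, 0 < δ ∧ ∀ᶠ j in atTop, ∀ x ∈ big h, δ * ‖x‖ ≤ ‖g j x‖

/-- any two plates are equal or transversal -/
def S2_FAM : Prop := ∀ (E : Type) [NormedAddCommGroup E] [NormedSpace ℝ E] [FiniteDimensional ℝ E]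
  (q : ℕ) (Λ : Subgroup (E ≃ₗ[ℝ] E)), Anti q Λ →
  ∀ k ∈ Plt q Λ, ∀ l ∈ Plt q Λ, range k = range l ∨ ∀ e : E, ∃ f f', k f - l f' = e

/-- the images of plates are plates -/
def S2_IM : Prop := ∀ (E : Type) [NormedAddCommGroup E] [NormedSpace ℝ E] [FiniteDimensional ℝ E]
  (q : ℕ) (Λ : Subgroup (E ≃ₗ[ℝ] E)), Anti q Λ →
  ∀ g ∈ Λ, ∀ k ∈ Plt q Λ, ∃ l ∈ Plt q Λ, ∀ u, u ∈ range l ↔ g.symm u ∈ range k

/-- the set of plates is compact -/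
def S2_CPT : Prop := ∀ (E : Type) [NormedAddCommGroup E] [NormedSpace ℝ E] [FiniteDimensional ℝ E]
  (q : ℕ) (Λ : Subgroup (E ≃ₗ[ℝ] E)), Anti q Λ → IsCompact (Plt q Λ)

/-- the elements of the group expand some plate -/
def S2_LOW : Prop := ∀ (E : Type) [NormedAddCommGroup E] [NormedSpace ℝ E] [FiniteDimensional ℝ E]
  (q : ℕ) (Λ : Subgroup (E ≃ₗ[ℝ] E)), Anti q Λ →
  (∀ k ∈ Plt q Λ, ∃ h ∈ Λ, ∃ x ∈ range k, h x ∉ range k) → (Plt q Λ).Nonempty →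
  ∃ δ : ℝ, 0 < δ ∧ ∀ g ∈ Λ, ∃ k ∈ Plt q Λ, ∀ f, δ * ‖g.symm (k f)‖ ≤ ‖k f‖

/-- the maps which fix three different plates are uniformly bounded -/
def S2_THREE : Prop := ∀ (E : Type) [NormedAddCommGroup E] [NormedSpace ℝ E]
  [FiniteDimensional ℝ E] (q : ℕ) (Λ : Subgroup (E ≃ₗ[ℝ] E)), Anti q Λ →
  ∀ k1 ∈ Plt q Λ, ∀ k2 ∈ Plt q Λ, ∀ k3 ∈ Plt q Λ, range k1 ≠ range k2 → range k2 ≠ range k3 →
  range k1 ≠ range k3 → ∃ C : ℝ, ∀ g ∈ Λ, (∀ u, u ∈ range k1 ↔ g.symm u ∈ range k1) →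
  (∀ u, u ∈ range k2 ↔ g.symm u ∈ range k2) → (∀ u, u ∈ range k3 ↔ g.symm u ∈ range k3) →
  ∀ v, ‖g v‖ ≤ C * ‖v‖

end Pool.Agent.N520.AN
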