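import Pool.Agent.N520.AN.Gen
import Pool.Agent.N520.AN.Stm2

/-!
Project AN, second part: antipodal linear holonomy on an invariant subspace.
-/

set_option autoImplicit false

open Set Filter Topology
open Pool.Agent.W689.Mk Pool.Agent.R522.Mk.Rk Pool.Agent.N520.RO

namespace Pool.Agent.N520.AN

section
variable {Γ E : Type} [Group Γ] [NormedAddCommGroup E] [NormedSpace ℝ E]

/-- the group of the linear automorphisms of `W` which are restrictions of linear parts of elements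
of `H` -/
def LinOn (hol : Γ →* (E ≃ᵃ[ℝ] E)) (H : Subgroup Γ) (W : Submodule ℝ E) :
    Subgroup (W ≃ₗ[ℝ] W) where
  carrier := {A | ∃ γ ∈ H, ∀ v : W, (hol γ).linear (v : E) = (A v : E)}
  one_mem' := ⟨1, H.one_mem, fun v => by rw [map_one]; rfl⟩
  mul_mem' := by
    rintro A B ⟨γ, hγ, hA⟩ ⟨δ, hδ, hB⟩
    refine ⟨γ * δ, H.mul_mem hγ hδ, fun v => ?_⟩
    show (hol (γ * δ)).linear (v : E) = ((A (B v) : W) : E)
    rw [← hA, ← hB, map_mul]
    rfl
  inv_mem' := by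
    rintro A ⟨γ, hγ, hA⟩
    refine ⟨γ⁻¹, H.inv_mem hγ, fun v => ?_⟩
    have h1 : (v : E) = (hol γ).linear ((A⁻¹ v : W) : E) := by
      rw [hA]
      have : A (A⁻¹ v) = v := LinearEquiv.congr_fun (mul_inv_cancel A) v
      rw [this]
    conv_lhs => rw [h1]
    have h2 : AffineEquiv.linearHom (hol γ⁻¹) * AffineEquiv.linearHom (hol γ) = 1 := by
      rw [← map_mul, ← map_mul, inv_mul_cancel, map_one, map_one]
    exact LinearEquiv.congr_fun h2 ((A⁻¹ v : W) : E)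

theorem mem_LinOn (hol : Γ →* (E ≃ᵃ[ℝ] E)) (H : Subgroup Γ) (W : Submodule ℝ E) (A : W ≃ₗ[ℝ] W) :
    A ∈ LinOn hol H W ↔ ∃ γ ∈ H, ∀ v : W, (hol γ).linear (v : E) = (A v : E) := Iff.rfl

end

/-- a group without divergent sequences is bounded -/
theorem bdd_of_not_div {E : Type} [NormedAddCommGroup E] [NormedSpace ℝ E]
    (Λ : Subgroup (E ≃ₗ[ℝ] E)) (h : ∀ g : ℕ → E ≃ₗ[ℝ] E, (∀ j, g j ∈ Λ) → ¬ Div g) :
    ∃ C : ℝ, ∀ g ∈ Λ, ∀ v, ‖g v‖ ≤ C * ‖v‖ := by
  by_contra hc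
  push Not at hc
  choose g hg v hv using fun n : ℕ => hc n
  have hv0 : ∀ n, 0 < ‖v n‖ := by
    intro n
    rcases (norm_nonneg (v n)).eq_or_lt with h0 | h0
    · exfalso
      have h1 : v n = 0 := norm_eq_zero.1 h0.symm
      have h2 := hv n
      rw [h1, map_zero, norm_zero, mul_zero] at h2
      exact lt_irrefl _ h2
    · exact h0
  refine h g hg ⟨fun n => (‖v n‖)⁻¹ • v n, fun n => ?_, ?_⟩
  · rw [norm_smul, norm_inv, norm_norm, inv_mul_cancel₀ (hv0 n).ne']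
  · refine tendsto_atTop_mono (fun n => ?_) tendsto_natCast_atTop_atTop
    rw [map_smul, norm_smul, norm_inv, norm_norm]
    have h1 := (hv n).le
    rw [inv_mul_eq_div, le_div_iff₀ (hv0 n)]
    exact h1

theorem bounded_case (X Γ E : Type) [NormedAddCommGroup E] [NormedSpace ℝ E]
    [FiniteDimensional ℝ E] [TopologicalSpace X] [T2Space X] [SecondCountableTopology X]
    [Nonempty X] [Group Γ] [MulAction Γ X] (dev : X → E) (hol : Γ →* (E ≃ᵃ[ℝ] E))
    (D : AffData X Γ E dev hol) (hinj : Function.Injective dev) (H : Subgroup Γ)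
    (hH : H.FiniteIndex) (S : ℕ → Submodule ℝ E) (m : ℕ) (hO : OverFlag hol H S m) (C' : ℝ)
    (hC' : ∀ γ ∈ H, ∀ v ∈ S 0, ‖(hol γ).linear v‖ ≤ C' * ‖v‖) : IsHomeomorph dev := by
  obtain ⟨hm1, hle, hinv, C, hb, hq⟩ := hO
  let St : ℕ → Submodule ℝ E := fun i => if i = 0 then ⊥ else S (i - 1)
  have hlo : St 0 = ⊥ := if_pos rfl
  have hhi : ∀ i, St (i + 1) = S i := fun i => rfl
  refine (quasi X Γ E dev hol D hinj H hH St (m + 2) ⟨hlo, ?_, ?_, ?_, max C (max C' 0), ?_⟩).1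
  · rw [hhi, hm1]
  · intro i hi
    rcases i with _ | i
    · rw [hlo]
      exact bot_le
    · rw [hhi, hhi]
      exact hle i (by omega)
  · intro i hi γ hγ v hv
    rcases i with _ | i
    · rw [hlo, Submodule.mem_bot] at hv ⊢
      rw [hv, map_zero]
    · rw [hhi] at hv ⊢
      rcases Nat.lt_or_ge i (m + 1) with h' | h'
      · exact hinv _ (by omega) γ hγ v hv
      · rw [show i = m + 1 by omega, hm1]
        trivial
  · intro i hi γ hγ
    rcases i with _ | i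
    · refine ⟨1, one_pos, fun v hv => ?_⟩
      rw [hhi] at hv
      have h1 : C' ≤ max C (max C' 0) := (le_max_left _ _).trans (le_max_right _ _)
      refine ⟨⟨0, Submodule.zero_mem _, ?_⟩, 0, Submodule.zero_mem _, ?_⟩
      · rw [sub_zero, mul_one]
        refine (hC' γ hγ v hv).trans ?_
        gcongr
      · rw [sub_zero, inv_one, mul_one]
        refine (hC' γ⁻¹ (H.inv_mem hγ) v hv).trans ?_
        gcongr
    · rw [hhi, hhi]
      rcases Nat.lt_or_ge i m with h' | h'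
      · refine ⟨1, one_pos, fun v hv => ⟨?_, ?_⟩⟩
        · obtain ⟨u, hu, hu'⟩ := hb _ h' γ hγ v hv
          refine ⟨u, hu, hu'.trans ?_⟩
          rw [mul_one]
          gcongr
          exact le_max_left _ _
        · obtain ⟨u, hu, hu'⟩ := hb _ h' γ⁻¹ (H.inv_mem hγ) v hv
          refine ⟨u, hu, hu'.trans ?_⟩
          rw [inv_one, mul_one]
          gcongr
          exact le_max_left _ _
      · have him : i = m := by omega
        rw [him]
        obtain ⟨c, hc, h2⟩ := hq γ hγ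
        refine ⟨c, hc, fun v _ => ?_⟩
        obtain ⟨⟨a, ha, ha'⟩, b, hb', hb''⟩ := h2 v
        refine ⟨⟨a, ha, ha'.trans ?_⟩, b, hb', hb''.trans ?_⟩
        · gcongr
          exact le_max_left _ _
        · gcongr
          exact le_max_left _ _

theorem anti_main (hPAR : S2_PAR) (hCPT : S2_CPT) (hFAM : S2_FAM) (hIM : S2_IM) (hLOW : S2_LOW)
    (hTHREE : S2_THREE) (X Γ E : Type) [NormedAddCommGroup E] [NormedSpace ℝ E]
    [FiniteDimensional ℝ E] [TopologicalSpace X] [T2Space X] [SecondCountableTopology X]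
    [ConnectedSpace X] [Group Γ] [MulAction Γ X] (dev : X → E) (hol : Γ →* (E ≃ᵃ[ℝ] E))
    (D : AffData X Γ E dev hol) (hinj : Function.Injective dev) (H : Subgroup Γ)
    (hH : H.FiniteIndex) (S : ℕ → Submodule ℝ E) (m : ℕ) (hO : OverFlag hol H S m) (q : ℕ)
    (hA : Anti q (LinOn hol H (S 0)))
    (hN : ∀ g : ℕ → S 0 ≃ₗ[ℝ] S 0, (∀ j, g j ∈ LinOn hol H (S 0)) → Fl q g →
      ∀ H' : Subgroup Γ, H'.FiniteIndex → H' ≤ H → ∃ A ∈ LinOn hol H' (S 0), ∃ v ∈ big g,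
        A v ∉ big g) (j : ℕ)
    (hj : ∀ γ ∈ derivedSeries H j, ∀ v : E, hol (γ : Γ) v - v ∈ S 0) : IsHomeomorph dev := by
  have hinv0 : ∀ γ ∈ H, ∀ v ∈ S 0, (hol γ).linear v ∈ S 0 := hO.2.2.1 0 (Nat.zero_le m)
  set Λ := LinOn hol H (S 0) with hΛ
  have hWinv : ∀ γ, ∀ v ∈ S 0, ((hol.comp H.subtype) γ).linear v ∈ S 0 :=
    fun γ v hv => hinv0 γ γ.2 v hv
  have hmem : ∀ γ : H, restr (hol.comp H.subtype) (S 0) hWinv γ ∈ Λ :=
    fun γ => ⟨γ, γ.2, fun v => rfl⟩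
  rcases (Plt q Λ).eq_empty_or_nonempty with hemp | hne
  · obtain ⟨C, hC⟩ := bdd_of_not_div Λ fun g hg hdiv => by
      obtain ⟨φ, -, hφ⟩ := hA.div g hg hdiv
      obtain ⟨k, hk, hk'⟩ := hPAR (S 0) q (big (g ∘ φ)) hφ.2
      have : k ∈ Plt q Λ := ⟨hk, g ∘ φ, fun j => hg _, hφ, hk'⟩
      rw [hemp] at this
      exact this
    exact bounded_case X Γ E dev hol D hinj H hH S m hO C fun γ hγ v hv =>
      hC _ (hmem ⟨γ, hγ⟩) ⟨v, hv⟩
  · have hinvp : ∀ k ∈ Plt q Λ, ∀ H' : Subgroup Γ, H'.FiniteIndex → H' ≤ H →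
        ∃ A ∈ LinOn hol H' (S 0), ∃ x ∈ range k, A x ∉ range k := by
      rintro k ⟨-, g, hg, hfl, hk⟩ H' hH' hle
      obtain ⟨A, hA', v, hv, hv'⟩ := hN g hg hfl H' hH' hle
      exact ⟨A, hA', v, (hk v).2 hv, fun h => hv' ((hk _).1 h)⟩
    obtain ⟨δ, hδ, hδ'⟩ := hLOW (S 0) q Λ hA (fun k hk => hinvp k hk H hH le_rfl) hne
    obtain ⟨h1, hle, hinv, C, hb, hq⟩ := hO
    refine gen0 X H E dev (hol.comp H.subtype)
      (Pool.Agent.Y449.MK.restrict D H hH) hinj S m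
      ⟨h1, hle, fun i hi γ _ v hv => hinv i hi γ γ.2 v hv, C,
        fun i hi γ _ v hv => hb i hi γ γ.2 v hv, fun γ _ => hq γ γ.2⟩ hWinv (Plt q Λ)
      ⟨hCPT (S 0) q Λ hA, hFAM (S 0) q Λ hA, ⟨δ, hδ, fun γ => hδ' _ (hmem γ)⟩,
        fun γ k hk => hIM (S 0) q Λ hA _ (hmem γ) k hk, ?_, ?_⟩ j hj
    · intro k1 hk1 k2 hk2 k3 hk3 a1 a2 a3
      obtain ⟨C, hC⟩ := hTHREE (S 0) q Λ hA k1 hk1 k2 hk2 k3 hk3 a1 a2 a3
      exact ⟨C, fun γ b1 b2 b3 => hC _ (hmem γ) b1 b2 b3⟩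
    · intro k hk H'' hH''
      have hfin : (H''.map H.subtype).FiniteIndex := by
        refine ⟨?_⟩
        rw [Subgroup.index_map_subtype]
        exact mul_ne_zero hH''.index_ne_zero hH.index_ne_zero
      obtain ⟨A, ⟨_, ⟨γ, hγ, rfl⟩, hA'⟩, x, hx, hx'⟩ := hinvp k hk (H''.map H.subtype) hfin
        (Subgroup.map_subtype_le H'')
      refine ⟨γ, hγ, fun h => ?_⟩
      apply hx'
      have e1 : restr (hol.comp H.subtype) (S 0) hWinv γ = A := by
        refine LinearEquiv.ext fun v => Subtype.ext ?_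
        exact hA' v
      rw [e1] at h
      rw [h, LinearEquiv.symm_apply_apply]
      exact hx

end Pool.Agent.N520.AN
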