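import Pool.Agent.N520.AN.All2

/-!
Project AN, fifth part: products. Boundary points and limits of images of discs.
-/

set_option autoImplicit false

open Set Filter Topology Metric
open Pool.Agent.W689.Mk Pool.Agent.TH94.MK Pool.Agent.R522.Mk.Rk

namespace Pool.Agent.N520.AN

section
variable {E : Type} [NormedAddCommGroup E] [NormedSpace ℝ E] [FiniteDimensional ℝ E]

/-- the continuous linear map -/
noncomputable def cl (g : E ≃ₗ[ℝ] E) : E →L[ℝ] E := LinearMap.toContinuousLinearMap (g : E →ₗ[ℝ] E)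

theorem cl_apply (g : E ≃ₗ[ℝ] E) (v : E) : cl g v = g v := rfl

theorem opn {E : Type} [NormedAddCommGroup E] [NormedSpace ℝ E] (N : Submodule ℝ E)
    (A : ℕ → N →L[ℝ] E) (h : Tendsto A atTop (𝓝 0)) : Tendsto (fun j => ‖A j‖) atTop (𝓝 0) := by
  have h1 : Tendsto (fun j => ‖A j‖) atTop (𝓝 ‖(0 : N →L[ℝ] E)‖) :=
    ((continuous_norm (E := N →L[ℝ] E)).tendsto 0).comp h
  rwa [ContinuousLinearMap.opNorm_zero] at h1

/-- approximate preimages of the vectors of `big g` -/
theorem approx (g : ℕ → E ≃ₗ[ℝ] E) (N : Submodule ℝ E) (hN : N ≤ big g) :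
    ∃ (R : ℕ → N →L[ℝ] E) (C : ℝ), 0 < C ∧ (∀ j f, ‖R j f‖ ≤ C * ‖f‖) ∧
      Tendsto (fun j => (cl (g j)).comp (R j)) atTop (𝓝 N.subtypeL) := by
  let b := Module.finBasis ℝ N
  have hb : ∀ s, ((b s : N) : E) ∈ big g := fun s => hN (b s).2
  choose w C hw hlim using hb
  let φ : ∀ s, N →L[ℝ] ℝ := fun s => LinearMap.toContinuousLinearMap (b.coord s)
  have hφ : ∀ s f, φ s f = b.repr f s := fun s f => rfl
  refine ⟨fun j => ∑ s, (φ s).smulRight (w s j), ∑ s, ‖φ s‖ * |C s| + 1, by positivity, ?_, ?_⟩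
  · intro j f
    rw [_root_.sum_apply, add_mul, Finset.sum_mul]
    refine (norm_sum_le _ _).trans ?_
    have h1 : ∀ s ∈ Finset.univ, ‖((φ s).smulRight (w s j)) f‖ ≤ ‖φ s‖ * |C s| * ‖f‖ := by
      intro s _
      rw [ContinuousLinearMap.smulRight_apply, norm_smul]
      calc ‖φ s f‖ * ‖w s j‖ ≤ (‖φ s‖ * ‖f‖) * |C s| := by
            gcongr
            · exact (φ s).le_opNorm f
            · exact (hw s j).trans (le_abs_self _)
        _ = _ := by ring
    refine (Finset.sum_le_sum h1).trans ?_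
    linarith [norm_nonneg f]
  · have h1 : ∀ j, (cl (g j)).comp (∑ s, (φ s).smulRight (w s j)) =
        ∑ s, (φ s).smulRight (g j (w s j)) := by
      intro j
      refine ContinuousLinearMap.ext fun f => ?_
      rw [ContinuousLinearMap.comp_apply, _root_.sum_apply, map_sum,
        _root_.sum_apply]
      refine Finset.sum_congr rfl fun s _ => ?_
      rw [ContinuousLinearMap.smulRight_apply, ContinuousLinearMap.smulRight_apply, map_smul]
      rfl
    have h2 : N.subtypeL = ∑ s, (φ s).smulRight ((b s : N) : E) := by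
      refine ContinuousLinearMap.ext fun f => ?_
      rw [_root_.sum_apply]
      have h3 := congrArg (Submodule.subtype N) (b.sum_repr f)
      rw [map_sum] at h3
      refine Eq.trans h3.symm (Finset.sum_congr rfl fun s _ => ?_)
      rw [ContinuousLinearMap.smulRight_apply, map_smul]
      rfl
    rw [h2]
    simp_rw [h1]
    refine tendsto_finsetSum _ fun s _ => ?_
    have h4 : Continuous fun x : E => (φ s).smulRight x :=
      (ContinuousLinearMap.smulRightL ℝ N E (φ s)).continuous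
    exact (h4.tendsto _).comp (hlim s)

/-- the two sides of a boundary point -/
theorem sides {Ω : Set E} {p : E} {x : ℕ → E} {g : ℕ → E ≃ₗ[ℝ] E} {r : ℝ} (hr : 0 < r)
    (hx : Tendsto x atTop (𝓝 p)) (h1 : ∀ j w, ‖w‖ ≤ r → x j + g j w ∈ Ω)
    (h2 : ∀ (φ : ℕ → ℕ) (w : ℕ → E) (v : E), StrictMono φ → (∀ j, ‖w j‖ ≤ r) →
      Tendsto (fun j => g (φ j) (w j)) atTop (𝓝 v) → p + v ∉ Ω)
    (N : Submodule ℝ E) (hN : N ≤ big g) :
    ∃ ρ : ℝ, 0 < ρ ∧ (∀ a ∈ att g, ∀ b ∈ N, ‖b‖ < ρ → p + (a + b) ∉ Ω) ∧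
      ∀ a ∈ att g, Lim univ Ω ρ (p + a) N.subtypeL := by
  obtain ⟨R, C, hC, hR, hlim⟩ := approx g N hN
  have hρ : 0 < r / (4 * C) := by positivity
  have hρC : C * (r / (4 * C)) = r / 4 := by field_simp
  refine ⟨r / (4 * C), hρ, ?_, ?_⟩
  · rintro a ⟨c, hc, hca⟩ b hb hbr
    have e1 : ∀ᶠ j in atTop, ‖c j‖ ≤ r / 2 := by
      have h3 := hc.norm
      rw [norm_zero] at h3
      exact (h3.eventually_lt_const (by linarith : (0 : ℝ) < r / 2)).mono fun j hj => hj.le
    obtain ⟨J, hJ⟩ := eventually_atTop.1 e1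
    have hmono : StrictMono fun j : ℕ => j + J := fun a b h => Nat.add_lt_add_right h J
    refine h2 (fun j => j + J) (fun j => c (j + J) + R (j + J) ⟨b, hb⟩) (a + b) hmono ?_ ?_
    · intro j
      have h3 := hR (j + J) ⟨b, hb⟩
      have h4 : C * ‖(⟨b, hb⟩ : N)‖ ≤ C * (r / (4 * C)) :=
        mul_le_mul_of_nonneg_left hbr.le hC.le
      have h5 := hJ (j + J) (Nat.le_add_left _ _)
      calc _ ≤ ‖c (j + J)‖ + ‖R (j + J) ⟨b, hb⟩‖ := norm_add_le _ _
        _ ≤ r := by linarith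
    · have h3 : Tendsto (fun j => g j (c j) + g j (R j ⟨b, hb⟩)) atTop (𝓝 (a + b)) := by
        refine hca.add ?_
        have h4 := ((ContinuousLinearMap.apply ℝ E (⟨b, hb⟩ : N)).continuous.tendsto
          N.subtypeL).comp hlim
        exact h4
      have h5 := h3.comp hmono.tendsto_atTop
      refine h5.congr fun j => ?_
      show g (j + J) (c (j + J)) + g (j + J) (R (j + J) ⟨b, hb⟩) = _
      rw [map_add]
  · rintro a ⟨c, hc, hca⟩
    have e1 : ∀ᶠ j in atTop, ‖c j‖ ≤ r / 2 := by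
      have h3 := hc.norm
      rw [norm_zero] at h3
      exact (h3.eventually_lt_const (by linarith : (0 : ℝ) < r / 2)).mono fun j hj => hj.le
    have e2 : ∀ᶠ j in atTop, ‖(cl (g j)).comp (R j) - N.subtypeL‖ ≤ 1 / 2 := by
      have h3 : Tendsto (fun j => ‖(cl (g j)).comp (R j) - N.subtypeL‖) atTop (𝓝 0) := by
        have h4 := hlim.sub_const N.subtypeL
        rw [sub_self] at h4
        exact opn N _ h4
      exact (h3.eventually_lt_const (by norm_num : (0 : ℝ) < 1 / 2)).mono fun j hj => hj.le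
    obtain ⟨J, hJ⟩ := eventually_atTop.1 (e1.and e2)
    have hmono : StrictMono fun j : ℕ => j + J := fun a b h => Nat.add_lt_add_right h J
    refine ⟨trivial, fun j => x (j + J) + g (j + J) (c (j + J)),
      fun j => (cl (g (j + J))).comp (R (j + J)), ?_, ?_, ?_⟩
    · exact (hx.add hca).comp hmono.tendsto_atTop
    · exact hlim.comp hmono.tendsto_atTop
    · intro j f hf
      obtain ⟨j1, j2⟩ := hJ (j + J) (Nat.le_add_left _ _)
      have h3 : ‖f‖ ≤ 2 * (r / (4 * C)) := by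
        have h4 : ‖((cl (g (j + J))).comp (R (j + J)) - N.subtypeL) f‖ ≤ 1 / 2 * ‖f‖ :=
          (ContinuousLinearMap.le_opNorm _ _).trans (by gcongr)
        have h5 : ‖f‖ ≤ ‖((cl (g (j + J))).comp (R (j + J))) f‖ +
            ‖((cl (g (j + J))).comp (R (j + J)) - N.subtypeL) f‖ := by
          have h6 : ((f : N) : E) = ((cl (g (j + J))).comp (R (j + J))) f -
              ((cl (g (j + J))).comp (R (j + J)) - N.subtypeL) f := by
            rw [_root_.sub_apply, sub_sub_cancel]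
            rfl
          calc ‖f‖ = ‖((f : N) : E)‖ := rfl
            _ ≤ _ := by
              conv_lhs => rw [h6]
              exact norm_sub_le _ _
        linarith
      have h4 : ‖R (j + J) f‖ ≤ r / 2 := by
        refine (hR _ f).trans ?_
        calc C * ‖f‖ ≤ C * (2 * (r / (4 * C))) := by gcongr
          _ = 2 * (C * (r / (4 * C))) := by ring
          _ = r / 2 := by rw [hρC]; ring
      have h5 : x (j + J) + g (j + J) (c (j + J)) + ((cl (g (j + J))).comp (R (j + J))) f =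
          x (j + J) + g (j + J) (c (j + J) + R (j + J) f) := by
        rw [map_add, ← add_assoc]
        rfl
      rw [h5]
      refine h1 _ _ ((norm_add_le _ _).trans ?_)
      linarith

/-- the image of a limit plate -/
theorem lim_map {F : Type} [NormedAddCommGroup F] [NormedSpace ℝ F] {Ω : Set E}
    (h : E ≃ᵃ[ℝ] E) (hΩ : ∀ q ∈ Ω, h q ∈ Ω) {ρ : ℝ} (hρ : 0 < ρ) {q : E} {k : F →L[ℝ] E}
    (hk : Lim univ Ω ρ q k) : ∃ ρ' : ℝ, 0 < ρ' ∧ Lim univ Ω ρ' (h q) ((cl h.linear).comp k) := by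
  obtain ⟨-, z, Ψ, hz, hΨ, hin⟩ := hk
  have hcont : Continuous h := by
    have : Continuous h.toAffineMap := AffineMap.continuous_of_finiteDimensional _
    exact this
  have hadd : ∀ p v : E, h (p + v) = h p + h.linear v := by
    intro p v
    have := h.map_vadd p v
    rw [vadd_eq_add, vadd_eq_add, add_comm v p] at this
    rw [this, add_comm]
  set D := ‖cl h.linear.symm‖ + 1 with hD
  have hD0 : 0 < D := by positivity
  refine ⟨ρ / D, by positivity, trivial, fun j => h (z j), fun j => (cl h.linear).comp (Ψ j),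
    (hcont.tendsto q).comp hz, ?_, ?_⟩
  · exact ((ContinuousLinearMap.compL ℝ F E E (cl h.linear)).continuous.tendsto k).comp hΨ
  · intro j f hf
    have h1 : ‖Ψ j f‖ ≤ ρ := by
      have h2 : Ψ j f = cl h.linear.symm (((cl h.linear).comp (Ψ j)) f) := by
        show _ = h.linear.symm (h.linear (Ψ j f))
        rw [LinearEquiv.symm_apply_apply]
      rw [h2]
      calc _ ≤ ‖cl h.linear.symm‖ * ‖((cl h.linear).comp (Ψ j)) f‖ :=
            ContinuousLinearMap.le_opNorm _ _
        _ ≤ D * (ρ / D) := by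
            gcongr
            rw [hD]
            linarith
        _ = ρ := by field_simp
    have h3 := hΩ _ (hin j f h1)
    rwa [hadd] at h3

/-- two transversal plates do not meet -/
theorem no_meet {Ω : Set E} {p : E} {A N : Submodule ℝ E} {ρ : ℝ} (hρ : 0 < ρ)
    (hD : ∀ a ∈ A, ∀ b ∈ N, ‖b‖ < ρ → p + (a + b) ∉ Ω)
    (hL : ∀ a ∈ A, Lim univ Ω ρ (p + a) N.subtypeL)
    (h : E ≃ᵃ[ℝ] E) (hΩ : ∀ q ∈ Ω, h q ∈ Ω)
    (htr : ∀ e : E, ∃ n ∈ N, ∃ n' ∈ N, e = n + h.linear n')
    {a a' b : E} (ha : a ∈ A) (ha' : a' ∈ A) (hb : b ∈ N) (hbρ : ‖b‖ < ρ)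
    (hz : h (p + a') = p + (a + b)) : False := by
  obtain ⟨ρ', hρ', h1⟩ := lim_map h hΩ hρ (hL a' ha')
  rw [hz] at h1
  refine crossing hρ' h1 (k := N.subtypeL) (ε := ρ - ‖b‖) (by linarith) ?_ ?_
  · intro f hf
    have h2 : p + (a + b) + N.subtypeL f = p + (a + (b + (f : E))) := by
      show p + (a + b) + (f : E) = _
      abel
    rw [h2]
    refine hD a ha _ (N.add_mem hb f.2) ?_
    have h3 : ‖(f : E)‖ < ρ - ‖b‖ := hf
    linarith [norm_add_le b (f : E)]
  · intro e
    obtain ⟨n, hn, n', hn', he⟩ := htr e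
    refine ⟨⟨n, hn⟩, -⟨n', hn'⟩, ?_⟩
    rw [map_neg, sub_neg_eq_add]
    exact he.symm

end

end Pool.Agent.N520.AN
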