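import Pool.Agent.N520.AN.PR9

/-!
Project AN, fifth part: products, relative version. Main theorems.
-/

set_option autoImplicit false
set_option linter.unusedSectionVars false

open Set Filter Topology Metric
open Pool.Agent.W689.Mk Pool.Agent.TH94.MK Pool.Agent.R522.Mk.Rk Pool.Agent.N520.RO
open Pool.Agent.N507.AN2.IM

namespace Pool.Agent.N520.AN

theorem anti_mono {V : Type} [NormedAddCommGroup V] [NormedSpace ℝ V] {q : ℕ}
    {Λ Λ' : Subgroup (V ≃ₗ[ℝ] V)} (h : Anti q Λ) (hle : Λ' ≤ Λ) : Anti q Λ' :=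
  ⟨h.pos, fun g hg => h.div g fun j => hle (hg j), fun g k hg hk =>
    h.anti g k (fun j => hle (hg j)) (fun j => hle (hk j))⟩

section
variable {Γ E : Type} [Group Γ] [NormedAddCommGroup E] [NormedSpace ℝ E]
  {hol : Γ →* (E ≃ᵃ[ℝ] E)}

theorem linOn_mono {H H' : Subgroup Γ} (hle : H' ≤ H) (V : Submodule ℝ E) :
    LinOn hol H' V ≤ LinOn hol H V := by
  rintro A ⟨γ, hγ, hA⟩
  exact ⟨γ, hle hγ, hA⟩

theorem fac_mono {H H' : Subgroup Γ} (hle : H' ≤ H) {V : Submodule ℝ E} (h : Fac hol H V) :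
    Fac hol H' V := by
  rcases h with ⟨C, hC⟩ | ⟨q, h1, h2, h3⟩
  · exact Or.inl ⟨C, fun γ hγ => hC γ (hle hγ)⟩
  · exact Or.inr ⟨q, anti_mono h1 (linOn_mono hle V), h2, fun g hg hfl H'' hH'' hle' =>
      h3 g (fun j => linOn_mono hle V (hg j)) hfl H'' hH'' (hle'.trans hle)⟩

/-- the factors for the whole group -/
def FacT (hol : Γ →* (E ≃ᵃ[ℝ] E)) (V : Submodule ℝ E)
    (hinv : ∀ γ, ∀ v ∈ V, (hol γ).linear v ∈ V) (q : ℕ) : Prop :=
  (∃ C : ℝ, ∀ γ, ∀ v ∈ V, ‖(hol γ).linear v‖ ≤ C * ‖v‖) ∨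
      (Anti q (LinOn hol ⊤ V) ∧ Module.finrank ℝ V = 2 * q ∧
        ∀ g : ℕ → V ≃ₗ[ℝ] V, (∀ j, g j ∈ LinOn hol ⊤ V) → Fl q g →
          ∀ H' : Subgroup Γ, H'.FiniteIndex → ∃ γ ∈ H', ∃ v ∈ big g, restr hol V hinv γ v ∉ big g)

theorem fac_top (H : Subgroup Γ) (hH : H.FiniteIndex) {V : Submodule ℝ E}
    (hinv : ∀ γ ∈ H, ∀ v ∈ V, (hol γ).linear v ∈ V) (h : Fac hol H V) :
    ∃ q, FacT (hol.comp H.subtype) V (fun γ => hinv γ γ.2) q := by
  have hL : LinOn (hol.comp H.subtype) ⊤ V = LinOn hol H V := by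
    ext A
    constructor
    · rintro ⟨γ, -, hA⟩
      exact ⟨γ, γ.2, hA⟩
    · rintro ⟨γ, hγ, hA⟩
      exact ⟨⟨γ, hγ⟩, trivial, hA⟩
  rcases h with ⟨C, hC⟩ | ⟨q, h1, h2, h3⟩
  · exact ⟨0, Or.inl ⟨C, fun γ => hC γ γ.2⟩⟩
  · refine ⟨q, Or.inr ⟨by rw [hL]; exact h1, h2, ?_⟩⟩
    intro g hg hfl H' hH'
    have hg' : ∀ j, g j ∈ LinOn hol H V := fun j => by
      rw [← hL]
      exact hg j
    have hfi : (H'.map H.subtype).FiniteIndex := by
      constructor
      rw [Subgroup.index_map_subtype]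
      exact mul_ne_zero hH'.index_ne_zero hH.index_ne_zero
    obtain ⟨A, ⟨γ, ⟨δ, hδ, hδγ⟩, hA⟩, v, hv, hv'⟩ := h3 g hg' hfl (H'.map H.subtype) hfi (by
      rintro _ ⟨γ, -, rfl⟩
      exact γ.2)
    refine ⟨δ, hδ, v, hv, ?_⟩
    have h4 : restr (hol.comp H.subtype) V (fun γ => hinv γ γ.2) δ v = A v := by
      apply Subtype.ext
      rw [← hA, ← hδγ]
      rfl
    rw [h4]
    exact hv'

end

section dec
variable {E : Type} [NormedAddCommGroup E] [NormedSpace ℝ E]
  {ι : Type} [Fintype ι] [DecidableEq ι] {V : ι → Submodule ℝ E} {π : ι → E →ₗ[ℝ] E}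

theorem tau_single (hD : Dec V π) (o : ι) (v : E) : tau π {o} v = v - π o v := by
  rw [tau_apply, eq_sub_iff_add_eq']
  have h1 := Finset.sum_add_sum_compl {o} (fun i => π i v)
  rw [Finset.sum_singleton, hD.sum] at h1
  exact h1

theorem ker_eq (hD : Dec V π) (o : ι) : LinearMap.ker (π o) = ⨆ i ≠ o, V i := by
  apply le_antisymm
  · intro v hv
    have h1 : tau π {o} v = v := by
      rw [tau_single hD, LinearMap.mem_ker.1 hv, sub_zero]
    rw [← h1, tau_apply]
    refine Submodule.sum_mem _ fun i hi => ?_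
    have hi' : i ≠ o := by
      intro h
      exact (Finset.mem_compl.1 hi) (Finset.mem_singleton.2 h)
    exact (le_iSup₂ (f := fun i (_ : i ≠ o) => V i) i hi') (hD.mem i v)
  · refine iSup₂_le fun i hi => ?_
    intro v hv
    exact hD.ne o i (Ne.symm hi) v hv

theorem ker_compl (hD : Dec V π) (o : ι) : IsCompl (V o) (LinearMap.ker (π o)) := by
  refine ⟨disjoint_iff.2 ?_, codisjoint_iff.2 ?_⟩
  · rw [Submodule.eq_bot_iff]
    rintro v ⟨hv, hv'⟩
    have h1 := hD.self o v hv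
    rw [← h1]
    exact hv'
  · rw [Submodule.eq_top_iff']
    intro v
    refine Submodule.mem_sup.2 ⟨π o v, hD.mem o v, v - π o v, ?_, by abel⟩
    rw [LinearMap.mem_ker, map_sub, hD.self o _ (hD.mem o v), sub_self]

end dec

section main
variable {X Γ E : Type} [NormedAddCommGroup E] [NormedSpace ℝ E]
    [FiniteDimensional ℝ E] [TopologicalSpace X] [T2Space X] [SecondCountableTopology X]
    [ConnectedSpace X] [Group Γ] [MulAction Γ X] {dev : X → E} {hol : Γ →* (E ≃ᵃ[ℝ] E)}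

theorem slices_rel (D : AffData X Γ E dev hol) (hinj : Function.Injective dev) {ι : Type}
    [Fintype ι] [DecidableEq ι] (V : ι → Submodule ℝ E) (π : ι → E →ₗ[ℝ] E) (hD : Dec V π)
    (hinv : ∀ i γ, ∀ v ∈ V i, (hol γ).linear v ∈ V i) (o : ι) (k : ℕ)
    (hk : ∀ γ ∈ derivedSeries Γ k, ∀ v, hol γ v - v ∈ LinearMap.ker (π o))
    (hF : ∀ i ≠ o, ∃ q, FacT hol (V i) (hinv i) q) (x0 : E) (hx0 : x0 ∈ range dev) (w : E)
    (hw : w ∈ LinearMap.ker (π o)) : x0 + w ∈ range dev := by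
  classical
  choose! q hq using hF
  have h1 : (({o} : Finset ι)ᶜ)ᶜ = {o} := compl_compl _
  have h2 : ∀ v, v ∈ LinearMap.ker (π o) → tau π (({o} : Finset ι)ᶜ)ᶜ v = v := by
    intro v hv
    rw [h1, tau_single hD, LinearMap.mem_ker.1 hv, sub_zero]
  refine prod_slices D hinj V π hD hinv ({o} : Finset ι)ᶜ k
    (fun γ hγ v => h2 _ (hk γ hγ v)) q ?_ x0 hx0 w (h2 w hw)
  intro i hi
  have hi' : i ≠ o := by
    intro h
    exact (Finset.mem_compl.1 hi) (Finset.mem_singleton.2 h)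
  exact hq i hi'

/-- tame over the product -/
theorem rel_tame (D : AffData X Γ E dev hol) (hinj : Function.Injective dev) {ι : Type}
    [Fintype ι] [DecidableEq ι] (V : ι → Submodule ℝ E) (π : ι → E →ₗ[ℝ] E) (hD : Dec V π)
    (hinv : ∀ i γ, ∀ v ∈ V i, (hol γ).linear v ∈ V i) (o : ι) (k : ℕ)
    (hk : ∀ γ ∈ derivedSeries Γ k, ∀ v, hol γ v - v ∈ LinearMap.ker (π o))
    (hF : ∀ i ≠ o, ∃ q, FacT hol (V i) (hinv i) q) (S : ℕ → Submodule ℝ E) (m : ℕ)
    (hS : S 0 = LinearMap.ker (π o)) (hO : OverFlag hol ⊤ S m) : IsHomeomorph dev := by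
  refine over_complete X Γ E dev hol D S m hO fun x v hv => ?_
  refine geod_of_range D.loc hinj x v fun t => ?_
  refine slices_rel D hinj V π hD hinv o k hk hF _ (mem_range_self x) _ ?_
  rw [← hS]
  exact (S 0).smul_mem t hv

/-- a plane over the product -/
theorem rel_plane (D : AffData X Γ E dev hol) (hinj : Function.Injective dev) {ι : Type}
    [Fintype ι] [DecidableEq ι] (V : ι → Submodule ℝ E) (π : ι → E →ₗ[ℝ] E) (hD : Dec V π)
    (hinv : ∀ i γ, ∀ v ∈ V i, (hol γ).linear v ∈ V i) (o : ι) (k : ℕ)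
    (hk : ∀ γ ∈ derivedSeries Γ k, ∀ v, hol γ v - v ∈ LinearMap.ker (π o))
    (hF : ∀ i ≠ o, ∃ q, FacT hol (V i) (hinv i) q) (h2 : Module.finrank ℝ (V o) = 2)
    (hdet : ∀ A ∈ LinOn hol ⊤ (V o), |LinearMap.det (A : V o →ₗ[ℝ] V o)| = 1) :
    IsHomeomorph dev := by
  have hfull := slices_rel D hinj V π hD hinv o k hk hF
  have hA : Anti 1 (LinOn hol ⊤ (V o)) := p_pl (V o) h2 _ hdet
  set B := restr hol (V o) (hinv o) with hB
  have hBm : ∀ γ, B γ ∈ LinOn hol ⊤ (V o) := fun γ => ⟨γ, trivial, fun v => rfl⟩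
  refine convex_complete D hinj (Pool.Agent.N540.SP.t_star E (range dev)
    D.loc.isOpenMap.isOpen_range (isConnected_range D.loc.continuous) fun p hp hp' => ?_)
  obtain ⟨r, x, γ, c, M, hr, hx, hc, hγc, hin, hout⟩ := good_seq' D hinj hp hp'
  obtain ⟨φ, hφ, hAlt⟩ := alt_ex hA (fun j => B (γ j)) (fun j => hBm _)
  rcases hAlt with ⟨-, hbd⟩ | ⟨hfl, -⟩
  · exfalso
    obtain ⟨C, hC0, hC⟩ := hbd
    have hπc : Continuous (π o) := LinearMap.continuous_of_finiteDimensional (π o)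
    set y : ℕ → V o := fun j => ⟨π o (p - x (φ j)), hD.mem o _⟩ with hy
    have hy0 : Tendsto (fun j => ‖y j‖) atTop (𝓝 0) := by
      have h3 : Tendsto (fun j => p - x (φ j)) atTop (𝓝 0) := by
        have := (tendsto_const_nhds (x := p)).sub (hx.comp hφ.tendsto_atTop)
        rwa [sub_self] at this
      have h4 := (hπc.tendsto 0).comp h3
      rw [map_zero] at h4
      have h5 := h4.norm
      rw [norm_zero] at h5
      exact h5
    have h6 : Tendsto (fun j => C * ‖y j‖) atTop (𝓝 0) := by simpa using hy0.const_mul C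
    obtain ⟨j, hj⟩ := (h6.eventually (gt_mem_nhds hr)).exists
    have h7 : ‖(((B (γ (φ j))).symm (y j) : V o) : E)‖ ≤ r := (hC j (y j)).trans hj.le
    have h8 := hin (φ j) _ h7
    have h9 : (hol (γ (φ j))).linear (((B (γ (φ j))).symm (y j) : V o) : E) = (y j : E) := by
      have : B (γ (φ j)) ((B (γ (φ j))).symm (y j)) = y j := LinearEquiv.apply_symm_apply _ _
      exact congrArg Subtype.val this
    rw [h9] at h8
    apply hp'
    have h10 := hfull _ h8 ((p - x (φ j)) - π o (p - x (φ j))) (by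
      rw [LinearMap.mem_ker, map_sub, hD.self o _ (hD.mem o _), sub_self])
    have h11 : x (φ j) + (y j : E) + ((p - x (φ j)) - π o (p - x (φ j))) = p := by
      show x (φ j) + π o (p - x (φ j)) + ((p - x (φ j)) - π o (p - x (φ j))) = p
      abel
    rwa [h11] at h10
  · set K := att ((fun j => B (γ j)) ∘ φ) with hK
    have hcompl := ker_compl hD o
    refine ⟨K.map (V o).subtype ⊔ LinearMap.ker (π o), ?_, 1, one_pos, ?_⟩
    · have e1 := Submodule.finrank_sup_add_finrank_inf_eq (K.map (V o).subtype)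
        (LinearMap.ker (π o))
      have e2 : (K.map (V o).subtype ⊓ LinearMap.ker (π o) : Submodule ℝ E) = ⊥ := by
        rw [← le_bot_iff, ← hcompl.inf_eq_bot]
        exact inf_le_inf_right _ (Submodule.map_subtype_le _ _)
      have e3 := Submodule.finrank_add_eq_of_isCompl hcompl
      rw [e2, finrank_bot, Submodule.finrank_map_subtype_eq] at e1
      have e4 : Module.finrank ℝ K = 1 := hfl.1
      omega
    · intro v hv _ hcon
      obtain ⟨_, ⟨u, ⟨b, hb, hu⟩, rfl⟩, w, hw, rfl⟩ := Submodule.mem_sup.1 hv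
      have h3 := hfull _ hcon (-w) (Submodule.neg_mem _ hw)
      have h4 : p + ((V o).subtype u + w) + -w = p + (u : E) := by
        show p + ((u : E) + w) + -w = p + (u : E)
        abel
      rw [h4] at h3
      obtain ⟨J, hJ⟩ : ∃ J, ∀ j ≥ J, ‖b j‖ ≤ r := by
        have h5 := hb.norm
        rw [norm_zero] at h5
        obtain ⟨J, hJ⟩ := eventually_atTop.1 (h5.eventually (gt_mem_nhds hr))
        exact ⟨J, fun j hj => (hJ j hj).le⟩
      have hmono : StrictMono fun j : ℕ => j + J := fun a b h => Nat.add_lt_add_right h J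
      refine hout (φ ∘ fun j => j + J) (fun j => (b (j + J) : E)) (u : E) (hφ.comp hmono)
        (fun j => hJ _ (Nat.le_add_left _ _)) ?_ h3
      exact ((continuous_subtype_val.tendsto u).comp hu).comp hmono.tendsto_atTop

end main

/-- products over a tame or two-dimensional factor -/
theorem rel_complete (X Γ E : Type) [NormedAddCommGroup E] [NormedSpace ℝ E]
    [FiniteDimensional ℝ E] [TopologicalSpace X] [T2Space X] [SecondCountableTopology X]
    [ConnectedSpace X] [Group Γ] [MulAction Γ X] (dev : X → E) (hol : Γ →* (E ≃ᵃ[ℝ] E))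
    (D : AffData X Γ E dev hol) (hinj : Function.Injective dev) (H : Subgroup Γ)
    (hH : H.FiniteIndex) (ι : Type) [Fintype ι] [DecidableEq ι] (V : ι → Submodule ℝ E)
    (hV : DirectSum.IsInternal V) (hinv : ∀ i, ∀ γ ∈ H, ∀ v ∈ V i, (hol γ).linear v ∈ V i)
    (o : ι) (hF : ∀ i ≠ o, Fac hol H (V i))
    (ho : Fac hol H (V o) ∨
      (∃ (S : ℕ → Submodule ℝ E) (m k : ℕ), S 0 = (⨆ i ≠ o, V i) ∧ OverFlag hol H S m ∧
        ∀ γ ∈ derivedSeries H k, ∀ v : E, hol (γ : Γ) v - v ∈ ⨆ i ≠ o, V i) ∨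
      (Module.finrank ℝ (V o) = 2 ∧
        ∀ A ∈ LinOn hol H (V o), |LinearMap.det (A : V o →ₗ[ℝ] V o)| = 1)) :
    IsHomeomorph dev := by
  classical
  obtain ⟨π, hπ⟩ := dec_ex V hV
  rcases ho with ho | ⟨S, m, k, hS, ⟨h1, hle, hi, C, hb, hq⟩, hk⟩ | ⟨h2, hdet⟩
  · refine prod_complete X Γ E dev hol D hinj H hH ι V hV hinv fun i => ?_
    by_cases h : i = o
    · rw [h]
      exact ho
    · exact hF i h
  · rw [← ker_eq hπ o] at hS hk
    exact rel_tame (hol := hol.comp H.subtype) (Pool.Agent.Y449.MK.restrict D H hH) hinj V π hπ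
      (fun i γ => hinv i γ γ.2) o k hk (fun i hio => fac_top H hH (hinv i) (hF i hio)) S m hS
      ⟨h1, hle, fun i hi' γ _ v hv => hi i hi' γ γ.2 v hv, C,
        fun i hi' γ _ v hv => hb i hi' γ γ.2 v hv, fun γ _ => hq γ γ.2⟩
  · by_cases hex : ∃ H' : Subgroup Γ, H'.FiniteIndex ∧ H' ≤ H ∧ ∃ l : Submodule ℝ E, l ≤ V o ∧
        Module.finrank ℝ l = 1 ∧ ∀ γ ∈ H', ∀ v ∈ l, (hol γ).linear v ∈ l
    · obtain ⟨H', hH', hle, l, hl, hl1, hinvl⟩ := hex
      have hsol : Group.IsSolvable (LinOn hol H' (V o)) :=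
        solv_line Pool.Agent.N638.SP.t_tri H' h2 hl hl1 hinvl
      have hinvW : ∀ γ ∈ H', ∀ v ∈ LinearMap.ker (π o),
          (hol γ).linear v ∈ LinearMap.ker (π o) := by
        intro γ hγ v hv
        have h3 := hπ.comm ((hol γ).linear : E →ₗ[ℝ] E) (fun i v hv => hinv i γ (hle hγ) v hv) o v
        have h4 : π o ((hol γ).linear v) = (hol γ).linear (π o v) := h3
        rw [LinearMap.mem_ker, h4, LinearMap.mem_ker.1 hv, map_zero]
      obtain ⟨k, hk⟩ := solv_mod H' (ker_compl hπ o) (fun γ hγ => hinv o γ (hle hγ)) hinvW hsol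
      refine rel_plane (hol := hol.comp H'.subtype) (Pool.Agent.Y449.MK.restrict D H' hH') hinj
        V π hπ (fun i γ => hinv i γ (hle γ.2)) o k hk (fun i hio => fac_top H' hH'
          (fun γ hγ => hinv i γ (hle hγ)) (fac_mono hle (hF i hio))) h2 ?_
      rintro A ⟨γ, -, hA⟩
      exact hdet A ⟨γ, hle γ.2, hA⟩
    · refine prod_complete X Γ E dev hol D hinj H hH ι V hV hinv fun i => ?_
      by_cases h : i = o
      · rw [h]
        refine fac_plane H h2 hdet (hinv o) ?_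
        intro H' hH' hle l hl hl1
        by_contra hcon
        push Not at hcon
        exact hex ⟨H', hH', hle, l, hl, hl1, hcon⟩
      · exact hF i h

end Pool.Agent.N520.AN
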