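import Mathlib

/-!
Project AN, fifth part: products. Groups of sequences and ultrafilters.
-/

set_option autoImplicit false

open Set Filter Topology Pointwise

namespace Pool.Agent.N520.AN

section
variable {Γ : Type} [Group Γ]

/-- a subgroup of infinite index has three different cosets -/
theorem three_cosets (S : Subgroup Γ) (hS : ¬ S.FiniteIndex) :
    ∃ a b, a ∉ S ∧ b ∉ S ∧ a⁻¹ * b ∉ S := by
  by_contra hcon
  push Not at hcon
  apply hS
  by_cases htop : ∀ a, a ∈ S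
  · rw [(Subgroup.eq_top_iff' S).2 htop]
    infer_instance
  · push Not at htop
    obtain ⟨a, ha⟩ := htop
    have h2 : S.index = 2 := by
      rw [Subgroup.index_eq_two_iff]
      refine ⟨a, fun b => ?_⟩
      by_cases hb : b ∈ S
      · right
        refine ⟨hb, fun h => ha ?_⟩
        have := S.mul_mem (S.inv_mem hb) h
        rwa [inv_mul_cancel_left] at this
      · left
        refine ⟨?_, hb⟩
        have h3 := hcon a b⁻¹ ha (fun h => hb (by simpa using S.inv_mem h))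
        have h4 := S.inv_mem h3
        simpa using h4
    exact ⟨by rw [h2]; norm_num⟩

theorem fi_comap {G G' : Type} [Group G] [Group G'] (H : Subgroup G) (f : G' →* G)
    (h : H.FiniteIndex) : (H.comap f).FiniteIndex := by
  constructor
  rw [Subgroup.index_comap]
  have h1 : (H.subgroupOf f.range).FiniteIndex := Subgroup.instFiniteIndex_subgroupOf H f.range
  exact h1.index_ne_zero

/-- covering of a group of sequences -/
theorem ultra (G : Subgroup (ℕ → Γ)) (hconj : ∀ c : Γ, ∀ h ∈ G, (fun j => c⁻¹ * h j * c) ∈ G)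
    {ι : Type} [Fintype ι] (S : ι → Subgroup Γ) (hcov : ∀ h ∈ G, ∀ᶠ j in atTop, ∃ i, h j ∈ S i)
    (f : ℕ → ℕ → Γ) (hf : ∀ t, f t ∈ G) :
    ∃ i, ∀ a b : Γ, ∃ t t', t < t' ∧ ∃ᶠ j in atTop, (f t j)⁻¹ * f t' j ∈ S i ∧
      a⁻¹ * ((f t j)⁻¹ * f t' j) * a ∈ S i ∧ b⁻¹ * ((f t j)⁻¹ * f t' j) * b ∈ S i := by
  classical
  set U : Ultrafilter ℕ := hyperfilter ℕ with hU
  have hUle : (U : Filter ℕ) ≤ atTop := by
    rw [hU, ← Nat.cofinite_eq_atTop]
    exact hyperfilter_le_cofinite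
  let N : ι → Subgroup G := fun i =>
    { carrier := {h | ∀ᶠ j in (U : Filter ℕ), (h : ℕ → Γ) j ∈ S i}
      one_mem' := Eventually.of_forall fun j => (S i).one_mem
      mul_mem' := by
        intro h k hh hk
        exact (hh.and hk).mono fun j hj => (S i).mul_mem hj.1 hj.2
      inv_mem' := by
        intro h hh
        exact hh.mono fun j hj => (S i).inv_mem hj }
  have hN : ∀ i (h : G), h ∈ N i ↔ ∀ᶠ j in (U : Filter ℕ), (h : ℕ → Γ) j ∈ S i := fun i h => Iff.rfl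
  have hcover : ⋃ i ∈ (Finset.univ : Finset ι), ((1 : G) • (N i : Set G)) = univ := by
    refine eq_univ_iff_forall.2 fun h => ?_
    have h1 : ∀ᶠ j in (U : Filter ℕ), ∃ i, (h : ℕ → Γ) j ∈ S i := hUle (hcov h h.2)
    have h2 : ∃ i, ∀ᶠ j in (U : Filter ℕ), (h : ℕ → Γ) j ∈ S i := by
      by_contra hcon
      have h3 : ∀ i, ∀ᶠ j in (U : Filter ℕ), (h : ℕ → Γ) j ∉ S i := fun i =>
        Ultrafilter.eventually_not.2 fun h4 => hcon ⟨i, h4⟩
      have h4 : ∀ᶠ j in (U : Filter ℕ), ∀ i, (h : ℕ → Γ) j ∉ S i := eventually_all.2 h3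
      obtain ⟨j, ⟨i, hj⟩, hj'⟩ := (h1.and h4).exists
      exact hj' i hj
    obtain ⟨i, hi⟩ := h2
    refine mem_iUnion₂.2 ⟨i, Finset.mem_univ i, ?_⟩
    rw [one_smul]
    exact hi
  obtain ⟨i, -, hi⟩ := Subgroup.exists_finiteIndex_of_leftCoset_cover hcover
  refine ⟨i, fun a b => ?_⟩
  let κ : Γ → (G →* G) := fun c =>
    { toFun := fun h => ⟨fun j => c⁻¹ * (h : ℕ → Γ) j * c, hconj c h h.2⟩
      map_one' := by
        ext j
        simp
      map_mul' := by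
        intro h k
        ext j
        simp [mul_assoc] }
  have hκ : ∀ c (h : G) j, (κ c h : ℕ → Γ) j = c⁻¹ * (h : ℕ → Γ) j * c := fun c h j => rfl
  have hfi : ((N i) ⊓ ((N i).comap (κ a) ⊓ (N i).comap (κ b))).FiniteIndex := by
    have h1 := hi
    have h2 : ((N i).comap (κ a)).FiniteIndex := fi_comap (N i) (κ a) h1
    have h3 : ((N i).comap (κ b)).FiniteIndex := fi_comap (N i) (κ b) h1
    infer_instance
  set M := (N i) ⊓ ((N i).comap (κ a) ⊓ (N i).comap (κ b)) with hM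
  have hfin : Finite (G ⧸ M) := Subgroup.finite_quotient_of_finiteIndex
  obtain ⟨t, t', hne, heq⟩ := Finite.exists_ne_map_eq_of_infinite
    (fun t => ((⟨f t, hf t⟩ : G) : G ⧸ M))
  have key : ∀ t t', ((⟨f t, hf t⟩ : G) : G ⧸ M) = ((⟨f t', hf t'⟩ : G) : G ⧸ M) →
      ∃ᶠ j in atTop, (f t j)⁻¹ * f t' j ∈ S i ∧
      a⁻¹ * ((f t j)⁻¹ * f t' j) * a ∈ S i ∧ b⁻¹ * ((f t j)⁻¹ * f t' j) * b ∈ S i := by
    intro t t' h
    rw [QuotientGroup.eq] at h
    obtain ⟨h1, h2, h3⟩ := h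
    have h4 : ∀ᶠ j in (U : Filter ℕ), (f t j)⁻¹ * f t' j ∈ S i ∧
      a⁻¹ * ((f t j)⁻¹ * f t' j) * a ∈ S i ∧ b⁻¹ * ((f t j)⁻¹ * f t' j) * b ∈ S i :=
      Eventually.and h1 (Eventually.and h2 h3)
    exact h4.frequently.filter_mono hUle
  rcases lt_or_gt_of_ne hne with h | h
  · exact ⟨t, t', h, key t t' heq⟩
  · exact ⟨t', t, h, key t' t heq.symm⟩

/-- convergence modulo a kernel and growth -/
theorem ultra2 {Z : Type} [MetricSpace Z] [ProperSpace Z] (μ : Z → Z → Z)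
    (hμ : Continuous fun x : Z × Z => μ x.1 x.2) (Φ : Γ → Z) (hΦ : ∀ a b, Φ (a * b) = μ (Φ a) (Φ b))
    (γ : ℕ → Γ) (hb : Bornology.IsBounded (range fun j => Φ (γ j)))
    (hb' : Bornology.IsBounded (range fun j => Φ (γ j)⁻¹))
    {ι : Type} [Fintype ι] (S : ι → Subgroup Γ) (U : Set Z) (hU : U ∈ 𝓝 (Φ 1))
    (hcov : ∀ a, Φ a ∈ U → ∃ i, a ∈ S i) (N : ι → ℕ → ℝ) (hN : ∀ i, Tendsto (N i) atTop atTop)
    (hN0 : ∀ i j, 0 < N i j) :
    ∃ i, ∀ (a b : Γ) (C : ℝ), ∃ k l, C * N i k < N i l ∧ (γ l * (γ k)⁻¹) ∈ S i ∧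
      a⁻¹ * (γ l * (γ k)⁻¹) * a ∈ S i ∧ b⁻¹ * (γ l * (γ k)⁻¹) * b ∈ S i := by
  -- convergence
  have hbb : Bornology.IsBounded (range fun j => (Φ (γ j), Φ (γ j)⁻¹)) := by
    refine (hb.prod hb').subset ?_
    rintro _ ⟨j, rfl⟩
    exact ⟨⟨j, rfl⟩, ⟨j, rfl⟩⟩
  obtain ⟨⟨P, Q⟩, -, φ, hφ, hlim⟩ := tendsto_subseq_of_bounded hbb fun j => mem_range_self j
  have hP : Tendsto (fun j => Φ (γ (φ j))) atTop (𝓝 P) := (continuous_fst.tendsto _).comp hlim
  have hQ : Tendsto (fun j => Φ (γ (φ j))⁻¹) atTop (𝓝 Q) := (continuous_snd.tendsto _).comp hlim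
  have hμ2 : ∀ {f g : ℕ → Z} {x y : Z}, Tendsto f atTop (𝓝 x) → Tendsto g atTop (𝓝 y) →
      Tendsto (fun j => μ (f j) (g j)) atTop (𝓝 (μ x y)) := by
    intro f g x y hf hg
    exact (hμ.tendsto (x, y)).comp (hf.prodMk_nhds hg)
  have hPQ : μ P Q = Φ 1 := by
    refine tendsto_nhds_unique (hμ2 hP hQ) ?_
    have : (fun j => μ (Φ (γ (φ j))) (Φ (γ (φ j))⁻¹)) = fun _ => Φ 1 := by
      funext j
      rw [← hΦ, mul_inv_cancel]
    rw [this]
    exact tendsto_const_nhds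
  -- growth
  have hgr : ∀ n : ℕ, ∃ m0 : ℕ, ∀ m ≥ m0, ∀ i, ∀ k ≤ n, (n + 1 : ℝ) * N i (φ k) < N i (φ m) := by
    intro n
    rw [← eventually_atTop]
    rw [eventually_all]
    intro i
    have h1 : ∀ k ∈ Finset.range (n + 1), ∀ᶠ m in atTop,
        (n + 1 : ℝ) * N i (φ k) < N i (φ m) := fun k _ =>
      ((hN i).comp hφ.tendsto_atTop).eventually_gt_atTop _
    filter_upwards [(Finset.eventually_all (Finset.range (n + 1))).2 h1] with m hm k hk
    exact hm k (Finset.mem_range.2 (by omega))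
  choose m0 hm0 using hgr
  obtain ⟨ψ, hψs⟩ : ∃ ψ : ℕ → ℕ, ∀ n, ψ (n + 1) = max (m0 (ψ n)) (ψ n + 1) :=
    ⟨fun n => Nat.rec 0 (fun _ r => max (m0 r) (r + 1)) n, fun n => rfl⟩
  have hψ : StrictMono ψ := strictMono_nat_of_lt_succ fun n => by
    rw [hψs]
    exact lt_of_lt_of_le (Nat.lt_succ_self _) (le_max_right _ _)
  have hgrow : ∀ (i : ι) (k l : ℕ), k < l → (l : ℝ) * N i (φ (ψ k)) < N i (φ (ψ l)) := by
    intro i k l hkl
    obtain ⟨l, rfl⟩ : ∃ l', l = l' + 1 := ⟨l - 1, by omega⟩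
    have h1 := hm0 (ψ l) (ψ (l + 1)) (by rw [hψs]; exact le_max_left _ _) i (ψ k)
      (hψ.monotone (by omega))
    have h2 : l ≤ ψ l := hψ.id_le l
    have h3 : ((l + 1 : ℕ) : ℝ) ≤ ((ψ l : ℕ) : ℝ) + 1 := by
      push_cast
      have : (l : ℝ) ≤ ((ψ l : ℕ) : ℝ) := by exact_mod_cast h2
      linarith
    exact lt_of_le_of_lt (mul_le_mul_of_nonneg_right h3 (hN0 _ _).le) h1
  -- the group of sequences
  let G : Subgroup (ℕ → Γ) :=
    { carrier := {h | Tendsto (fun j => Φ (h j)) atTop (𝓝 (Φ 1)) ∧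
        Tendsto (fun j => Φ (h j)⁻¹) atTop (𝓝 (Φ 1))}
      one_mem' := by
        refine ⟨tendsto_const_nhds, ?_⟩
        simp only [Pi.one_apply, inv_one]
        exact tendsto_const_nhds
      mul_mem' := by
        rintro h k ⟨h1, h2⟩ ⟨k1, k2⟩
        have e : μ (Φ 1) (Φ 1) = Φ 1 := by rw [← hΦ, one_mul]
        refine ⟨?_, ?_⟩
        · have := hμ2 h1 k1
          rw [e] at this
          refine this.congr fun j => ?_
          rw [← hΦ]
          rfl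
        · have := hμ2 k2 h2
          rw [e] at this
          refine this.congr fun j => ?_
          rw [← hΦ, Pi.mul_apply, mul_inv_rev]
      inv_mem' := by
        rintro h ⟨h1, h2⟩
        refine ⟨h2, ?_⟩
        simpa using h1 }
  have hG : ∀ h : ℕ → Γ, h ∈ G ↔ Tendsto (fun j => Φ (h j)) atTop (𝓝 (Φ 1)) ∧
        Tendsto (fun j => Φ (h j)⁻¹) atTop (𝓝 (Φ 1)) := fun h => Iff.rfl
  have hcl : ∀ (c : Γ) (h : ℕ → Γ), Tendsto (fun j => Φ (h j)) atTop (𝓝 (Φ 1)) →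
      Tendsto (fun j => Φ (c⁻¹ * h j * c)) atTop (𝓝 (Φ 1)) := by
    intro c h hh
    have h1 := hμ2 (hμ2 (tendsto_const_nhds (x := Φ c⁻¹)) hh) (tendsto_const_nhds (x := Φ c))
    have e : μ (μ (Φ c⁻¹) (Φ 1)) (Φ c) = Φ 1 := by
      rw [← hΦ, ← hΦ, mul_one, inv_mul_cancel]
    rw [e] at h1
    refine h1.congr fun j => ?_
    rw [← hΦ, ← hΦ]
  have hconj : ∀ c : Γ, ∀ h ∈ G, (fun j => c⁻¹ * h j * c) ∈ G := by
    rintro c h ⟨h1, h2⟩
    refine ⟨hcl c h h1, ?_⟩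
    have h3 := hcl c _ h2
    refine h3.congr fun j => ?_
    simp [mul_assoc]
  have hshift : ∀ (u v : ℕ → ℕ), StrictMono u → StrictMono v →
      Tendsto (fun j => Φ (γ (φ (u j)) * (γ (φ (v j)))⁻¹)) atTop (𝓝 (Φ 1)) := by
    intro u v hu hv
    have h1 := hμ2 (hP.comp hu.tendsto_atTop) (hQ.comp hv.tendsto_atTop)
    rw [hPQ] at h1
    refine h1.congr fun j => ?_
    rw [hΦ]
    rfl
  have hadd : ∀ t : ℕ, StrictMono fun j => ψ (j + t) := fun t a b h => hψ (Nat.add_lt_add_right h t)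
  obtain ⟨i, hi⟩ := ultra G hconj S (by
      rintro h ⟨h1, -⟩
      exact (h1.eventually hU).mono fun j hj => hcov _ hj)
    (fun t j => γ (φ (ψ j)) * (γ (φ (ψ (j + t))))⁻¹) (by
      intro t
      refine ⟨hshift ψ _ hψ (hadd t), ?_⟩
      have := hshift (fun j => ψ (j + t)) ψ (hadd t) hψ
      refine this.congr fun j => ?_
      simp)
  refine ⟨i, fun a b C => ?_⟩
  obtain ⟨t, t', htt, hfr⟩ := hi a b
  obtain ⟨j, hj, hjC⟩ := (hfr.and_eventually (eventually_ge_atTop ⌈C⌉₊)).exists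
  have e1 : (γ (φ (ψ j)) * (γ (φ (ψ (j + t))))⁻¹)⁻¹ * (γ (φ (ψ j)) * (γ (φ (ψ (j + t'))))⁻¹) =
      γ (φ (ψ (j + t))) * (γ (φ (ψ (j + t'))))⁻¹ := by
    simp [mul_assoc]
  rw [e1] at hj
  have e2 : (γ (φ (ψ (j + t))) * (γ (φ (ψ (j + t'))))⁻¹)⁻¹ =
      γ (φ (ψ (j + t'))) * (γ (φ (ψ (j + t))))⁻¹ := by simp
  refine ⟨φ (ψ (j + t)), φ (ψ (j + t')), ?_, ?_, ?_, ?_⟩
  · have h1 := hgrow i (j + t) (j + t') (by omega)
    have h2 : C ≤ ((j + t' : ℕ) : ℝ) := by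
      have h3 : C ≤ ⌈C⌉₊ := Nat.le_ceil C
      have h4 : ((⌈C⌉₊ : ℕ) : ℝ) ≤ (j : ℝ) := by exact_mod_cast hjC
      push_cast
      have : (0 : ℝ) ≤ t' := Nat.cast_nonneg _
      linarith
    exact lt_of_le_of_lt (mul_le_mul_of_nonneg_right h2 (hN0 _ _).le) h1
  · rw [← e2]
    exact (S i).inv_mem hj.1
  · have := (S i).inv_mem hj.2.1
    rw [← e2]
    simpa [mul_assoc] using this
  · have := (S i).inv_mem hj.2.2
    rw [← e2]
    simpa [mul_assoc] using this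

end

end Pool.Agent.N520.AN
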