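import Pool.Agent.N520.AN.PR1
import Pool.Agent.N520.AN.PR3

/-!
Project AN, fifth part: products. Decompositions.
-/

set_option autoImplicit false

open Set Filter Topology Metric
open Pool.Agent.W689.Mk Pool.Agent.TH94.MK Pool.Agent.R522.Mk.Rk
open Pool.Agent.N507.AN2.IM

namespace Pool.Agent.N520.AN

section alt
variable {V : Type} [NormedAddCommGroup V] [NormedSpace ℝ V]

/-- bounded sequences -/
def Bd (a : ℕ → V ≃ₗ[ℝ] V) : Prop := ∃ C : ℝ, 0 ≤ C ∧ ∀ j v, ‖a j v‖ ≤ C * ‖v‖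

theorem Bd.comp {a : ℕ → V ≃ₗ[ℝ] V} (h : Bd a) (φ : ℕ → ℕ) : Bd (a ∘ φ) := by
  obtain ⟨C, h0, h⟩ := h
  exact ⟨C, h0, fun j v => h (φ j) v⟩

theorem div_comp {a : ℕ → V ≃ₗ[ℝ] V} (h : Div a) {φ : ℕ → ℕ} (hφ : StrictMono φ) :
    Div (a ∘ φ) := by
  obtain ⟨v, hv, h⟩ := h
  exact ⟨v ∘ φ, fun j => hv _, h.comp hφ.tendsto_atTop⟩

/-- the alternative for sequences in antipodal groups -/
def Alt (q : ℕ) (a : ℕ → V ≃ₗ[ℝ] V) : Prop := (Bd a ∧ Bd (inv a)) ∨ (Fl q a ∧ Div a)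

variable [FiniteDimensional ℝ V]

theorem alt_ex {q : ℕ} {Λ : Subgroup (V ≃ₗ[ℝ] V)} (hΛ : Anti q Λ) (a : ℕ → V ≃ₗ[ℝ] V)
    (ha : ∀ j, a j ∈ Λ) : ∃ φ : ℕ → ℕ, StrictMono φ ∧ Alt q (a ∘ φ) := by
  rcases Pool.Agent.N91.SP.bd_or_div (inv a) with h | ⟨φ, hφ, hd⟩
  · rcases Pool.Agent.N91.SP.bd_or_div a with h' | ⟨φ, hφ, hd⟩
    · exact ⟨id, strictMono_id, Or.inl ⟨h', h⟩⟩
    · obtain ⟨ψ, hψ, hf⟩ := hΛ.div (a ∘ φ) (fun j => ha _) hd
      exact ⟨φ ∘ ψ, hφ.comp hψ, Or.inr ⟨hf, div_comp hd hψ⟩⟩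
  · obtain ⟨ψ, hψ, -, h2⟩ := p_two V q Λ hΛ (inv a ∘ φ) (fun j => inv_mem' ha _) hd
    have h3 : Fl q (a ∘ (φ ∘ ψ)) := h2
    refine ⟨φ ∘ ψ, hφ.comp hψ, Or.inr ⟨h3, ?_⟩⟩
    have h4 : att (a ∘ (φ ∘ ψ)) ≠ ⊥ := by
      intro h0
      have := h3.1
      rw [h0, finrank_bot] at this
      have := hΛ.pos
      omega
    obtain ⟨v, hv, hv0⟩ := Submodule.exists_mem_ne_zero_of_ne_bot h4
    exact div_of_att hv hv0

theorem alt_sub {q : ℕ} {Λ : Subgroup (V ≃ₗ[ℝ] V)} (hΛ : Anti q Λ) (a : ℕ → V ≃ₗ[ℝ] V)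
    (ha : ∀ j, a j ∈ Λ) (h : Alt q a) {φ : ℕ → ℕ} (hφ : StrictMono φ) : Alt q (a ∘ φ) := by
  rcases h with ⟨h1, h2⟩ | ⟨h1, h2⟩
  · exact Or.inl ⟨h1.comp φ, h2.comp φ⟩
  · obtain ⟨e1, e2⟩ := (p_sub V q Λ hΛ a ha).2.2 h1 φ hφ
    refine Or.inr ⟨⟨?_, ?_⟩, div_comp h2 hφ⟩
    · rw [e1]; exact h1.1
    · rw [e2]; exact h1.2

theorem att_eq_big {q : ℕ} (h2 : Module.finrank ℝ V = 2 * q) {g : ℕ → V ≃ₗ[ℝ] V}
    (hfl : Fl q g) : att g = big g := by
  have e1 := hfl.1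
  have e2 := hfl.2
  exact Submodule.eq_of_le_of_finrank_eq (att_le_big g) (by omega)

/-- the images of a limit space are equal to it or transversal -/
theorem tr {q : ℕ} {Λ : Subgroup (V ≃ₗ[ℝ] V)} (hΛ : Anti q Λ) (h2 : Module.finrank ℝ V = 2 * q)
    (g : ℕ → V ≃ₗ[ℝ] V) (hg : ∀ j, g j ∈ Λ) (hfl : Fl q g) {c : V ≃ₗ[ℝ] V} (hc : c ∈ Λ) :
    (∀ v, v ∈ big g ↔ c v ∈ big g) ∨ ∀ v, ∃ k ∈ big g, ∃ k' ∈ big g, v = k + c k' := by
  have hm : ∀ j, c * g j ∈ Λ := fun j => Λ.mul_mem hc (hg j)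
  have hfl' : Fl q (fun j => c * g j) := by
    refine ⟨?_, ?_⟩
    · rw [map_eq c (mem_att_mul c g), LinearEquiv.finrank_map_eq, hfl.1]
    · rw [map_eq c (mem_big_mul c g), LinearEquiv.finrank_map_eq, hfl.2]
  rcases hΛ.anti g (fun j => c * g j) hg hm hfl hfl' with h | h
  · left
    intro v
    have h3 := mem_big_mul c g (c v)
    rw [← h, c.symm_apply_apply] at h3
    exact h3.symm
  · right
    intro v
    have e1 := Submodule.finrank_sup_add_finrank_inf_eq (att g) (big fun j => c * g j)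
    have e2 := hfl.1
    have e3 := hfl'.2
    rw [h, finrank_bot] at e1
    have e4 : att g ⊔ (big fun j => c * g j) = ⊤ := Submodule.eq_top_of_finrank_eq (by omega)
    obtain ⟨k, hk, k'', hk'', hv⟩ := Submodule.mem_sup.1
      (show v ∈ att g ⊔ (big fun j => c * g j) by rw [e4]; trivial)
    refine ⟨k, att_le_big g hk, c.symm k'', (mem_big_mul c g k'').1 hk'', ?_⟩
    rw [c.apply_symm_apply, hv]

end alt

theorem fin_sub {ι : Type} [Fintype ι] (P : ι → (ℕ → ℕ) → Prop)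
    (hsub : ∀ i φ ψ, StrictMono φ → StrictMono ψ → P i φ → P i (φ ∘ ψ))
    (hex : ∀ i φ, StrictMono φ → ∃ ψ : ℕ → ℕ, StrictMono ψ ∧ P i (φ ∘ ψ)) :
    ∃ φ : ℕ → ℕ, StrictMono φ ∧ ∀ i, P i φ := by
  classical
  have key : ∀ s : Finset ι, ∃ φ : ℕ → ℕ, StrictMono φ ∧ ∀ i ∈ s, P i φ := by
    intro s
    induction s using Finset.induction_on with
    | empty => exact ⟨id, strictMono_id, fun i hi => absurd hi (Finset.notMem_empty i)⟩
    | insert i s _ ih =>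
      obtain ⟨φ, hφ, h⟩ := ih
      obtain ⟨ψ, hψ, h'⟩ := hex i φ hφ
      refine ⟨φ ∘ ψ, hφ.comp hψ, fun l hl => ?_⟩
      rcases Finset.mem_insert.1 hl with rfl | hl
      · exact h'
      · exact hsub l φ ψ hφ hψ (h l hl)
  obtain ⟨φ, hφ, h⟩ := key Finset.univ
  exact ⟨φ, hφ, fun i => h i (Finset.mem_univ i)⟩

set_option linter.unusedSectionVars false

section dec
variable {E : Type} [NormedAddCommGroup E] [NormedSpace ℝ E]
  {ι : Type} [Fintype ι] [DecidableEq ι]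

/-- the projections of a direct sum -/
structure Dec (V : ι → Submodule ℝ E) (π : ι → E →ₗ[ℝ] E) : Prop where
  mem : ∀ i v, π i v ∈ V i
  self : ∀ i, ∀ v ∈ V i, π i v = v
  ne : ∀ i j, i ≠ j → ∀ v ∈ V j, π i v = 0
  sum : ∀ v, ∑ i, π i v = v

theorem dec_ex (V : ι → Submodule ℝ E) (hV : DirectSum.IsInternal V) : ∃ π, Dec V π := by
  have hind := hV.submodule_iSupIndep
  have htop := hV.submodule_iSup_eq_top
  have hc : ∀ i, IsCompl (V i) (⨆ j ≠ i, V j) := by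
    intro i
    refine ⟨hind i, codisjoint_iff.2 ?_⟩
    refine top_le_iff.1 ?_
    rw [← htop]
    refine iSup_le fun j => ?_
    by_cases hj : j = i
    · subst hj; exact le_sup_left
    · exact (le_iSup₂ (f := fun j (_ : j ≠ i) => V j) j hj).trans le_sup_right
  have h1 : ∀ i, ∀ v ∈ V i, (((V i).projectionOnto _ (hc i) v : V i) : E) = v := by
    intro i v hv
    have := Submodule.projectionOnto_apply_left (hc i) ⟨v, hv⟩
    exact congrArg Subtype.val this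
  have h2 : ∀ i j, i ≠ j → ∀ v ∈ V j, (((V i).projectionOnto _ (hc i) v : V i) : E) = 0 := by
    intro i j hij v hv
    have hv' : v ∈ ⨆ j ≠ i, V j := (le_iSup₂ (f := fun j (_ : j ≠ i) => V j) j hij.symm) hv
    have := Submodule.projectionOnto_apply_right (hc i) ⟨v, hv'⟩
    exact congrArg Subtype.val this
  refine ⟨fun i => (V i).subtype.comp ((V i).projectionOnto _ (hc i)), fun i v => Subtype.prop _,
    h1, h2, ?_⟩
  intro v
  have hv : v ∈ ⨆ i, V i := by rw [htop]; trivial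
  induction hv using Submodule.iSup_induction' with
  | mem j v hv =>
    rw [Finset.sum_eq_single j]
    · exact h1 j v hv
    · intro i _ hi
      exact h2 i j hi v hv
    · intro h
      exact absurd (Finset.mem_univ j) h
  | zero => simp
  | add v w _ _ hv hw =>
    simp only [map_add, Finset.sum_add_distrib]
    rw [hv, hw]

variable {V : ι → Submodule ℝ E} {π : ι → E →ₗ[ℝ] E}

theorem Dec.comm (hD : Dec V π) (c : E →ₗ[ℝ] E) (hc : ∀ i, ∀ v ∈ V i, c v ∈ V i) (i : ι) (v : E) :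
    π i (c v) = c (π i v) := by
  conv_lhs => rw [← hD.sum v, map_sum, map_sum]
  rw [Finset.sum_eq_single i]
  · exact hD.self i _ (hc i _ (hD.mem i v))
  · intro j _ hj
    exact hD.ne i j (Ne.symm hj) _ (hc j _ (hD.mem j v))
  · intro h
    exact absurd (Finset.mem_univ i) h

/-- the sum of the `K i`, `i ∈ I` and of the `V i`, `i ∉ I` -/
def NN (π : ι → E →ₗ[ℝ] E) (I : Finset ι) (K : ι → Submodule ℝ E) : Submodule ℝ E where
  carrier := {v | ∀ i ∈ I, π i v ∈ K i}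
  add_mem' := by
    intro a b ha hb i hi
    rw [map_add]
    exact (K i).add_mem (ha i hi) (hb i hi)
  zero_mem' := by
    intro i _
    rw [map_zero]
    exact (K i).zero_mem
  smul_mem' := by
    intro t a ha i hi
    rw [map_smul]
    exact (K i).smul_mem t (ha i hi)

/-- the sum of the `K i`, `i ∈ I` -/
def AA (π : ι → E →ₗ[ℝ] E) (I : Finset ι) (K : ι → Submodule ℝ E) : Submodule ℝ E where
  carrier := {v | (∀ i ∈ I, π i v ∈ K i) ∧ ∀ i ∉ I, π i v = 0}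
  add_mem' := by
    rintro a b ⟨ha, ha'⟩ ⟨hb, hb'⟩
    refine ⟨fun i hi => ?_, fun i hi => ?_⟩
    · rw [map_add]
      exact (K i).add_mem (ha i hi) (hb i hi)
    · rw [map_add, ha' i hi, hb' i hi, add_zero]
  zero_mem' := by
    refine ⟨fun i _ => ?_, fun i _ => map_zero _⟩
    rw [map_zero]
    exact (K i).zero_mem
  smul_mem' := by
    rintro t a ⟨ha, ha'⟩
    refine ⟨fun i hi => ?_, fun i hi => ?_⟩
    · rw [map_smul]
      exact (K i).smul_mem t (ha i hi)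
    · rw [map_smul, ha' i hi, smul_zero]

theorem mem_AA (hD : Dec V π) {I : Finset ι} {K : ι → Submodule ℝ E} (hK : ∀ i, K i ≤ V i)
    {i : ι} (hi : i ∈ I) {k : E} (hk : k ∈ K i) : k ∈ AA π I K := by
  refine ⟨fun l _ => ?_, fun l hl => ?_⟩
  · by_cases h : l = i
    · subst h
      rw [hD.self l k (hK l hk)]
      exact hk
    · rw [hD.ne l i h k (hK i hk)]
      exact (K l).zero_mem
  · have h : l ≠ i := fun h => hl (h ▸ hi)
    exact hD.ne l i h k (hK i hk)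

/-- the projection to the sum of the `V i`, `i ∉ I` -/
def tau (π : ι → E →ₗ[ℝ] E) (I : Finset ι) : E →ₗ[ℝ] E := ∑ i ∈ Iᶜ, π i

theorem tau_apply (I : Finset ι) (v : E) : tau π I v = ∑ i ∈ Iᶜ, π i v := by
  rw [tau, LinearMap.sum_apply]

theorem tau_comm (hD : Dec V π) (I : Finset ι) (c : E →ₗ[ℝ] E) (hc : ∀ i, ∀ v ∈ V i, c v ∈ V i)
    (v : E) : tau π I (c v) = c (tau π I v) := by
  rw [tau_apply, tau_apply, map_sum]
  exact Finset.sum_congr rfl fun i _ => hD.comm c hc i v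

theorem tau_idem (hD : Dec V π) (I : Finset ι) (v : E) : tau π I (tau π I v) = tau π I v := by
  rw [tau_apply I v, map_sum]
  refine Finset.sum_congr rfl fun i hi => ?_
  rw [tau_apply, Finset.sum_eq_single i]
  · exact hD.self i _ (hD.mem i v)
  · intro l _ hl
    exact hD.ne l i hl _ (hD.mem i v)
  · intro h
    exact absurd hi h

theorem tau_NN (hD : Dec V π) (I : Finset ι) (K : ι → Submodule ℝ E) (v : E) :
    tau π I v ∈ NN π I K := by
  rw [tau_apply]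
  refine Submodule.sum_mem _ fun i hi => ?_
  intro l hl
  have h : l ≠ i := fun h => (Finset.mem_compl.1 hi) (h ▸ hl)
  rw [hD.ne l i h _ (hD.mem i v)]
  exact (K l).zero_mem

theorem split (hD : Dec V π) {I : Finset ι} {K : ι → Submodule ℝ E} (hK : ∀ i, K i ≤ V i)
    (c : E →ₗ[ℝ] E) (htr : ∀ i ∈ I, ∀ v ∈ V i, ∃ k ∈ K i, ∃ k' ∈ K i, v = k + c k') (e : E) :
    ∃ a ∈ AA π I K, ∃ a' ∈ AA π I K, e = a + c a' + tau π I e := by
  choose! k hk k' hk' hkk using fun i hi => htr i hi (π i e) (hD.mem i e)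
  refine ⟨∑ i ∈ I, k i, Submodule.sum_mem _ fun i hi => mem_AA hD hK hi (hk i hi),
    ∑ i ∈ I, k' i, Submodule.sum_mem _ fun i hi => mem_AA hD hK hi (hk' i hi), ?_⟩
  rw [map_sum, ← Finset.sum_add_distrib, tau_apply]
  have h1 : ∑ i ∈ I, (k i + c (k' i)) = ∑ i ∈ I, π i e :=
    Finset.sum_congr rfl fun i hi => (hkk i hi).symm
  rw [h1, Finset.sum_add_sum_compl, hD.sum]

/-- elements which almost fix the boundary point preserve one of the `K i` -/
theorem one_fixed [FiniteDimensional ℝ E] (hD : Dec V π) {I : Finset ι} {K : ι → Submodule ℝ E}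
    (hK : ∀ i, K i ≤ V i) {Ω : Set E} {p : E} {ρ : ℝ} (hρ : 0 < ρ)
    (h1 : ∀ a ∈ AA π I K, ∀ b ∈ NN π I K, ‖b‖ < ρ → p + (a + b) ∉ Ω)
    (h2 : ∀ a ∈ AA π I K, Lim univ Ω ρ (p + a) (NN π I K).subtypeL)
    (h : E ≃ᵃ[ℝ] E) (hΩ : ∀ q ∈ Ω, h q ∈ Ω)
    (htr : ∀ i ∈ I, ∀ v ∈ V i, ∃ k ∈ K i, ∃ k' ∈ K i, v = k + h.linear k')
    (hs : ‖tau π I (h p - p)‖ < ρ) : False := by
  have hsp := split hD hK (h.linear : E →ₗ[ℝ] E) htr
  have hAN : AA π I K ≤ NN π I K := fun v hv => hv.1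
  obtain ⟨a, ha, a', ha', he⟩ := hsp (h p - p)
  refine no_meet (A := AA π I K) (N := NN π I K) hρ h1 h2 h hΩ ?_ ha
    (Submodule.neg_mem _ ha') (tau_NN hD I K (h p - p)) hs ?_
  · intro e
    obtain ⟨b, hb, b', hb', hbe⟩ := hsp e
    refine ⟨b + tau π I e, Submodule.add_mem _ (hAN hb) (tau_NN hD I K e), b', hAN hb', ?_⟩
    have h3 : e = b + h.linear b' + tau π I e := hbe
    conv_lhs => rw [h3]
    abel
  · have hadd : ∀ p v : E, h (p + v) = h p + h.linear v := by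
      intro p v
      have := h.map_vadd p v
      rw [vadd_eq_add, vadd_eq_add, add_comm v p] at this
      rw [this, add_comm]
    rw [hadd, map_neg]
    have h3 : h p = p + (a + h.linear a' + tau π I (h p - p)) := by
      have h4 : h p - p = a + h.linear a' + tau π I (h p - p) := he
      rw [← h4]
      abel
    conv_lhs => rw [h3]
    abel

end dec

end Pool.Agent.N520.AN
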