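import Pool.Agent.N520.AN.PR2

/-!
Project AN, fifth part: products. Preparations.
-/

set_option autoImplicit false
set_option linter.unusedSectionVars false

open Set Filter Topology Metric
open Pool.Agent.W689.Mk Pool.Agent.TH94.MK Pool.Agent.R522.Mk.Rk
open Pool.Agent.N507.AN2.IM

namespace Pool.Agent.N520.AN

section limits
variable {E : Type} [NormedAddCommGroup E] [NormedSpace ℝ E] [FiniteDimensional ℝ E]
  {ι : Type} [Fintype ι] [DecidableEq ι] {V : ι → Submodule ℝ E} {π : ι → E →ₗ[ℝ] E}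

theorem NN_le_big (hD : Dec V π) (g : ℕ → E ≃ₗ[ℝ] E) (a : ∀ i, ℕ → V i ≃ₗ[ℝ] V i)
    (ha : ∀ i j (v : V i), g j (v : E) = (a i j v : E)) (I : Finset ι)
    (hb : ∀ i ∉ I, Bd (inv (a i))) :
    NN π I (fun i => (big (a i)).map (V i).subtype) ≤ big g := by
  intro v hv
  rw [← hD.sum v]
  refine Submodule.sum_mem _ fun i _ => ?_
  by_cases hi : i ∈ I
  · obtain ⟨u, ⟨x, C, hx, hu⟩, huv⟩ := hv i hi
    refine ⟨fun j => (x j : E), C, hx, ?_⟩
    have h1 := (continuous_subtype_val.tendsto u).comp hu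
    rw [show (u : E) = π i v from huv] at h1
    exact h1.congr fun j => (ha i j (x j)).symm
  · obtain ⟨C, hC, h⟩ := hb i hi
    refine ⟨fun j => ((inv (a i) j ⟨π i v, hD.mem i v⟩ : V i) : E), C * ‖π i v‖,
      fun j => h j _, ?_⟩
    have h1 : ∀ j, g j ((inv (a i) j ⟨π i v, hD.mem i v⟩ : V i) : E) = π i v := by
      intro j
      rw [ha]
      show (((a i j) ((a i j).symm _) : V i) : E) = _
      rw [LinearEquiv.apply_symm_apply]
    exact tendsto_const_nhds.congr fun j => (h1 j).symm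

theorem AA_le_att (hD : Dec V π) (g : ℕ → E ≃ₗ[ℝ] E) (a : ∀ i, ℕ → V i ≃ₗ[ℝ] V i)
    (ha : ∀ i j (v : V i), g j (v : E) = (a i j v : E)) (I : Finset ι)
    (hatt : ∀ i ∈ I, big (a i) ≤ att (a i)) :
    AA π I (fun i => (big (a i)).map (V i).subtype) ≤ att g := by
  intro v hv
  rw [← hD.sum v]
  refine Submodule.sum_mem _ fun i _ => ?_
  by_cases hi : i ∈ I
  · obtain ⟨u, hu', huv⟩ := hv.1 i hi
    obtain ⟨x, hx, hu⟩ := hatt i hi hu'
    refine ⟨fun j => (x j : E), ?_, ?_⟩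
    · exact (continuous_subtype_val.tendsto (0 : V i)).comp hx
    · have h1 := (continuous_subtype_val.tendsto u).comp hu
      rw [show (u : E) = π i v from huv] at h1
      exact h1.congr fun j => (ha i j (x j)).symm
  · rw [hv.2 i hi]
    exact Submodule.zero_mem _

theorem tau_bdd (hD : Dec V π) (g : ℕ → E ≃ₗ[ℝ] E) (a : ∀ i, ℕ → V i ≃ₗ[ℝ] V i)
    (ha : ∀ i j (v : V i), g j (v : E) = (a i j v : E)) (I : Finset ι)
    (hb : ∀ i ∉ I, Bd (a i)) : ∃ C : ℝ, 0 ≤ C ∧ ∀ j v, ‖tau π I (g j v)‖ ≤ C * ‖v‖ := by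
  choose! C hC0 hC using hb
  have hinv : ∀ j i, ∀ v ∈ V i, (g j : E →ₗ[ℝ] E) v ∈ V i := by
    intro j i v hv
    have h1 := ha i j ⟨v, hv⟩
    show g j v ∈ V i
    have h2 : g j v = (a i j ⟨v, hv⟩ : E) := h1
    rw [h2]
    exact Subtype.prop _
  refine ⟨∑ i ∈ Iᶜ, C i * ‖LinearMap.toContinuousLinearMap (π i)‖,
    Finset.sum_nonneg fun i hi => mul_nonneg (hC0 i (Finset.mem_compl.1 hi)) (norm_nonneg _), ?_⟩
  intro j v
  have h1 := tau_comm hD I (g j : E →ₗ[ℝ] E) (hinv j) v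
  have h2 : tau π I (g j v) = g j (tau π I v) := h1
  rw [h2, tau_apply, map_sum, Finset.sum_mul]
  refine (norm_sum_le _ _).trans (Finset.sum_le_sum fun i hi => ?_)
  have h3 : g j (π i v) = (a i j ⟨π i v, hD.mem i v⟩ : E) := ha i j ⟨π i v, hD.mem i v⟩
  rw [h3]
  have h4 := hC i (Finset.mem_compl.1 hi) j ⟨π i v, hD.mem i v⟩
  have h5 : ‖π i v‖ ≤ ‖LinearMap.toContinuousLinearMap (π i)‖ * ‖v‖ :=
    (LinearMap.toContinuousLinearMap (π i)).le_opNorm v
  calc ‖((a i j ⟨π i v, hD.mem i v⟩ : V i) : E)‖ ≤ C i * ‖π i v‖ := h4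
    _ ≤ C i * (‖LinearMap.toContinuousLinearMap (π i)‖ * ‖v‖) :=
      mul_le_mul_of_nonneg_left h5 (hC0 i (Finset.mem_compl.1 hi))
    _ = _ := by ring

end limits

section norms
variable {V : Type} [NormedAddCommGroup V] [NormedSpace ℝ V] [FiniteDimensional ℝ V]

theorem not_div_of_bd {a : ℕ → V ≃ₗ[ℝ] V} (h : Bd a) : ¬ Div a := by
  rintro ⟨v, hv, hlim⟩
  obtain ⟨C, hC, h⟩ := h
  obtain ⟨j, hj⟩ := (hlim.eventually_gt_atTop C).exists
  have h1 := h j (v j)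
  have h2 : C * ‖v j‖ ≤ C * 1 := mul_le_mul_of_nonneg_left (hv j) hC
  linarith

theorem div_norm {a : ℕ → V ≃ₗ[ℝ] V} (h : Div a) : Tendsto (fun j => ‖cl (a j)‖) atTop atTop := by
  obtain ⟨v, hv, hlim⟩ := h
  refine tendsto_atTop_mono (fun j => ?_) hlim
  have h1 : ‖a j (v j)‖ ≤ ‖cl (a j)‖ * ‖v j‖ := (cl (a j)).le_opNorm (v j)
  have h2 : ‖cl (a j)‖ * ‖v j‖ ≤ ‖cl (a j)‖ * 1 := mul_le_mul_of_nonneg_left (hv j) (norm_nonneg _)
  linarith

theorem cl_pos (h : 0 < Module.finrank ℝ V) (a : V ≃ₗ[ℝ] V) : 0 < ‖cl a‖ := by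
  have : Nontrivial V := Module.finrank_pos_iff.1 h
  obtain ⟨v, hv⟩ := exists_ne (0 : V)
  have h1 : ‖a v‖ ≤ ‖cl a‖ * ‖v‖ := (cl a).le_opNorm v
  have h2 : 0 < ‖a v‖ := norm_pos_iff.2 ((LinearEquiv.map_ne_zero_iff a).2 hv)
  by_contra hcon
  push Not at hcon
  have h3 : ‖cl a‖ = 0 := le_antisymm hcon (norm_nonneg _)
  rw [h3, zero_mul] at h1
  linarith

end norms

section seq
variable {X Γ E : Type} [NormedAddCommGroup E] [NormedSpace ℝ E]
    [FiniteDimensional ℝ E] [TopologicalSpace X] [T2Space X] [SecondCountableTopology X]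
    [Group Γ] [MulAction Γ X] {dev : X → E} {hol : Γ →* (E ≃ᵃ[ℝ] E)}

/-- approximation of boundary points -/
theorem good_seq' (D : AffData X Γ E dev hol) (hinj : Function.Injective dev) {p : E}
    (hp : p ∈ closure (range dev)) (hpΩ : p ∉ range dev) :
    ∃ (r : ℝ) (x : ℕ → E) (γ : ℕ → Γ) (c : ℕ → E) (M : ℝ), 0 < r ∧ Tendsto x atTop (𝓝 p) ∧
      (∀ j, ‖c j‖ ≤ M) ∧ (∀ j, hol (γ j) (c j) = x j) ∧
      (∀ j w, ‖w‖ ≤ r → x j + (hol (γ j)).linear w ∈ range dev) ∧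
      ∀ (φ : ℕ → ℕ) (w : ℕ → E) (v : E), StrictMono φ → (∀ j, ‖w j‖ ≤ r) →
        Tendsto (fun j => (hol (γ (φ j))).linear (w j)) atTop (𝓝 v) → p + v ∉ range dev := by
  have : ProperSpace E := FiniteDimensional.proper_real E
  set Ω : Set E := range dev with hΩdef
  have hΩ : IsOpen Ω := D.loc.isOpenMap.isOpen_range
  have hinv := range_inv D
  have hpd := range_pd D hinj
  obtain ⟨C0, hC0, hC0Ω, hcc⟩ := range_cc D
  obtain ⟨M, hM⟩ := hC0.isBounded.exists_norm_le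
  obtain ⟨r, hr, hrΩ⟩ := hC0.exists_cthickening_subset_open hΩ hC0Ω
  obtain ⟨a, haΩ, ha⟩ := mem_closure_iff_seq_limit.1 hp
  choose γ c hc hγc using fun k => hcc (a k) (haΩ k)
  have hC1 : IsCompact (cthickening r C0) := hC0.cthickening
  have hin : ∀ k (w : E), ‖w‖ ≤ r → c k + w ∈ cthickening r C0 := by
    intro k w hw
    refine mem_cthickening_of_dist_le _ _ _ _ (hc k) ?_
    rw [dist_eq_norm, add_sub_cancel_left]; exact hw
  have hmove : ∀ k (w : E), hol (γ k) (c k + w) = a k + (hol (γ k)).linear w := by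
    intro k w
    rw [hol_add, hγc k]
  have claim1 : ∀ q ∈ Ω, ∃ ε > 0, ∀ᶠ k in atTop, ∀ w : E, ‖w‖ ≤ r →
      a k + (hol (γ k)).linear w ∉ closedBall q ε := by
    intro q hq
    obtain ⟨ε, hε, hεΩ⟩ := Metric.nhds_basis_closedBall.mem_iff.1 (hΩ.mem_nhds hq)
    refine ⟨ε, hε, ?_⟩
    have hC : IsCompact (cthickening r C0 ∪ closedBall q ε) := hC1.union (isCompact_closedBall _ _)
    have hCΩ : cthickening r C0 ∪ closedBall q ε ⊆ Ω := union_subset hrΩ hεΩ
    have hF := hpd _ hC hCΩ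
    set G := {γ : Γ | ∃ c ∈ cthickening r C0 ∪ closedBall q ε,
      hol γ c ∈ cthickening r C0 ∪ closedBall q ε} with hFdef
    have hT : IsCompact (⋃ g ∈ G, hol g '' C0) :=
      hF.isCompact_biUnion fun g _ => hC0.image (hol_cont g)
    have hpT : p ∉ ⋃ g ∈ G, hol g '' C0 := by
      intro hcon
      obtain ⟨g, _, hcon⟩ := mem_iUnion₂.1 hcon
      obtain ⟨c', hc', rfl⟩ := hcon
      exact hpΩ (hinv g c' (hC0Ω hc'))
    have hev : ∀ᶠ k in atTop, a k ∉ ⋃ g ∈ G, hol g '' C0 :=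
      ha.eventually (hT.isClosed.isOpen_compl.mem_nhds hpT)
    filter_upwards [hev] with k hk w hw hcon
    apply hk
    refine mem_iUnion₂.2 ⟨γ k, ?_, c k, hc k, hγc k⟩
    refine ⟨c k + w, Or.inl (hin k w hw), Or.inr ?_⟩
    rw [hmove]; exact hcon
  refine ⟨r, a, γ, c, M, hr, ha, fun j => hM _ (hc j), hγc, ?_, ?_⟩
  · intro j w hw
    rw [← hmove]
    exact hinv _ _ (hrΩ (hin j w hw))
  · intro φ w v hφ hw hv hq
    obtain ⟨ε, hε, hev⟩ := claim1 _ hq
    have h1 : Tendsto (fun k => a (φ k) + (hol (γ (φ k))).linear (w k)) atTop (𝓝 (p + v)) :=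
      (ha.comp hφ.tendsto_atTop).add hv
    obtain ⟨k, hk1, hk2⟩ := ((h1.eventually (closedBall_mem_nhds _ hε)).and
      (hφ.tendsto_atTop.eventually hev)).exists
    exact hk2 (w k) (hw k) hk1

/-- the stabilizer of a subspace -/
def stabK (hol : Γ →* (E ≃ᵃ[ℝ] E)) (K : Submodule ℝ E) : Subgroup Γ where
  carrier := {γ | ∀ v, v ∈ K ↔ (hol γ).linear v ∈ K}
  one_mem' := by
    intro v
    rw [map_one]
    exact Iff.rfl
  mul_mem' := by
    intro a b ha hb v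
    rw [lin_mul]
    exact (hb v).trans (ha _)
  inv_mem' := by
    intro a ha v
    have h1 := ha ((hol a⁻¹).linear v)
    rw [lin_inv'] at h1
    exact h1.symm

theorem mem_stab {W : Submodule ℝ E} (hW : ∀ γ, ∀ v ∈ W, (hol γ).linear v ∈ W)
    (K : Submodule ℝ W) (γ : Γ) :
    γ ∈ stabK hol (K.map W.subtype) ↔ ∀ v : W, v ∈ K ↔ restr hol W hW γ v ∈ K := by
  have hK : ∀ v : W, (v : E) ∈ K.map W.subtype ↔ v ∈ K := by
    intro v
    constructor
    · rintro ⟨u, hu, h⟩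
      have : u = v := Subtype.ext h
      exact this ▸ hu
    · intro h
      exact ⟨v, h, rfl⟩
  constructor
  · intro h v
    have h1 := h v
    rw [hK] at h1
    rw [h1, ← hK]
    rfl
  · intro h v
    constructor
    · rintro ⟨u, hu, rfl⟩
      have h1 := (h u).1 hu
      rw [← hK] at h1
      exact h1
    · rintro ⟨u, hu, huv⟩
      have hv : v ∈ W := by
        have h1 := hW γ⁻¹ u u.2
        have h2 : (hol γ⁻¹).linear (u : E) = v := by
          have h3 : (u : E) = (hol γ).linear v := huv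
          rw [h3, lin_inv]
        rwa [h2] at h1
      have h1 := (h ⟨v, hv⟩).2 (by
        have : restr hol W hW γ ⟨v, hv⟩ = u := Subtype.ext huv.symm
        rw [this]
        exact hu)
      exact ⟨_, h1, rfl⟩

end seq

end Pool.Agent.N520.AN
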