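import Pool.Agent.N520.AN.PR4

/-!
Project AN, fifth part: products. Main theorem.
-/

set_option autoImplicit false
set_option linter.unusedSectionVars false

open Set Filter Topology Metric
open Pool.Agent.W689.Mk Pool.Agent.TH94.MK Pool.Agent.R522.Mk.Rk
open Pool.Agent.N507.AN2.IM

namespace Pool.Agent.N520.AN

section main
variable {X Γ E : Type} [NormedAddCommGroup E] [NormedSpace ℝ E]
    [FiniteDimensional ℝ E] [TopologicalSpace X] [T2Space X] [SecondCountableTopology X]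
    [ConnectedSpace X] [Group Γ] [MulAction Γ X] {dev : X → E} {hol : Γ →* (E ≃ᵃ[ℝ] E)}

/-- elements fixing three plates and growth are incompatible -/
theorem growth_contra {W : Submodule ℝ E} (hW : ∀ γ, ∀ v ∈ W, (hol γ).linear v ∈ W) {q : ℕ}
    (hΛ : Anti q (LinOn hol ⊤ W)) (g : ℕ → W ≃ₗ[ℝ] W) (hg : ∀ j, g j ∈ LinOn hol ⊤ W)
    (hfl : Fl q g)
    (hno : ∀ H' : Subgroup Γ, H'.FiniteIndex → ∃ γ ∈ H', ∃ v ∈ big g, restr hol W hW γ v ∉ big g)
    (γ : ℕ → Γ)
    (hi : ∀ (a b : Γ) (C : ℝ), ∃ k l, C * ‖cl (restr hol W hW (γ k))‖ <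
      ‖cl (restr hol W hW (γ l))‖ ∧ (γ l * (γ k)⁻¹) ∈ stabK hol ((big g).map W.subtype) ∧
      a⁻¹ * (γ l * (γ k)⁻¹) * a ∈ stabK hol ((big g).map W.subtype) ∧
      b⁻¹ * (γ l * (γ k)⁻¹) * b ∈ stabK hol ((big g).map W.subtype)) : False := by
  set B := restr hol W hW with hB
  set S := stabK hol ((big g).map W.subtype) with hS
  have hBm : ∀ γ, B γ ∈ LinOn hol ⊤ W := fun γ => ⟨γ, trivial, fun v => rfl⟩
  have hmem : ∀ γ, γ ∈ S ↔ ∀ v : W, v ∈ big g ↔ B γ v ∈ big g := fun γ => mem_stab hW (big g) γ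
  have hnf : ¬ S.FiniteIndex := by
    intro h
    obtain ⟨γ, hγ, v, hv, hv'⟩ := hno S h
    exact hv' (((hmem γ).1 hγ v).1 hv)
  obtain ⟨a, b, ha, hb, hab⟩ := three_cosets S hnf
  obtain ⟨k1, hk1n, hk1⟩ := p_par W q (big g) hfl.2
  have hP1 : k1 ∈ Plt q (LinOn hol ⊤ W) := ⟨hk1n, g, hg, hfl, hk1⟩
  obtain ⟨k2, hP2, hk2⟩ := p_im W q _ hΛ (B a) (hBm a) k1 hP1
  obtain ⟨k3, hP3, hk3⟩ := p_im W q _ hΛ (B b) (hBm b) k1 hP1
  have hsymm : ∀ (c : Γ) (v : W), (B c).symm v = B c⁻¹ v := by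
    intro c v
    rw [map_inv]
    rfl
  have hmul : ∀ (c d : Γ) (v : W), B (c * d) v = B c (B d v) := by
    intro c d v
    rw [map_mul]
    rfl
  have hcc : ∀ (c : Γ) (v : W), B c⁻¹ (B c v) = v := by
    intro c v
    rw [← hmul, inv_mul_cancel, map_one]
    rfl
  have hcc' : ∀ (c : Γ) (v : W), B c (B c⁻¹ v) = v := by
    intro c v
    rw [← hmul, mul_inv_cancel, map_one]
    rfl
  have hk2' : ∀ u, u ∈ range k2 ↔ B a⁻¹ u ∈ big g := by
    intro u
    rw [hk2, hk1, hsymm]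
  have hk3' : ∀ u, u ∈ range k3 ↔ B b⁻¹ u ∈ big g := by
    intro u
    rw [hk3, hk1, hsymm]
  have h12 : range k1 ≠ range k2 := by
    intro h
    apply ha
    rw [hmem]
    intro v
    have h1 := hk2' (B a v)
    rw [← h, hk1, hcc] at h1
    exact h1.symm
  have h13 : range k1 ≠ range k3 := by
    intro h
    apply hb
    rw [hmem]
    intro v
    have h1 := hk3' (B b v)
    rw [← h, hk1, hcc] at h1
    exact h1.symm
  have h23 : range k2 ≠ range k3 := by
    intro h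
    apply hab
    rw [hmem]
    intro v
    have h1 := hk3' (B b v)
    rw [← h, hk2', hcc] at h1
    rw [hmul]
    exact h1.symm
  obtain ⟨C, hC⟩ := p_three W q _ hΛ k1 hP1 k2 hP2 k3 hP3 h12 h23 h13
  obtain ⟨k, l, hlt, x1, x2, x3⟩ := hi a b |C|
  set x := γ l * (γ k)⁻¹ with hx
  have hgen : ∀ (c : Γ), c⁻¹ * x * c ∈ S → ∀ u : W, B c⁻¹ u ∈ big g ↔
      B c⁻¹ ((B x).symm u) ∈ big g := by
    intro c hc u
    have h1 := (hmem _).1 hc (B c⁻¹ (B x⁻¹ u))
    rw [hmul, hmul, hcc', hcc'] at h1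
    rw [hsymm]
    exact h1.symm
  have hbd := hC (B x) (hBm x) (by
      intro u
      rw [hk1, hk1, hsymm]
      have h1 := (hmem _).1 x1 (B x⁻¹ u)
      rw [hcc'] at h1
      exact h1.symm) (by
      intro u
      rw [hk2', hk2']
      exact hgen a x2 u) (by
      intro u
      rw [hk3', hk3']
      exact hgen b x3 u)
  have h1 : ‖cl (B (γ l))‖ ≤ |C| * ‖cl (B (γ k))‖ := by
    refine ContinuousLinearMap.opNorm_le_bound _ (by positivity) fun v => ?_
    have h2 : cl (B (γ l)) v = B x (B (γ k) v) := by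
      rw [cl_apply, ← hmul, hx, inv_mul_cancel_right]
    rw [h2]
    calc ‖B x (B (γ k) v)‖ ≤ C * ‖B (γ k) v‖ := hbd _
      _ ≤ |C| * ‖B (γ k) v‖ := mul_le_mul_of_nonneg_right (le_abs_self _) (norm_nonneg _)
      _ ≤ |C| * (‖cl (B (γ k))‖ * ‖v‖) :=
        mul_le_mul_of_nonneg_left ((cl (B (γ k))).le_opNorm v) (abs_nonneg _)
      _ = _ := by ring
  exact absurd hlt (not_lt.2 h1)

/-- products, for the whole group -/
theorem prod0 (D : AffData X Γ E dev hol) (hinj : Function.Injective dev) {ι : Type} [Fintype ι]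
    [DecidableEq ι] (V : ι → Submodule ℝ E) (π : ι → E →ₗ[ℝ] E) (hD : Dec V π)
    (hinv : ∀ i γ, ∀ v ∈ V i, (hol γ).linear v ∈ V i) (q : ι → ℕ)
    (hcond : ∀ i, (∃ C : ℝ, ∀ γ, ∀ v ∈ V i, ‖(hol γ).linear v‖ ≤ C * ‖v‖) ∨
      (Anti (q i) (LinOn hol ⊤ (V i)) ∧ Module.finrank ℝ (V i) = 2 * q i ∧
        ∀ g : ℕ → V i ≃ₗ[ℝ] V i, (∀ j, g j ∈ LinOn hol ⊤ (V i)) → Fl (q i) g →
          ∀ H' : Subgroup Γ, H'.FiniteIndex →
            ∃ γ ∈ H', ∃ v ∈ big g, restr hol (V i) (hinv i) γ v ∉ big g)) :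
    IsHomeomorph dev := by
  classical
  by_cases hbd : ∃ p, p ∈ closure (range dev) ∧ p ∉ range dev
  swap
  · push Not at hbd
    have h1 : IsClosed (range dev) := closure_subset_iff_isClosed.1 fun p hp => hbd p hp
    have h2 : IsClopen (range dev) := ⟨h1, D.loc.isOpenMap.isOpen_range⟩
    have h3 : range dev = univ := h2.eq_univ (range_nonempty dev)
    exact convex_complete D hinj (by rw [h3]; exact convex_univ)
  exfalso
  obtain ⟨p, hp, hp'⟩ := hbd
  obtain ⟨r, x, γ, c, M, hr, hx, hc, hγc, hin, hout⟩ := good_seq' D hinj hp hp'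
  set B := fun i => restr hol (V i) (hinv i) with hB
  have hBm : ∀ i γ, B i γ ∈ LinOn hol ⊤ (V i) := fun i γ => ⟨γ, trivial, fun v => rfl⟩
  -- subsequence
  have hbt : ∀ i, (∃ C : ℝ, ∀ γ, ∀ v ∈ V i, ‖(hol γ).linear v‖ ≤ C * ‖v‖) →
      ∀ s : ℕ → Γ, Bd (fun j => B i (s j)) := by
    rintro i ⟨C, hC⟩ s
    refine ⟨|C|, abs_nonneg _, fun j v => ?_⟩
    have h1 := hC (s j) v v.2
    exact h1.trans (mul_le_mul_of_nonneg_right (le_abs_self C) (norm_nonneg _))
  have hinvs : ∀ i (s : ℕ → Γ), inv (fun j => B i (s j)) = fun j => B i (s j)⁻¹ := by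
    intro i s
    funext j
    rw [map_inv]
    rfl
  obtain ⟨φ, hφ, hAlt⟩ := fin_sub (fun i φ => Alt (q i) (fun j => B i (γ (φ j)))) (by
      intro i φ ψ hφ hψ h
      rcases hcond i with hb | ⟨hA, -, -⟩
      · left
        rw [hinvs]
        exact ⟨hbt i hb _, hbt i hb _⟩
      · exact alt_sub hA _ (fun j => hBm i _) h hψ) (by
      intro i φ hφ
      rcases hcond i with hb | ⟨hA, -, -⟩
      · refine ⟨id, strictMono_id, ?_⟩
        left
        rw [hinvs]
        exact ⟨hbt i hb _, hbt i hb _⟩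
      · exact alt_ex hA (fun j => B i (γ (φ j))) (fun j => hBm i _))
  set s : ℕ → Γ := fun j => γ (φ j) with hs
  set a : ∀ i, ℕ → V i ≃ₗ[ℝ] V i := fun i j => B i (s j) with ha
  set g : ℕ → E ≃ₗ[ℝ] E := fun j => (hol (s j)).linear with hg
  have hga : ∀ i j (v : V i), g j (v : E) = (a i j v : E) := fun i j v => rfl
  set I : Finset ι := Finset.univ.filter fun i => Div (a i) with hI
  have hmemI : ∀ i, i ∈ I ↔ Div (a i) := fun i => by rw [hI]; simp
  have hIfl : ∀ i ∈ I, Fl (q i) (a i) := by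
    intro i hi
    rcases hAlt i with h | h
    · exact absurd ((hmemI i).1 hi) (not_div_of_bd h.1)
    · exact h.1
  have hIA : ∀ i ∈ I, (Anti (q i) (LinOn hol ⊤ (V i)) ∧ Module.finrank ℝ (V i) = 2 * q i ∧
        ∀ g : ℕ → V i ≃ₗ[ℝ] V i, (∀ j, g j ∈ LinOn hol ⊤ (V i)) → Fl (q i) g →
          ∀ H' : Subgroup Γ, H'.FiniteIndex →
            ∃ γ ∈ H', ∃ v ∈ big g, restr hol (V i) (hinv i) γ v ∉ big g) := by
    intro i hi
    rcases hcond i with h | h
    · exact absurd ((hmemI i).1 hi) (not_div_of_bd (hbt i h s))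
    · exact h
  have hJ : ∀ i ∉ I, Bd (a i) ∧ Bd (inv (a i)) := by
    intro i hi
    rcases hAlt i with h | h
    · exact h
    · exact absurd ((hmemI i).2 h.2) hi
  set K : ι → Submodule ℝ E := fun i => (big (a i)).map (V i).subtype with hK
  have hKV : ∀ i, K i ≤ V i := fun i => Submodule.map_subtype_le _ _
  -- the sides
  have hN := NN_le_big hD g a hga I fun i hi => (hJ i hi).2
  have hAt := AA_le_att hD g a hga I fun i hi => by
    rw [att_eq_big (hIA i hi).2.1 (hIfl i hi)]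
  obtain ⟨ρ, hρ, hs1, hs2⟩ := sides (Ω := range dev) (p := p) (x := fun j => x (φ j)) (g := g) hr
    (hx.comp hφ.tendsto_atTop) (fun j w hw => hin _ w hw)
    (fun ψ w v hψ hw hv => hout (φ ∘ ψ) w v (hφ.comp hψ) hw hv) (NN π I K) hN
  -- the projection
  set τ := tau π I with hτ
  have hτc : ∀ γ v, τ ((hol γ).linear v) = (hol γ).linear (τ v) := fun γ v =>
    tau_comm hD I ((hol γ).linear : E →ₗ[ℝ] E) (fun i v hv => hinv i γ v hv) v
  have hτi : ∀ v, τ (τ v) = τ v := tau_idem hD I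
  let L : Γ → (E →L[ℝ] E) := fun γ =>
    LinearMap.toContinuousLinearMap (τ ∘ₗ ((hol γ).linear : E →ₗ[ℝ] E))
  have hL : ∀ γ v, L γ v = τ ((hol γ).linear v) := fun γ v => rfl
  let T : Γ → E := fun γ => τ (hol γ 0)
  have hT : ∀ γ, T γ = τ (hol γ 0) := fun γ => rfl
  have hhol0 : ∀ γ v, hol γ v = hol γ 0 + (hol γ).linear v := by
    intro γ v
    have := hol_add (hol := hol) γ 0 v
    rw [zero_add] at this
    exact this
  have hLmul : ∀ a b, L (a * b) = (L a).comp (L b) := by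
    intro a b
    ext v
    show τ ((hol (a * b)).linear v) = τ ((hol a).linear (τ ((hol b).linear v)))
    rw [lin_mul, ← hτc, hτi]
  have hTmul : ∀ a b, T (a * b) = T a + L a (T b) := by
    intro a b
    show τ (hol (a * b) 0) = τ (hol a 0) + τ ((hol a).linear (τ (hol b 0)))
    have h1 : hol (a * b) 0 = hol a (hol b 0) := by
      rw [map_mul]
      rfl
    rw [h1, hhol0 a (hol b 0), map_add, ← hτc, hτi]
  have hprop : ProperSpace E := FiniteDimensional.proper_real E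
  have hprop2 : ProperSpace (E →L[ℝ] E) := FiniteDimensional.proper_real (E →L[ℝ] E)
  -- boundedness
  obtain ⟨C1, hC1, hb1⟩ := tau_bdd hD g a hga I fun i hi => (hJ i hi).1
  obtain ⟨C2, hC2, hb2⟩ := tau_bdd hD (fun j => (hol (s j)⁻¹).linear) (fun i j => B i (s j)⁻¹)
    (fun i j v => rfl) I fun i hi => by
      rw [← hinvs]
      exact (hJ i hi).2
  obtain ⟨M2, hM2⟩ := ((isBounded_range_of_tendsto _ hx)).exists_norm_le
  have hxM : ∀ j, ‖x j‖ ≤ M2 := fun j => hM2 _ ⟨j, rfl⟩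
  set τn := ‖LinearMap.toContinuousLinearMap τ‖ with hτn
  have hτb : ∀ v, ‖τ v‖ ≤ τn * ‖v‖ := fun v => (LinearMap.toContinuousLinearMap τ).le_opNorm v
  have hM0 : 0 ≤ M := (norm_nonneg _).trans (hc 0)
  have hM20 : 0 ≤ M2 := (norm_nonneg _).trans (hxM 0)
  obtain ⟨i, hi⟩ := ultra2 (Z := (E →L[ℝ] E) × E) (fun z w => (z.1.comp w.1, z.2 + z.1 w.2))
    (by fun_prop) (fun γ => (L γ, T γ)) (fun a b => Prod.ext (hLmul a b) (hTmul a b)) s
    (by
      refine isBounded_iff_forall_norm_le.2 ⟨max C1 (τn * M2 + C1 * M), ?_⟩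
      rintro _ ⟨j, rfl⟩
      refine norm_prod_le_iff.2 ⟨?_, ?_⟩
      · refine le_max_of_le_left ?_
        exact ContinuousLinearMap.opNorm_le_bound _ hC1 fun v => hb1 j v
      · refine le_max_of_le_right ?_
        have h1 : hol (s j) 0 = x (φ j) - (hol (s j)).linear (c (φ j)) := by
          have h2 : hol (s j) (c (φ j)) = x (φ j) := hγc (φ j)
          rw [hhol0] at h2
          rw [← h2]
          abel
        show ‖τ (hol (s j) 0)‖ ≤ _
        rw [h1, map_sub]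
        refine (norm_sub_le _ _).trans (add_le_add ?_ ?_)
        · exact (hτb _).trans (mul_le_mul_of_nonneg_left (hxM _) (norm_nonneg _))
        · exact (hb1 j _).trans (mul_le_mul_of_nonneg_left (hc _) hC1))
    (by
      refine isBounded_iff_forall_norm_le.2 ⟨max C2 (τn * M + C2 * M2), ?_⟩
      rintro _ ⟨j, rfl⟩
      refine norm_prod_le_iff.2 ⟨?_, ?_⟩
      · refine le_max_of_le_left ?_
        exact ContinuousLinearMap.opNorm_le_bound _ hC2 fun v => hb2 j v
      · refine le_max_of_le_right ?_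
        have h1 : hol (s j)⁻¹ 0 = c (φ j) - (hol (s j)⁻¹).linear (x (φ j)) := by
          have h2 : hol (s j) (c (φ j)) = x (φ j) := hγc (φ j)
          have h3 : hol (s j)⁻¹ (x (φ j)) = c (φ j) := by
            rw [← h2, hol_inv_apply]
          rw [hhol0] at h3
          rw [← h3]
          abel
        show ‖τ (hol (s j)⁻¹ 0)‖ ≤ _
        rw [h1, map_sub]
        refine (norm_sub_le _ _).trans (add_le_add ?_ ?_)
        · exact (hτb _).trans (mul_le_mul_of_nonneg_left (hc _) (norm_nonneg _))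
        · exact (hb2 j _).trans (mul_le_mul_of_nonneg_left (hxM _) hC2))
    (ι := {i // i ∈ I}) (fun i => stabK hol (K i))
    {z | ‖z.1 p + z.2 - τ p‖ < ρ}
    (by
      have hcont : Continuous fun z : (E →L[ℝ] E) × E => ‖z.1 p + z.2 - τ p‖ := by fun_prop
      refine (isOpen_lt hcont continuous_const).mem_nhds ?_
      show ‖τ ((hol 1).linear p) + τ (hol 1 0) - τ p‖ < ρ
      rw [map_one]
      show ‖τ p + τ 0 - τ p‖ < ρ
      rw [map_zero, add_zero, sub_self, norm_zero]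
      exact hρ)
    (by
      intro b hb
      by_contra hcon
      push Not at hcon
      refine one_fixed hD hKV hρ (fun a ha => hs1 a (hAt ha)) (fun a ha => hs2 a (hAt ha)) (hol b)
        (range_inv D b) ?_ ?_
      · intro i hi v hv
        rcases tr (hIA i hi).1 (hIA i hi).2.1 (a i) (fun j => hBm i _) (hIfl i hi) (hBm i b)
          with h | h
        · exact absurd ((mem_stab (hinv i) (big (a i)) b).2 h) (hcon ⟨i, hi⟩)
        · obtain ⟨k, hk, k', hk', hkk⟩ := h ⟨v, hv⟩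
          exact ⟨k, ⟨k, hk, rfl⟩, k', ⟨k', hk', rfl⟩, congrArg Subtype.val hkk⟩
      · have h1 : ‖τ ((hol b).linear p) + τ (hol b 0) - τ p‖ < ρ := hb
        rw [map_sub, hhol0 b p, map_add, add_comm (τ (hol b 0))]
        exact h1)
    (fun i j => ‖cl (a i j)‖) (fun i => div_norm ((hmemI i).1 i.2))
    (fun i j => cl_pos (by
      have h1 := (hIA i i.2).2.1
      have h2 := (hIA i i.2).1.pos
      omega) _)
  exact growth_contra (hinv i) (hIA i i.2).1 (a i) (fun j => hBm i _) (hIfl i i.2)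
    ((hIA i i.2).2.2 (a i) (fun j => hBm i _) (hIfl i i.2)) s hi

end main

end Pool.Agent.N520.AN
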