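import Pool.Agent.N520.AN.PR5

/-!
Project AN, fifth part: products. Subgroups of finite index and planes.
-/

set_option autoImplicit false
set_option linter.unusedSectionVars false

open Set Filter Topology Metric
open Pool.Agent.W689.Mk Pool.Agent.TH94.MK Pool.Agent.R522.Mk.Rk
open Pool.Agent.N507.AN2.IM

namespace Pool.Agent.N520.AN

/-- bounded, or antipodal without middle and non-elementary -/
def Fac {Γ E : Type} [Group Γ] [NormedAddCommGroup E] [NormedSpace ℝ E]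
    (hol : Γ →* (E ≃ᵃ[ℝ] E)) (H : Subgroup Γ) (V : Submodule ℝ E) : Prop :=
  (∃ C : ℝ, ∀ γ ∈ H, ∀ v ∈ V, ‖(hol γ).linear v‖ ≤ C * ‖v‖) ∨
  ∃ q : ℕ, Anti q (LinOn hol H V) ∧ Module.finrank ℝ V = 2 * q ∧
    ∀ g : ℕ → V ≃ₗ[ℝ] V, (∀ j, g j ∈ LinOn hol H V) → Fl q g → ∀ H' : Subgroup Γ,
      H'.FiniteIndex → H' ≤ H → ∃ A ∈ LinOn hol H' V, ∃ v ∈ big g, A v ∉ big g

section main
variable {X Γ E : Type} [NormedAddCommGroup E] [NormedSpace ℝ E]
    [FiniteDimensional ℝ E] [TopologicalSpace X] [T2Space X] [SecondCountableTopology X]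
    [ConnectedSpace X] [Group Γ] [MulAction Γ X] {dev : X → E} {hol : Γ →* (E ≃ᵃ[ℝ] E)}

/-- planes without virtually invariant lines -/
theorem fac_plane (H : Subgroup Γ) {V : Submodule ℝ E}
    (h2 : Module.finrank ℝ V = 2)
    (hdet : ∀ A ∈ LinOn hol H V, |LinearMap.det (A : V →ₗ[ℝ] V)| = 1)
    (hinv : ∀ γ ∈ H, ∀ v ∈ V, (hol γ).linear v ∈ V)
    (hno : ∀ H' : Subgroup Γ, H'.FiniteIndex → H' ≤ H → ∀ l : Submodule ℝ E, l ≤ V →
      Module.finrank ℝ l = 1 → ∃ γ ∈ H', ∃ v ∈ l, (hol γ).linear v ∉ l) : Fac hol H V := by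
  right
  refine ⟨1, p_pl V h2 _ hdet, by omega, ?_⟩
  intro g hg hfl H' hH' hle
  obtain ⟨γ, hγ, v, hv, hv'⟩ := hno H' hH' hle ((big g).map V.subtype)
    (Submodule.map_subtype_le _ _) (by
      rw [Submodule.finrank_map_subtype_eq]
      have := hfl.2
      omega)
  obtain ⟨u, hu, rfl⟩ := hv
  refine ⟨restr (hol.comp H.subtype) V (fun γ v hv => hinv γ γ.2 v hv) ⟨γ, hle hγ⟩,
    ⟨γ, hγ, fun v => rfl⟩, u, hu, ?_⟩
  intro h
  exact hv' ⟨_, h, rfl⟩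

end main

/-- products -/
theorem prod_complete (X Γ E : Type) [NormedAddCommGroup E] [NormedSpace ℝ E]
    [FiniteDimensional ℝ E] [TopologicalSpace X] [T2Space X] [SecondCountableTopology X]
    [ConnectedSpace X] [Group Γ] [MulAction Γ X] (dev : X → E) (hol : Γ →* (E ≃ᵃ[ℝ] E))
    (D : AffData X Γ E dev hol) (hinj : Function.Injective dev) (H : Subgroup Γ)
    (hH : H.FiniteIndex) (ι : Type) [Fintype ι] [DecidableEq ι] (V : ι → Submodule ℝ E)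
    (hV : DirectSum.IsInternal V) (hinv : ∀ i, ∀ γ ∈ H, ∀ v ∈ V i, (hol γ).linear v ∈ V i)
    (hF : ∀ i, Fac hol H (V i)) : IsHomeomorph dev := by
  classical
  obtain ⟨π, hπ⟩ := dec_ex V hV
  have hL : ∀ i, LinOn (hol.comp H.subtype) ⊤ (V i) = LinOn hol H (V i) := by
    intro i
    ext A
    constructor
    · rintro ⟨γ, -, hA⟩
      exact ⟨γ, γ.2, hA⟩
    · rintro ⟨γ, hγ, hA⟩
      exact ⟨⟨γ, hγ⟩, trivial, hA⟩
  have hch : ∀ i, ∃ q : ℕ, (∃ C : ℝ, ∀ γ ∈ H, ∀ v ∈ V i, ‖(hol γ).linear v‖ ≤ C * ‖v‖) ∨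
      (Anti q (LinOn hol H (V i)) ∧ Module.finrank ℝ (V i) = 2 * q ∧
    ∀ g : ℕ → V i ≃ₗ[ℝ] V i, (∀ j, g j ∈ LinOn hol H (V i)) → Fl q g → ∀ H' : Subgroup Γ,
      H'.FiniteIndex → H' ≤ H → ∃ A ∈ LinOn hol H' (V i), ∃ v ∈ big g, A v ∉ big g) := by
    intro i
    rcases hF i with h | ⟨q, h⟩
    · exact ⟨0, Or.inl h⟩
    · exact ⟨q, Or.inr h⟩
  choose q hq using hch
  refine prod0 (hol := hol.comp H.subtype) (Pool.Agent.Y449.MK.restrict D H hH) hinj V π hπ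
    (fun i γ => hinv i γ γ.2) q ?_
  intro i
  rcases hq i with ⟨C, hC⟩ | ⟨h1, h2, h3⟩
  · exact Or.inl ⟨C, fun γ => hC γ γ.2⟩
  · right
    refine ⟨by rw [hL]; exact h1, h2, ?_⟩
    intro g hg hfl H' hH'
    have hg' : ∀ j, g j ∈ LinOn hol H (V i) := fun j => by
      rw [← hL]
      exact hg j
    have hfi : (H'.map H.subtype).FiniteIndex := by
      constructor
      rw [Subgroup.index_map_subtype]
      exact mul_ne_zero hH'.index_ne_zero hH.index_ne_zero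
    obtain ⟨A, ⟨γ, ⟨δ, hδ, hδγ⟩, hA⟩, v, hv, hv'⟩ := h3 g hg' hfl (H'.map H.subtype) hfi (by
      rintro _ ⟨γ, -, rfl⟩
      exact γ.2)
    refine ⟨δ, hδ, v, hv, ?_⟩
    have h4 : restr (hol.comp H.subtype) (V i) (fun γ => hinv i γ γ.2) δ v = A v := by
      apply Subtype.ext
      rw [← hA, ← hδγ]
      rfl
    rw [h4]
    exact hv'

end Pool.Agent.N520.AN
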