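import Pool.Agent.N520.AN.PR6

/-!
Project AN, fifth part: products, relative version. Groups.
-/

set_option autoImplicit false
set_option linter.unusedSectionVars false

open Set Filter Topology Metric Pointwise
open Pool.Agent.N507.AN2.IM

namespace Pool.Agent.N520.AN

/-- a group is not the union of finitely many subgroups of infinite index -/
theorem avoid {G : Type} [Group G] {ι : Type} [Fintype ι] (S : ι → Subgroup G)
    (h : ∀ i, ¬ (S i).FiniteIndex) : ∃ x, ∀ i, x ∉ S i := by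
  classical
  by_contra hcon
  push Not at hcon
  have hcover : ⋃ i ∈ (Finset.univ : Finset ι), ((1 : G) • (S i : Set G)) = univ := by
    refine eq_univ_iff_forall.2 fun x => ?_
    obtain ⟨i, hi⟩ := hcon x
    refine mem_iUnion₂.2 ⟨i, Finset.mem_univ i, ?_⟩
    rw [one_smul]
    exact hi
  obtain ⟨i, -, hi⟩ := Subgroup.exists_finiteIndex_of_leftCoset_cover hcover
  exact h i hi

section
variable {Γ V : Type} [Group Γ] [NormedAddCommGroup V] [NormedSpace ℝ V] [FiniteDimensional ℝ V]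

/-- the stabilizer of a subspace -/
def stV (B : Γ →* (V ≃ₗ[ℝ] V)) (K : Submodule ℝ V) : Subgroup Γ where
  carrier := {γ | ∀ v, v ∈ K ↔ B γ v ∈ K}
  one_mem' := by
    intro v
    rw [map_one]
    exact Iff.rfl
  mul_mem' := by
    intro a b ha hb v
    have h1 : B (a * b) v = B a (B b v) := by
      rw [map_mul]
      rfl
    rw [h1]
    exact (hb v).trans (ha _)
  inv_mem' := by
    intro a ha v
    have h1 := ha (B a⁻¹ v)
    have h2 : B a (B a⁻¹ v) = v := by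
      have : B a (B a⁻¹ v) = B (a * a⁻¹) v := by
        rw [map_mul]
        rfl
      rw [this, mul_inv_cancel, map_one]
      rfl
    rw [h2] at h1
    exact h1.symm

theorem mem_stV (B : Γ →* (V ≃ₗ[ℝ] V)) (K : Submodule ℝ V) (γ : Γ) :
    γ ∈ stV B K ↔ ∀ v, v ∈ K ↔ B γ v ∈ K := Iff.rfl

variable (B : Γ →* (V ≃ₗ[ℝ] V))

theorem B_symm (c : Γ) (v : V) : (B c).symm v = B c⁻¹ v := by
  rw [map_inv]
  rfl

theorem B_mul (c d : Γ) (v : V) : B (c * d) v = B c (B d v) := by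
  rw [map_mul]
  rfl

theorem B_inv (c : Γ) (v : V) : B c⁻¹ (B c v) = v := by
  rw [← B_mul, inv_mul_cancel, map_one]
  rfl

theorem B_inv' (c : Γ) (v : V) : B c (B c⁻¹ v) = v := by
  rw [← B_mul, mul_inv_cancel, map_one]
  rfl

/-- the elements which fix three plates are bounded -/
theorem three_bdd {q : ℕ} {Λ : Subgroup (V ≃ₗ[ℝ] V)} (hΛ : Anti q Λ) (hBm : ∀ γ, B γ ∈ Λ)
    (g : ℕ → V ≃ₗ[ℝ] V) (hg : ∀ j, g j ∈ Λ) (hfl : Fl q g) (a b : Γ) (ha : a ∉ stV B (big g))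
    (hb : b ∉ stV B (big g)) (hab : a⁻¹ * b ∉ stV B (big g)) :
    ∃ C : ℝ, 0 ≤ C ∧ ∀ x, x ∈ stV B (big g) → a⁻¹ * x * a ∈ stV B (big g) →
      b⁻¹ * x * b ∈ stV B (big g) → ∀ v, ‖B x v‖ ≤ C * ‖v‖ := by
  obtain ⟨k1, hk1n, hk1⟩ := p_par V q (big g) hfl.2
  have hP1 : k1 ∈ Plt q Λ := ⟨hk1n, g, hg, hfl, hk1⟩
  obtain ⟨k2, hP2, hk2⟩ := p_im V q _ hΛ (B a) (hBm a) k1 hP1
  obtain ⟨k3, hP3, hk3⟩ := p_im V q _ hΛ (B b) (hBm b) k1 hP1
  have hk2' : ∀ u, u ∈ range k2 ↔ B a⁻¹ u ∈ big g := by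
    intro u
    rw [hk2, hk1, B_symm]
  have hk3' : ∀ u, u ∈ range k3 ↔ B b⁻¹ u ∈ big g := by
    intro u
    rw [hk3, hk1, B_symm]
  have h12 : range k1 ≠ range k2 := by
    intro h
    apply ha
    intro v
    have h1 := hk2' (B a v)
    rw [← h, hk1, B_inv] at h1
    exact h1.symm
  have h13 : range k1 ≠ range k3 := by
    intro h
    apply hb
    intro v
    have h1 := hk3' (B b v)
    rw [← h, hk1, B_inv] at h1
    exact h1.symm
  have h23 : range k2 ≠ range k3 := by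
    intro h
    apply hab
    intro v
    have h1 := hk3' (B b v)
    rw [← h, hk2', B_inv] at h1
    rw [B_mul]
    exact h1.symm
  obtain ⟨C, hC⟩ := p_three V q _ hΛ k1 hP1 k2 hP2 k3 hP3 h12 h23 h13
  refine ⟨|C|, abs_nonneg _, fun x x1 x2 x3 v => ?_⟩
  have hgen : ∀ (c : Γ), c⁻¹ * x * c ∈ stV B (big g) → ∀ u : V, B c⁻¹ u ∈ big g ↔
      B c⁻¹ ((B x).symm u) ∈ big g := by
    intro c hc u
    have h1 := hc (B c⁻¹ (B x⁻¹ u))
    rw [B_mul, B_mul, B_inv', B_inv'] at h1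
    rw [B_symm]
    exact h1.symm
  have hbd := hC (B x) (hBm x) (by
      intro u
      rw [hk1, hk1, B_symm]
      have h1 := x1 (B x⁻¹ u)
      rw [B_inv'] at h1
      exact h1.symm) (by
      intro u
      rw [hk2', hk2']
      exact hgen a x2 u) (by
      intro u
      rw [hk3', hk3']
      exact hgen b x3 u)
  exact (hbd v).trans (mul_le_mul_of_nonneg_right (le_abs_self _) (norm_nonneg _))

/-- a normal subgroup which virtually fixes a plate is bounded -/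
theorem normal_bdd {q : ℕ} {Λ : Subgroup (V ≃ₗ[ℝ] V)} (hΛ : Anti q Λ) (hBm : ∀ γ, B γ ∈ Λ)
    (g : ℕ → V ≃ₗ[ℝ] V) (hg : ∀ j, g j ∈ Λ) (hfl : Fl q g)
    (hnf : ¬ (stV B (big g)).FiniteIndex) (M : Subgroup Γ) [hM : M.Normal]
    (hfi : ((stV B (big g)).subgroupOf M).FiniteIndex) :
    ∃ C : ℝ, ∀ n ∈ M, ∀ v, ‖B n v‖ ≤ C * ‖v‖ := by
  set S := stV B (big g) with hS
  obtain ⟨a, b, ha, hb, hab⟩ := three_cosets S hnf
  obtain ⟨C, hC0, hC⟩ := three_bdd B hΛ hBm g hg hfl a b ha hb hab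
  let κ : Γ → (M →* M) := fun c =>
    { toFun := fun n => ⟨c⁻¹ * n * c, by
        have := hM.conj_mem n n.2 c⁻¹
        rwa [inv_inv] at this⟩
      map_one' := by
        apply Subtype.ext
        simp
      map_mul' := by
        intro h k
        apply Subtype.ext
        simp [mul_assoc] }
  set S' := S.subgroupOf M with hS'
  have hfi2 : (S' ⊓ (S'.comap (κ a) ⊓ S'.comap (κ b))).FiniteIndex := by
    have h2 := fi_comap S' (κ a) hfi
    have h3 := fi_comap S' (κ b) hfi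
    infer_instance
  set T := S' ⊓ (S'.comap (κ a) ⊓ S'.comap (κ b)) with hT
  have hfin : Finite (M ⧸ T) := Subgroup.finite_quotient_of_finiteIndex
  obtain ⟨R, hR⟩ := (Set.finite_range fun x : M ⧸ T => ‖cl (B (x.out : M))‖).bddAbove
  refine ⟨R * C, fun n hn v => ?_⟩
  set m : M := ⟨n, hn⟩ with hm
  set o : M := (m : M ⧸ T).out with ho
  have h1 : o⁻¹ * m ∈ T := by
    rw [← QuotientGroup.eq]
    exact QuotientGroup.out_eq' _
  obtain ⟨t1, t2, t3⟩ := h1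
  have e1 : B n v = B (o : Γ) (B ((o⁻¹ * m : M) : Γ) v) := by
    rw [← B_mul]
    congr 2
    show n = (o : Γ) * ((o : Γ)⁻¹ * n)
    rw [mul_inv_cancel_left]
  rw [e1]
  have h2 : ‖B ((o⁻¹ * m : M) : Γ) v‖ ≤ C * ‖v‖ := hC _ t1 t2 t3 v
  have h3 : ‖cl (B (o : Γ))‖ ≤ R := hR ⟨_, rfl⟩
  have hR0 : 0 ≤ R := (norm_nonneg _).trans h3
  calc ‖B (o : Γ) (B ((o⁻¹ * m : M) : Γ) v)‖ ≤ ‖cl (B (o : Γ))‖ * ‖B ((o⁻¹ * m : M) : Γ) v‖ :=
        (cl (B (o : Γ))).le_opNorm _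
    _ ≤ R * (C * ‖v‖) := mul_le_mul h3 h2 (norm_nonneg _) hR0
    _ = _ := by ring

/-- the derived subgroups of non-elementary antipodal groups are unbounded -/
theorem derived_unbdd {q : ℕ} {Λ : Subgroup (V ≃ₗ[ℝ] V)} (hΛ : Anti q Λ) (hBm : ∀ γ, B γ ∈ Λ)
    (hno : ∀ g : ℕ → V ≃ₗ[ℝ] V, (∀ j, g j ∈ Λ) → Fl q g → ¬ (stV B (big g)).FiniteIndex)
    (hub : ¬ ∃ C : ℝ, ∀ n, ∀ v, ‖B n v‖ ≤ C * ‖v‖) (k : ℕ) :
    ¬ ∃ C : ℝ, ∀ n ∈ derivedSeries Γ k, ∀ v, ‖B n v‖ ≤ C * ‖v‖ := by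
  induction k with
  | zero =>
    rintro ⟨C, hC⟩
    exact hub ⟨C, fun n => hC n trivial⟩
  | succ k ih =>
    rintro ⟨C, hC⟩
    apply ih
    by_contra hN
    set N := derivedSeries Γ k with hNdef
    have hex : ∃ n : ℕ → Γ, (∀ j, n j ∈ N) ∧ Fl q (fun j => B (n j)) := by
      by_contra hcon
      apply hN
      obtain ⟨C', hC'⟩ := bdd_of_not_div (N.map B) fun g hg hdiv => by
        choose n hn hng using hg
        have hgΛ : ∀ j, g j ∈ Λ := fun j => by rw [← hng j]; exact hBm _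
        obtain ⟨φ, -, hφ⟩ := hΛ.div g hgΛ hdiv
        apply hcon
        refine ⟨fun j => n (φ j), fun j => hn _, ?_⟩
        have : (fun j => B (n (φ j))) = g ∘ φ := by
          funext j
          exact hng _
        rw [this]
        exact hφ
      exact ⟨C', fun n hn => hC' _ ⟨n, hn, rfl⟩⟩
    obtain ⟨n, hn, hfl⟩ := hex
    have hpres : ∀ a ∈ N, ∀ v, v ∈ big (fun j => B (n j)) → B a v ∈ big (fun j => B (n j)) := by
      rintro a ha v ⟨x, R, hx, hv⟩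
      have hc : Continuous (B a) := LinearMap.continuous_of_finiteDimensional (B a : V →ₗ[ℝ] V)
      have hm : ∀ j, a⁻¹ * (n j)⁻¹ * a * (n j) ∈ derivedSeries Γ (k + 1) := by
        intro j
        rw [derivedSeries_succ]
        have := Subgroup.commutator_mem_commutator (inv_mem ha) (inv_mem (hn j))
        simpa [commutatorElement_def] using this
      refine ⟨fun j => B a (B (a⁻¹ * (n j)⁻¹ * a * (n j)) (x j)), ‖cl (B a)‖ * (|C| * R),
        fun j => ?_, ?_⟩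
      · have h1 : ‖B (a⁻¹ * (n j)⁻¹ * a * (n j)) (x j)‖ ≤ |C| * R :=
          calc _ ≤ C * ‖x j‖ := hC _ (hm j) _
            _ ≤ |C| * ‖x j‖ := mul_le_mul_of_nonneg_right (le_abs_self _) (norm_nonneg _)
            _ ≤ |C| * R := mul_le_mul_of_nonneg_left (hx j) (abs_nonneg _)
        exact ((cl (B a)).le_opNorm _).trans (mul_le_mul_of_nonneg_left h1 (norm_nonneg _))
      · have h1 := (hc.tendsto v).comp hv
        refine h1.congr fun j => ?_
        show B a (B (n j) (x j)) = B (n j) (B a (B (a⁻¹ * (n j)⁻¹ * a * (n j)) (x j)))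
        rw [← B_mul, ← B_mul, ← B_mul]
        congr 2
        group
    have hsub : N ≤ stV B (big (fun j => B (n j))) := by
      intro a ha v
      refine ⟨hpres a ha v, fun h => ?_⟩
      have := hpres a⁻¹ (inv_mem ha) _ h
      rwa [B_inv] at this
    apply hN
    refine normal_bdd B hΛ hBm (fun j => B (n j)) (fun j => hBm _) hfl
      (hno _ (fun j => hBm _) hfl) N ?_
    have : (stV B (big (fun j => B (n j)))).subgroupOf N = ⊤ := by
      rw [Subgroup.subgroupOf_eq_top]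
      exact hsub
    rw [this]
    infer_instance

/-- the stabilizers of plates in the derived subgroups -/
theorem inf_index {q : ℕ} {Λ : Subgroup (V ≃ₗ[ℝ] V)} (hΛ : Anti q Λ) (hBm : ∀ γ, B γ ∈ Λ)
    (hno : ∀ g : ℕ → V ≃ₗ[ℝ] V, (∀ j, g j ∈ Λ) → Fl q g → ¬ (stV B (big g)).FiniteIndex)
    (hub : ¬ ∃ C : ℝ, ∀ n, ∀ v, ‖B n v‖ ≤ C * ‖v‖) (k : ℕ) (g : ℕ → V ≃ₗ[ℝ] V)
    (hg : ∀ j, g j ∈ Λ) (hfl : Fl q g) :
    ¬ ((stV B (big g)).subgroupOf (derivedSeries Γ k)).FiniteIndex := fun h =>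
  derived_unbdd B hΛ hBm hno hub k
    (normal_bdd B hΛ hBm g hg hfl (hno g hg hfl) (derivedSeries Γ k) h)

/-- conjugates of elements which move the repelling plate diverge -/
theorem conj_div {q : ℕ} {Λ : Subgroup (V ≃ₗ[ℝ] V)} (hΛ : Anti q Λ) (hBm : ∀ γ, B γ ∈ Λ)
    (s : ℕ → Γ) (hfl : Fl q (fun j => B (s j)⁻¹)) (δ : Γ)
    (hδ : δ ∉ stV B (big (fun j => B (s j)⁻¹))) :
    Tendsto (fun j => ‖cl (B (s j * δ * (s j)⁻¹))‖) atTop atTop := by
  set g : ℕ → V ≃ₗ[ℝ] V := fun j => B (s j)⁻¹ with hg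
  have hgm : ∀ j, g j ∈ Λ := fun j => hBm _
  by_contra hcon
  rw [Filter.tendsto_atTop, not_forall] at hcon
  obtain ⟨C, hC⟩ := hcon
  have hC' : ∃ᶠ j in atTop, ‖cl (B (s j * δ * (s j)⁻¹))‖ < C := by
    rw [not_eventually] at hC
    exact hC.mono fun j hj => not_le.1 hj
  obtain ⟨φ, hφ, hφC⟩ := extraction_of_frequently_atTop hC'
  -- a vector
  have hne : att g ≠ ⊥ := by
    intro h0
    have := hfl.1
    rw [h0, finrank_bot] at this
    have := hΛ.pos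
    omega
  obtain ⟨v, hv, hv0⟩ := Submodule.exists_mem_ne_zero_of_ne_bot hne
  have hvb : v ∈ big g := att_le_big g hv
  obtain ⟨b, hb, hbv⟩ := hv
  have hc : Continuous (B δ) := LinearMap.continuous_of_finiteDimensional (B δ : V →ₗ[ℝ] V)
  have hmem : B δ v ∈ att (g ∘ φ) := by
    refine ⟨fun j => B (s (φ j) * δ * (s (φ j))⁻¹) (b (φ j)), ?_, ?_⟩
    · refine squeeze_zero_norm (a := fun j => C * ‖b (φ j)‖) (fun j => ?_) ?_
      · exact ((cl (B (s (φ j) * δ * (s (φ j))⁻¹))).le_opNorm _).trans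
          (mul_le_mul_of_nonneg_right (hφC j).le (norm_nonneg _))
      · have h3 := (hb.comp hφ.tendsto_atTop).norm.const_mul C
        simpa using h3
    · have h3 := ((hc.tendsto v).comp hbv).comp hφ.tendsto_atTop
      refine h3.congr fun j => ?_
      show B δ (B (s (φ j))⁻¹ (b (φ j))) =
        B (s (φ j))⁻¹ (B (s (φ j) * δ * (s (φ j))⁻¹) (b (φ j)))
      rw [← B_mul, ← B_mul]
      congr 2
      group
  rw [((p_sub V q Λ hΛ g hgm).2.2 hfl φ hφ).1] at hmem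
  -- transversality
  have hm : ∀ j, B δ * g j ∈ Λ := fun j => Λ.mul_mem (hBm δ) (hgm j)
  have hfl' : Fl q (fun j => B δ * g j) := by
    refine ⟨?_, ?_⟩
    · rw [map_eq (B δ) (mem_att_mul (B δ) g), LinearEquiv.finrank_map_eq, hfl.1]
    · rw [map_eq (B δ) (mem_big_mul (B δ) g), LinearEquiv.finrank_map_eq, hfl.2]
  rcases hΛ.anti g (fun j => B δ * g j) hgm hm hfl hfl' with h | h
  · apply hδ
    intro u
    have h3 := mem_big_mul (B δ) g (B δ u)
    rw [← h, (B δ).symm_apply_apply] at h3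
    exact h3.symm
  · have h3 : B δ v ∈ att g ⊓ big (fun j => B δ * g j) := by
      refine ⟨hmem, (mem_big_mul (B δ) g (B δ v)).2 ?_⟩
      rw [(B δ).symm_apply_apply]
      exact hvb
    rw [h, Submodule.mem_bot] at h3
    exact hv0 ((LinearEquiv.map_eq_zero_iff (B δ)).1 h3)

/-- growth in a subgroup contradicts the stabilizers -/
theorem growth_contra2 {q : ℕ} {Λ : Subgroup (V ≃ₗ[ℝ] V)} (hΛ : Anti q Λ) (hBm : ∀ γ, B γ ∈ Λ)
    (g : ℕ → V ≃ₗ[ℝ] V) (hg : ∀ j, g j ∈ Λ) (hfl : Fl q g) (M : Subgroup Γ)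
    (hnf : ¬ ((stV B (big g)).subgroupOf M).FiniteIndex) (s : ℕ → M)
    (hi : ∀ (a b : M) (C : ℝ), ∃ k l, C * ‖cl (B (s k))‖ < ‖cl (B (s l))‖ ∧
      (s l * (s k)⁻¹) ∈ (stV B (big g)).subgroupOf M ∧
      a⁻¹ * (s l * (s k)⁻¹) * a ∈ (stV B (big g)).subgroupOf M ∧
      b⁻¹ * (s l * (s k)⁻¹) * b ∈ (stV B (big g)).subgroupOf M) : False := by
  obtain ⟨a, b, ha, hb, hab⟩ := three_cosets _ hnf
  obtain ⟨C, hC0, hC⟩ := three_bdd B hΛ hBm g hg hfl (a : Γ) (b : Γ) ha hb hab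
  obtain ⟨k, l, hlt, x1, x2, x3⟩ := hi a b C
  have hbd := hC _ x1 x2 x3
  have h1 : ‖cl (B (s l))‖ ≤ C * ‖cl (B (s k))‖ := by
    refine ContinuousLinearMap.opNorm_le_bound _ (by positivity) fun v => ?_
    have h2 : cl (B (s l)) v = B ((s l * (s k)⁻¹ : M) : Γ) (B (s k) v) := by
      rw [cl_apply, ← B_mul]
      congr 2
      show ((s l : M) : Γ) = ((s l : M) : Γ) * ((s k : M) : Γ)⁻¹ * ((s k : M) : Γ)
      rw [inv_mul_cancel_right]
    rw [h2]
    calc ‖B ((s l * (s k)⁻¹ : M) : Γ) (B (s k) v)‖ ≤ C * ‖B (s k) v‖ := hbd _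
      _ ≤ C * (‖cl (B (s k))‖ * ‖v‖) :=
        mul_le_mul_of_nonneg_left ((cl (B (s k))).le_opNorm v) hC0
      _ = _ := by ring
  exact absurd hlt (not_lt.2 h1)

end

end Pool.Agent.N520.AN
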