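import Pool.Agent.N520.AN.PR7

/-!
Project AN, fifth part: products, relative version. Preparations.
-/

set_option autoImplicit false
set_option linter.unusedSectionVars false

open Set Filter Topology Metric Pointwise
open Pool.Agent.W689.Mk Pool.Agent.TH94.MK Pool.Agent.R522.Mk.Rk
open Pool.Agent.N507.AN2.IM

namespace Pool.Agent.N520.AN

section alt
variable {V : Type} [NormedAddCommGroup V] [NormedSpace ℝ V]

/-- the alternative for sequences in antipodal groups and their inverses -/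
def Alt2 (q : ℕ) (a : ℕ → V ≃ₗ[ℝ] V) : Prop :=
  (Bd a ∧ Bd (inv a)) ∨ (Fl q a ∧ Fl q (inv a) ∧ Div a)

variable [FiniteDimensional ℝ V]

theorem alt2_ex {q : ℕ} {Λ : Subgroup (V ≃ₗ[ℝ] V)} (hΛ : Anti q Λ) (a : ℕ → V ≃ₗ[ℝ] V)
    (ha : ∀ j, a j ∈ Λ) : ∃ φ : ℕ → ℕ, StrictMono φ ∧ Alt2 q (a ∘ φ) := by
  obtain ⟨φ, hφ, h | ⟨h, hd⟩⟩ := alt_ex hΛ a ha
  · exact ⟨φ, hφ, Or.inl h⟩
  · obtain ⟨ψ, hψ, h1, h2⟩ := p_two V q Λ hΛ (a ∘ φ) (fun j => ha _) hd
    exact ⟨φ ∘ ψ, hφ.comp hψ, Or.inr ⟨h1, h2, div_comp hd hψ⟩⟩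

theorem alt2_sub {q : ℕ} {Λ : Subgroup (V ≃ₗ[ℝ] V)} (hΛ : Anti q Λ) (a : ℕ → V ≃ₗ[ℝ] V)
    (ha : ∀ j, a j ∈ Λ) (h : Alt2 q a) {φ : ℕ → ℕ} (hφ : StrictMono φ) : Alt2 q (a ∘ φ) := by
  rcases h with ⟨h1, h2⟩ | ⟨h1, h2, h3⟩
  · exact Or.inl ⟨h1.comp φ, h2.comp φ⟩
  · obtain ⟨e1, e2⟩ := (p_sub V q Λ hΛ a ha).2.2 h1 φ hφ
    obtain ⟨e3, e4⟩ := (p_sub V q Λ hΛ (inv a) (inv_mem' ha)).2.2 h2 φ hφ
    refine Or.inr ⟨⟨?_, ?_⟩, ⟨?_, ?_⟩, div_comp h3 hφ⟩
    · rw [e1]; exact h1.1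
    · rw [e2]; exact h1.2
    · show Module.finrank ℝ (att (inv a ∘ φ)) = q
      rw [e3]; exact h2.1
    · show Module.finrank ℝ (big (inv a ∘ φ)) + q = _
      rw [e4]; exact h2.2

theorem bd_one' : Bd (fun _ : ℕ => (1 : V ≃ₗ[ℝ] V)) :=
  ⟨1, zero_le_one, fun _ v => by
    rw [one_mul]
    exact le_refl _⟩

end alt

section conj
variable {Γ : Type} [Group Γ] {Z : Type} [MetricSpace Z] [ProperSpace Z] (μ : Z → Z → Z)
    (hμ : Continuous fun x : Z × Z => μ x.1 x.2) (Φ : Γ → Z) (hΦ : ∀ a b, Φ (a * b) = μ (Φ a) (Φ b))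

include hμ hΦ in
theorem bdd_conj (γ : ℕ → Γ) (hb : Bornology.IsBounded (range fun j => Φ (γ j)))
    (hb' : Bornology.IsBounded (range fun j => Φ (γ j)⁻¹)) (δ : Γ) :
    Bornology.IsBounded (range fun j => Φ (γ j * δ * (γ j)⁻¹)) := by
  have h1 : IsCompact (closure (range fun j => Φ (γ j))) := hb.isCompact_closure
  have h2 : IsCompact (closure (range fun j => Φ (γ j)⁻¹)) := hb'.isCompact_closure
  have h3 : Continuous fun x : Z × Z => μ (μ x.1 (Φ δ)) x.2 := by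
    have e1 : Continuous fun x : Z × Z => μ x.1 (Φ δ) :=
      hμ.comp (continuous_fst.prodMk continuous_const)
    exact hμ.comp (e1.prodMk continuous_snd)
  refine ((h1.prod h2).image h3).isBounded.subset ?_
  rintro _ ⟨j, rfl⟩
  refine ⟨(Φ (γ j), Φ (γ j)⁻¹), ⟨subset_closure ⟨j, rfl⟩, subset_closure ⟨j, rfl⟩⟩, ?_⟩
  show μ (μ (Φ (γ j)) (Φ δ)) (Φ (γ j)⁻¹) = Φ (γ j * δ * (γ j)⁻¹)
  rw [hΦ, hΦ]

end conj

section seq
variable {X Γ E : Type} [NormedAddCommGroup E] [NormedSpace ℝ E]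
    [FiniteDimensional ℝ E] [TopologicalSpace X] [T2Space X] [SecondCountableTopology X]
    [Group Γ] [MulAction Γ X] {dev : X → E} {hol : Γ →* (E ≃ᵃ[ℝ] E)}

/-- approximation of boundary points by a given sequence -/
theorem good_seq2 (D : AffData X Γ E dev hol) (hinj : Function.Injective dev) {p : E}
    (hpΩ : p ∉ range dev) (a : ℕ → E) (haΩ : ∀ k, a k ∈ range dev) (ha : Tendsto a atTop (𝓝 p)) :
    ∃ (r : ℝ) (γ : ℕ → Γ) (c : ℕ → E) (M : ℝ), 0 < r ∧
      (∀ j, ‖c j‖ ≤ M) ∧ (∀ j, hol (γ j) (c j) = a j) ∧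
      (∀ j w, ‖w‖ ≤ r → a j + (hol (γ j)).linear w ∈ range dev) ∧
      ∀ (φ : ℕ → ℕ) (w : ℕ → E) (v : E), StrictMono φ → (∀ j, ‖w j‖ ≤ r) →
        Tendsto (fun j => (hol (γ (φ j))).linear (w j)) atTop (𝓝 v) → p + v ∉ range dev := by
  have : ProperSpace E := FiniteDimensional.proper_real E
  set Ω : Set E := range dev with hΩdef
  have hΩ : IsOpen Ω := D.loc.isOpenMap.isOpen_range
  have hinv := range_inv D
  have hpd := range_pd D hinj
  obtain ⟨C0, hC0, hC0Ω, hcc⟩ := range_cc D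
  obtain ⟨M, hM⟩ := hC0.isBounded.exists_norm_le
  obtain ⟨r, hr, hrΩ⟩ := hC0.exists_cthickening_subset_open hΩ hC0Ω
  choose γ c hc hγc using fun k => hcc (a k) (haΩ k)
  have hC1 : IsCompact (cthickening r C0) := hC0.cthickening
  have hin : ∀ k (w : E), ‖w‖ ≤ r → c k + w ∈ cthickening r C0 := by
    intro k w hw
    refine mem_cthickening_of_dist_le _ _ _ _ (hc k) ?_
    rw [dist_eq_norm, add_sub_cancel_left]; exact hw
  have hmove : ∀ k (w : E), hol (γ k) (c k + w) = a k + (hol (γ k)).linear w := by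
    intro k w
    rw [hol_add, hγc k]
  have claim1 : ∀ q ∈ Ω, ∃ ε > 0, ∀ᶠ k in atTop, ∀ w : E, ‖w‖ ≤ r →
      a k + (hol (γ k)).linear w ∉ closedBall q ε := by
    intro q hq
    obtain ⟨ε, hε, hεΩ⟩ := Metric.nhds_basis_closedBall.mem_iff.1 (hΩ.mem_nhds hq)
    refine ⟨ε, hε, ?_⟩
    have hC : IsCompact (cthickening r C0 ∪ closedBall q ε) := hC1.union (isCompact_closedBall _ _)
    have hCΩ : cthickening r C0 ∪ closedBall q ε ⊆ Ω := union_subset hrΩ hεΩ
    have hF := hpd _ hC hCΩ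
    set G := {γ : Γ | ∃ c ∈ cthickening r C0 ∪ closedBall q ε,
      hol γ c ∈ cthickening r C0 ∪ closedBall q ε} with hFdef
    have hT : IsCompact (⋃ g ∈ G, hol g '' C0) :=
      hF.isCompact_biUnion fun g _ => hC0.image (hol_cont g)
    have hpT : p ∉ ⋃ g ∈ G, hol g '' C0 := by
      intro hcon
      obtain ⟨g, _, hcon⟩ := mem_iUnion₂.1 hcon
      obtain ⟨c', hc', rfl⟩ := hcon
      exact hpΩ (hinv g c' (hC0Ω hc'))
    have hev : ∀ᶠ k in atTop, a k ∉ ⋃ g ∈ G, hol g '' C0 :=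
      ha.eventually (hT.isClosed.isOpen_compl.mem_nhds hpT)
    filter_upwards [hev] with k hk w hw hcon
    apply hk
    refine mem_iUnion₂.2 ⟨γ k, ?_, c k, hc k, hγc k⟩
    refine ⟨c k + w, Or.inl (hin k w hw), Or.inr ?_⟩
    rw [hmove]; exact hcon
  refine ⟨r, γ, c, M, hr, fun j => hM _ (hc j), hγc, ?_, ?_⟩
  · intro j w hw
    rw [← hmove]
    exact hinv _ _ (hrΩ (hin j w hw))
  · intro φ w v hφ hw hv hq
    obtain ⟨ε, hε, hev⟩ := claim1 _ hq
    have h1 : Tendsto (fun k => a (φ k) + (hol (γ (φ k))).linear (w k)) atTop (𝓝 (p + v)) :=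
      (ha.comp hφ.tendsto_atTop).add hv
    obtain ⟨k, hk1, hk2⟩ := ((h1.eventually (closedBall_mem_nhds _ hε)).and
      (hφ.tendsto_atTop.eventually hev)).exists
    exact hk2 (w k) (hw k) hk1

end seq

section proj
variable {E : Type} [NormedAddCommGroup E] [NormedSpace ℝ E] [FiniteDimensional ℝ E]
  {ι : Type} [Fintype ι] [DecidableEq ι] {V : ι → Submodule ℝ E} {π : ι → E →ₗ[ℝ] E}

theorem tau_mem (hD : Dec V π) (I : Finset ι) {i : ι} (hi : i ∉ I) {v : E} (hv : v ∈ V i) :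
    tau π I v = v := by
  rw [tau_apply, Finset.sum_eq_single i]
  · exact hD.self i v hv
  · intro l _ hl
    exact hD.ne l i hl v hv
  · intro h
    exact absurd (Finset.mem_compl.2 hi) h

theorem tau_zero (hD : Dec V π) (I : Finset ι) {i : ι} (hi : i ∈ I) {v : E} (hv : v ∈ V i) :
    tau π I v = 0 := by
  rw [tau_apply]
  refine Finset.sum_eq_zero fun l hl => ?_
  have h : l ≠ i := fun h => (Finset.mem_compl.1 hl) (h ▸ hi)
  exact hD.ne l i h v hv

theorem pi_tau (hD : Dec V π) (I : Finset ι) {i : ι} (hi : i ∈ I) (v : E) :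
    π i (tau π I v) = 0 := by
  rw [tau_apply, map_sum]
  refine Finset.sum_eq_zero fun l hl => ?_
  have h : i ≠ l := fun h => (Finset.mem_compl.1 hl) (h ▸ hi)
  exact hD.ne i l h _ (hD.mem l v)

theorem tau_sub (hD : Dec V π) (R I : Finset ι) {u : E} (hu : tau π Rᶜ u = u) :
    tau π I u = tau π (R \ I)ᶜ u := by
  rw [tau_apply, tau_apply, compl_compl]
  refine (Finset.sum_subset ?_ ?_).symm
  · intro i hi
    exact Finset.mem_compl.2 (Finset.mem_sdiff.1 hi).2
  · intro i hi hi'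
    have hR : i ∈ Rᶜ := by
      rw [Finset.mem_compl]
      intro h
      exact hi' (Finset.mem_sdiff.2 ⟨h, Finset.mem_compl.1 hi⟩)
    rw [← hu]
    exact pi_tau hD Rᶜ hR u

/-- the automorphism which is `c` on the sum of the `V i`, `i ∉ I`, and the identity on the
other ones -/
noncomputable def mix (hD : Dec V π) (I : Finset ι) (c : E ≃ₗ[ℝ] E)
    (hc : ∀ i, ∀ v ∈ V i, c v ∈ V i) (hc' : ∀ i, ∀ v ∈ V i, c.symm v ∈ V i) : E ≃ₗ[ℝ] E :=
  LinearEquiv.ofLinearMap
    (LinearMap.id - tau π I + (tau π I).comp (c : E →ₗ[ℝ] E))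
    (LinearMap.id - tau π I + (tau π I).comp (c.symm : E →ₗ[ℝ] E))
    (by
      refine LinearMap.ext fun v => ?_
      have h1 := tau_comm hD I (c : E →ₗ[ℝ] E) hc
      have h2 := tau_idem hD I
      show (v - tau π I v + tau π I (c.symm v)) -
        tau π I (v - tau π I v + tau π I (c.symm v)) +
        tau π I (c (v - tau π I v + tau π I (c.symm v))) = v
      have h3 : tau π I (v - tau π I v + tau π I (c.symm v)) = tau π I (c.symm v) := by
        rw [map_add, map_sub, h2, h2, sub_self, zero_add]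
      have h4 : tau π I (c (v - tau π I v + tau π I (c.symm v))) = tau π I v := by
        have e1 := h1 (v - tau π I v + tau π I (c.symm v))
        have e2 : tau π I (c (v - tau π I v + tau π I (c.symm v))) =
            c (tau π I (v - tau π I v + tau π I (c.symm v))) := e1
        rw [e2, h3]
        have e3 : tau π I (c (c.symm v)) = c (tau π I (c.symm v)) := h1 (c.symm v)
        rw [← e3, c.apply_symm_apply]
      rw [h3, h4]
      abel)
    (by
      refine LinearMap.ext fun v => ?_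
      have h1 := tau_comm hD I (c.symm : E →ₗ[ℝ] E) hc'
      have h2 := tau_idem hD I
      show (v - tau π I v + tau π I (c v)) -
        tau π I (v - tau π I v + tau π I (c v)) +
        tau π I (c.symm (v - tau π I v + tau π I (c v))) = v
      have h3 : tau π I (v - tau π I v + tau π I (c v)) = tau π I (c v) := by
        rw [map_add, map_sub, h2, h2, sub_self, zero_add]
      have h4 : tau π I (c.symm (v - tau π I v + tau π I (c v))) = tau π I v := by
        have e1 := h1 (v - tau π I v + tau π I (c v))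
        have e2 : tau π I (c.symm (v - tau π I v + tau π I (c v))) =
            c.symm (tau π I (v - tau π I v + tau π I (c v))) := e1
        rw [e2, h3]
        have e3 : tau π I (c.symm (c v)) = c.symm (tau π I (c v)) := h1 (c v)
        rw [← e3, c.symm_apply_apply]
      rw [h3, h4]
      abel)

theorem mix_apply (hD : Dec V π) (I : Finset ι) (c : E ≃ₗ[ℝ] E)
    (hc : ∀ i, ∀ v ∈ V i, c v ∈ V i) (hc' : ∀ i, ∀ v ∈ V i, c.symm v ∈ V i) (v : E) :
    mix hD I c hc hc' v = v - tau π I v + tau π I (c v) := rfl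

end proj

end Pool.Agent.N520.AN
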