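import Pool.Agent.N520.AN.PR8

/-!
Project AN, fifth part: products, relative version. Slices.
-/

set_option autoImplicit false
set_option linter.unusedSectionVars false

open Set Filter Topology Metric
open Pool.Agent.W689.Mk Pool.Agent.TH94.MK Pool.Agent.R522.Mk.Rk
open Pool.Agent.N507.AN2.IM

namespace Pool.Agent.N520.AN

section main
variable {X Γ E : Type} [NormedAddCommGroup E] [NormedSpace ℝ E]
    [FiniteDimensional ℝ E] [TopologicalSpace X] [T2Space X] [SecondCountableTopology X]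
    [ConnectedSpace X] [Group Γ] [MulAction Γ X] {dev : X → E} {hol : Γ →* (E ≃ᵃ[ℝ] E)}

theorem lin_symm (γ : Γ) (v : E) : (hol γ).linear.symm v = (hol γ⁻¹).linear v := by
  rw [LinearEquiv.symm_apply_eq, lin_inv']

theorem hol_zero_add (γ : Γ) (v : E) : hol γ v = hol γ 0 + (hol γ).linear v := by
  have := hol_add (hol := hol) γ 0 v
  rw [zero_add] at this
  exact this

/-- a boundary point on a line -/
theorem line_bdry (D : AffData X Γ E dev hol) {x0 w : E} (h0 : x0 ∈ range dev)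
    (h1 : x0 + w ∉ range dev) : ∃ (t1 : ℝ) (t : ℕ → ℝ), Tendsto t atTop (𝓝 t1) ∧
      (∀ j, x0 + t j • w ∈ range dev) ∧ x0 + t1 • w ∉ range dev := by
  set T : Set ℝ := {t | x0 + t • w ∈ range dev} with hT
  have hTo : IsOpen T := D.loc.isOpenMap.isOpen_range.preimage
    (continuous_const.add (continuous_id.smul continuous_const))
  have h3 : ∃ t1, t1 ∈ closure T ∧ t1 ∉ T := by
    by_contra hcon
    push Not at hcon
    have h4 : IsClopen T := ⟨closure_subset_iff_isClosed.1 fun t ht => hcon t ht, hTo⟩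
    have h5 : T = univ := h4.eq_univ ⟨0, by
      show x0 + (0 : ℝ) • w ∈ range dev
      rw [zero_smul, add_zero]
      exact h0⟩
    have h6 : (1 : ℝ) ∈ T := by rw [h5]; trivial
    apply h1
    have h7 : x0 + (1 : ℝ) • w ∈ range dev := h6
    rwa [one_smul] at h7
  obtain ⟨t1, ht1, ht1'⟩ := h3
  obtain ⟨t, ht, htl⟩ := mem_closure_iff_seq_limit.1 ht1
  exact ⟨t1, t, htl, ht, ht1'⟩

/-- products, slices -/
theorem prod_slices (D : AffData X Γ E dev hol) (hinj : Function.Injective dev) {ι : Type}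
    [Fintype ι] [DecidableEq ι] (V : ι → Submodule ℝ E) (π : ι → E →ₗ[ℝ] E) (hD : Dec V π)
    (hinv : ∀ i γ, ∀ v ∈ V i, (hol γ).linear v ∈ V i) (R : Finset ι) (k : ℕ)
    (hk : ∀ γ ∈ derivedSeries Γ k, ∀ v, tau π Rᶜ (hol γ v - v) = hol γ v - v) (q : ι → ℕ)
    (hcond : ∀ i ∈ R, (∃ C : ℝ, ∀ γ, ∀ v ∈ V i, ‖(hol γ).linear v‖ ≤ C * ‖v‖) ∨
      (Anti (q i) (LinOn hol ⊤ (V i)) ∧ Module.finrank ℝ (V i) = 2 * q i ∧
        ∀ g : ℕ → V i ≃ₗ[ℝ] V i, (∀ j, g j ∈ LinOn hol ⊤ (V i)) → Fl (q i) g →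
          ∀ H' : Subgroup Γ, H'.FiniteIndex →
            ∃ γ ∈ H', ∃ v ∈ big g, restr hol (V i) (hinv i) γ v ∉ big g))
    (x0 : E) (hx0 : x0 ∈ range dev) (w : E) (hw : tau π Rᶜ w = w) : x0 + w ∈ range dev := by
  classical
  by_contra hbad
  obtain ⟨t1, t, ht, htin, htout⟩ := line_bdry D hx0 hbad
  set P := tau π Rᶜ with hP
  have hPi : ∀ v, P (P v) = P v := tau_idem hD Rᶜ
  have hPc : ∀ γ v, P ((hol γ).linear v) = (hol γ).linear (P v) := fun γ v =>
    tau_comm hD Rᶜ ((hol γ).linear : E →ₗ[ℝ] E) (fun i v hv => hinv i γ v hv) v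
  have hPcont : Continuous P := LinearMap.continuous_of_finiteDimensional P
  set p := x0 + t1 • w with hp
  set x : ℕ → E := fun j => x0 + t j • w with hxdef
  have hx : Tendsto x atTop (𝓝 p) := tendsto_const_nhds.add (ht.smul_const w)
  set c0 := x0 - P x0 with hc0
  have hPc0 : P c0 = 0 := by rw [hc0, map_sub, hPi, sub_self]
  have hPx : ∀ t : ℝ, P (x0 + t • w) + c0 = x0 + t • w := by
    intro t
    rw [map_add, map_smul, hw, hc0]
    abel
  obtain ⟨r, γ, c, M, hr, hc, hγc, hin, hout⟩ := good_seq2 D hinj htout x htin hx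
  set B := fun i => restr hol (V i) (hinv i) with hB
  have hBm : ∀ i γ, B i γ ∈ LinOn hol ⊤ (V i) := fun i γ => ⟨γ, trivial, fun v => rfl⟩
  -- subsequence
  have hbt : ∀ i, (∃ C : ℝ, ∀ γ, ∀ v ∈ V i, ‖(hol γ).linear v‖ ≤ C * ‖v‖) →
      ∀ s : ℕ → Γ, Bd (fun j => B i (s j)) := by
    rintro i ⟨C, hC⟩ s
    refine ⟨|C|, abs_nonneg _, fun j v => ?_⟩
    have h1 := hC (s j) v v.2
    exact h1.trans (mul_le_mul_of_nonneg_right (le_abs_self C) (norm_nonneg _))
  have hinvs : ∀ i (s : ℕ → Γ), inv (fun j => B i (s j)) = fun j => B i (s j)⁻¹ := by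
    intro i s
    funext j
    rw [map_inv]
    rfl
  obtain ⟨φ, hφ, hAlt⟩ := fin_sub (fun i φ => i ∈ R → Alt2 (q i) (fun j => B i (γ (φ j)))) (by
      intro i φ ψ hφ hψ h hi
      rcases hcond i hi with hb | ⟨hA, -, -⟩
      · left
        rw [hinvs]
        exact ⟨hbt i hb _, hbt i hb _⟩
      · exact alt2_sub hA _ (fun j => hBm i _) (h hi) hψ) (by
      intro i φ hφ
      by_cases hi : i ∈ R
      · rcases hcond i hi with hb | ⟨hA, -, -⟩
        · refine ⟨id, strictMono_id, fun _ => ?_⟩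
          left
          rw [hinvs]
          exact ⟨hbt i hb _, hbt i hb _⟩
        · obtain ⟨ψ, hψ, h⟩ := alt2_ex hA (fun j => B i (γ (φ j))) (fun j => hBm i _)
          exact ⟨ψ, hψ, fun _ => h⟩
      · exact ⟨id, strictMono_id, fun h => absurd h hi⟩)
  set s : ℕ → Γ := fun j => γ (φ j) with hs
  set a : ∀ i, ℕ → V i ≃ₗ[ℝ] V i := fun i j => if i ∈ R then B i (s j) else 1 with ha
  have haR : ∀ i ∈ R, a i = fun j => B i (s j) := by
    intro i hi
    funext j
    simp only [ha, if_pos hi]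
  have haN : ∀ i ∉ R, a i = fun _ => 1 := by
    intro i hi
    funext j
    simp only [ha, if_neg hi]
  have hinv' : ∀ γ i, ∀ v ∈ V i, (hol γ).linear.symm v ∈ V i := by
    intro γ i v hv
    rw [lin_symm]
    exact hinv i γ⁻¹ v hv
  set g : ℕ → E ≃ₗ[ℝ] E := fun j => mix hD Rᶜ (hol (s j)).linear (fun i => hinv i (s j))
    (hinv' (s j)) with hg
  have hgv : ∀ j v, g j v = v - P v + P ((hol (s j)).linear v) := fun j v => rfl
  have hPg : ∀ j v, P (g j v) = (hol (s j)).linear (P v) := by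
    intro j v
    rw [hgv, map_add, map_sub, hPi, hPi, sub_self, zero_add, hPc]
  have hga : ∀ i j (v : V i), g j (v : E) = (a i j v : E) := by
    intro i j v
    rw [hgv]
    by_cases hi : i ∈ R
    · have hi' : i ∉ Rᶜ := fun h => (Finset.mem_compl.1 h) hi
      rw [haR i hi, hP, tau_mem hD Rᶜ hi' v.2, tau_mem hD Rᶜ hi' (hinv i (s j) v v.2), sub_self,
        zero_add]
      rfl
    · have hi' : i ∈ Rᶜ := Finset.mem_compl.2 hi
      rw [haN i hi, hP, tau_zero hD Rᶜ hi' v.2, tau_zero hD Rᶜ hi' (hinv i (s j) v v.2), sub_zero,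
        add_zero]
      rfl
  set I : Finset ι := R.filter fun i => Div (fun j => B i (s j)) with hI
  have hmemI : ∀ i, i ∈ I ↔ i ∈ R ∧ Div (fun j => B i (s j)) := fun i => by
    rw [hI, Finset.mem_filter]
  have hIfl2 : ∀ i ∈ I, Fl (q i) (fun j => B i (s j)) ∧ Fl (q i) (fun j => B i (s j)⁻¹) := by
    intro i hi
    have hi' := (hmemI i).1 hi
    rcases hAlt i hi'.1 with h | h
    · exact absurd hi'.2 (not_div_of_bd h.1)
    · refine ⟨h.1, ?_⟩
      have h3 := h.2.1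
      rw [hinvs] at h3
      exact h3
  have hIfl : ∀ i ∈ I, Fl (q i) (a i) := by
    intro i hi
    rw [haR i ((hmemI i).1 hi).1]
    exact (hIfl2 i hi).1
  have ham : ∀ i ∈ I, ∀ j, a i j ∈ LinOn hol ⊤ (V i) := by
    intro i hi j
    rw [haR i ((hmemI i).1 hi).1]
    exact hBm i _
  have hIA : ∀ i ∈ I, (Anti (q i) (LinOn hol ⊤ (V i)) ∧ Module.finrank ℝ (V i) = 2 * q i ∧
        ∀ g : ℕ → V i ≃ₗ[ℝ] V i, (∀ j, g j ∈ LinOn hol ⊤ (V i)) → Fl (q i) g →
          ∀ H' : Subgroup Γ, H'.FiniteIndex →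
            ∃ γ ∈ H', ∃ v ∈ big g, restr hol (V i) (hinv i) γ v ∉ big g) := by
    intro i hi
    have hi' := (hmemI i).1 hi
    rcases hcond i hi'.1 with h | h
    · exact absurd hi'.2 (not_div_of_bd (hbt i h s))
    · exact h
  have hno : ∀ i ∈ I, ∀ g : ℕ → V i ≃ₗ[ℝ] V i, (∀ j, g j ∈ LinOn hol ⊤ (V i)) → Fl (q i) g →
      ¬ (stV (B i) (big g)).FiniteIndex := by
    intro i hi g hg hfl hf
    obtain ⟨γ, hγ, v, hv, hv'⟩ := (hIA i hi).2.2 g hg hfl _ hf
    exact hv' ((hγ v).1 hv)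
  have hub : ∀ i ∈ I, ¬ ∃ C : ℝ, ∀ n, ∀ v, ‖B i n v‖ ≤ C * ‖v‖ := by
    rintro i hi ⟨C, hC⟩
    refine not_div_of_bd ⟨|C|, abs_nonneg _, fun j v => ?_⟩ ((hmemI i).1 hi).2
    exact (hC (s j) v).trans (mul_le_mul_of_nonneg_right (le_abs_self C) (norm_nonneg _))
  have hJ' : ∀ i ∈ R, i ∉ I → Bd (fun j => B i (s j)) ∧ Bd (fun j => B i (s j)⁻¹) := by
    intro i hi hi'
    rcases hAlt i hi with h | h
    · rw [hinvs] at h
      exact h
    · exact absurd ((hmemI i).2 ⟨hi, h.2.2⟩) hi'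
  have hJ : ∀ i ∉ I, Bd (inv (a i)) := by
    intro i hi
    by_cases hR : i ∈ R
    · rw [haR i hR, hinvs]
      exact (hJ' i hR hi).2
    · rw [haN i hR]
      exact bd_one'
  set K : ι → Submodule ℝ E := fun i => (big (a i)).map (V i).subtype with hK
  have hKV : ∀ i, K i ≤ V i := fun i => Submodule.map_subtype_le _ _
  -- the sides
  have hN := NN_le_big hD g a hga I hJ
  have hAt := AA_le_att hD g a hga I fun i hi => by
    rw [att_eq_big (hIA i hi).2.1 (hIfl i hi)]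
  set Ωc : Set E := {y | P y + c0 ∈ range dev} with hΩc
  set Pn := ‖LinearMap.toContinuousLinearMap P‖ with hPn
  have hPb : ∀ v, ‖P v‖ ≤ Pn * ‖v‖ := fun v => (LinearMap.toContinuousLinearMap P).le_opNorm v
  have hPn0 : 0 ≤ Pn := norm_nonneg _
  have hr' : 0 < r / (Pn + 1) := by positivity
  have hPr : ∀ v, ‖v‖ ≤ r / (Pn + 1) → ‖P v‖ ≤ r := by
    intro v hv
    calc ‖P v‖ ≤ Pn * ‖v‖ := hPb v
      _ ≤ (Pn + 1) * (r / (Pn + 1)) := by
        gcongr
        linarith
      _ = r := by field_simp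
  obtain ⟨ρ, hρ, hs1, hs2⟩ := sides (Ω := Ωc) (p := p) (x := fun j => x (φ j)) (g := g) hr'
    (hx.comp hφ.tendsto_atTop) (by
      intro j v hv
      show P (x (φ j) + g j v) + c0 ∈ range dev
      have h1 : P (x (φ j) + g j v) + c0 = x (φ j) + (hol (s j)).linear (P v) := by
        rw [map_add, hPg]
        have h2 : P (x (φ j)) + c0 = x (φ j) := hPx (t (φ j))
        calc P (x (φ j)) + (hol (s j)).linear (P v) + c0 =
            (P (x (φ j)) + c0) + (hol (s j)).linear (P v) := by abel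
          _ = _ := by rw [h2]
      rw [h1]
      exact hin (φ j) (P v) (hPr v hv))
    (by
      intro ψ u v hψ hu hv hcon
      have h1 : P (p + v) + c0 = p + P v := by
        rw [map_add]
        have h2 : P p + c0 = p := hPx t1
        calc P p + P v + c0 = (P p + c0) + P v := by abel
          _ = _ := by rw [h2]
      have h2 : P (p + v) + c0 ∈ range dev := hcon
      rw [h1] at h2
      refine hout (φ ∘ ψ) (fun j => P (u j)) (P v) (hφ.comp hψ) (fun j => hPr _ (hu j)) ?_ h2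
      have h3 := (hPcont.tendsto v).comp hv
      refine h3.congr fun j => ?_
      exact hPg (ψ j) (u j)) (NN π I K) hN
  -- the element of the derived subgroup
  set G := derivedSeries Γ k with hG
  have hGn : G.Normal := derivedSeries_normal Γ k
  obtain ⟨δ, hδ⟩ := avoid (fun i : {i // i ∈ I} =>
    (stV (B i) (big (fun j => B i (s j)⁻¹))).subgroupOf G) fun i =>
      inf_index (B i) (hIA i i.2).1 (hBm i) (hno i i.2) (hub i i.2) k _ (fun j => hBm i _)
        (hIfl2 i i.2).2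
  -- the projection
  set τ := tau π (R \ I)ᶜ with hτ
  have hτc : ∀ γ v, τ ((hol γ).linear v) = (hol γ).linear (τ v) := fun γ v =>
    tau_comm hD _ ((hol γ).linear : E →ₗ[ℝ] E) (fun i v hv => hinv i γ v hv) v
  have hτi : ∀ v, τ (τ v) = τ v := tau_idem hD _
  let L : Γ → (E →L[ℝ] E) := fun γ =>
    LinearMap.toContinuousLinearMap (τ ∘ₗ ((hol γ).linear : E →ₗ[ℝ] E))
  let T : Γ → E := fun γ => τ (hol γ 0)
  have hLmul : ∀ a b, L (a * b) = (L a).comp (L b) := by
    intro a b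
    ext v
    show τ ((hol (a * b)).linear v) = τ ((hol a).linear (τ ((hol b).linear v)))
    rw [lin_mul, ← hτc, hτi]
  have hTmul : ∀ a b, T (a * b) = T a + L a (T b) := by
    intro a b
    show τ (hol (a * b) 0) = τ (hol a 0) + τ ((hol a).linear (τ (hol b 0)))
    have h1 : hol (a * b) 0 = hol a (hol b 0) := by
      rw [map_mul]
      rfl
    rw [h1, hol_zero_add a (hol b 0), map_add, ← hτc, hτi]
  have hprop : ProperSpace E := FiniteDimensional.proper_real E
  have hprop2 : ProperSpace (E →L[ℝ] E) := FiniteDimensional.proper_real (E →L[ℝ] E)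
  -- boundedness
  have hmemJ : ∀ i ∉ (R \ I)ᶜ, i ∈ R ∧ i ∉ I := by
    intro i hi
    have h1 : i ∈ R \ I := by
      by_contra h
      exact hi (Finset.mem_compl.2 h)
    exact Finset.mem_sdiff.1 h1
  obtain ⟨C1, hC1, hb1⟩ := tau_bdd hD (fun j => (hol (s j)).linear) (fun i j => B i (s j))
    (fun i j v => rfl) (R \ I)ᶜ fun i hi => (hJ' i (hmemJ i hi).1 (hmemJ i hi).2).1
  obtain ⟨C2, hC2, hb2⟩ := tau_bdd hD (fun j => (hol (s j)⁻¹).linear) (fun i j => B i (s j)⁻¹)
    (fun i j v => rfl) (R \ I)ᶜ fun i hi => (hJ' i (hmemJ i hi).1 (hmemJ i hi).2).2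
  obtain ⟨M2, hM2⟩ := ((isBounded_range_of_tendsto _ hx)).exists_norm_le
  have hxM : ∀ j, ‖x j‖ ≤ M2 := fun j => hM2 _ ⟨j, rfl⟩
  set τn := ‖LinearMap.toContinuousLinearMap τ‖ with hτn
  have hτb : ∀ v, ‖τ v‖ ≤ τn * ‖v‖ := fun v => (LinearMap.toContinuousLinearMap τ).le_opNorm v
  have hbd1 : Bornology.IsBounded (range fun j => ((L (s j), T (s j)) : (E →L[ℝ] E) × E)) := by
    refine isBounded_iff_forall_norm_le.2 ⟨max C1 (τn * M2 + C1 * M), ?_⟩
    rintro _ ⟨j, rfl⟩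
    refine norm_prod_le_iff.2 ⟨?_, ?_⟩
    · refine le_max_of_le_left ?_
      exact ContinuousLinearMap.opNorm_le_bound _ hC1 fun v => hb1 j v
    · refine le_max_of_le_right ?_
      have h1 : hol (s j) 0 = x (φ j) - (hol (s j)).linear (c (φ j)) := by
        have h2 : hol (s j) (c (φ j)) = x (φ j) := hγc (φ j)
        rw [hol_zero_add] at h2
        rw [← h2]
        abel
      show ‖τ (hol (s j) 0)‖ ≤ _
      rw [h1, map_sub]
      refine (norm_sub_le _ _).trans (add_le_add ?_ ?_)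
      · exact (hτb _).trans (mul_le_mul_of_nonneg_left (hxM _) (norm_nonneg _))
      · exact (hb1 j _).trans (mul_le_mul_of_nonneg_left (hc _) hC1)
  have hbd2 : Bornology.IsBounded
      (range fun j => ((L (s j)⁻¹, T (s j)⁻¹) : (E →L[ℝ] E) × E)) := by
    refine isBounded_iff_forall_norm_le.2 ⟨max C2 (τn * M + C2 * M2), ?_⟩
    rintro _ ⟨j, rfl⟩
    refine norm_prod_le_iff.2 ⟨?_, ?_⟩
    · refine le_max_of_le_left ?_
      exact ContinuousLinearMap.opNorm_le_bound _ hC2 fun v => hb2 j v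
    · refine le_max_of_le_right ?_
      have h1 : hol (s j)⁻¹ 0 = c (φ j) - (hol (s j)⁻¹).linear (x (φ j)) := by
        have h2 : hol (s j) (c (φ j)) = x (φ j) := hγc (φ j)
        have h3 : hol (s j)⁻¹ (x (φ j)) = c (φ j) := by
          rw [← h2, hol_inv_apply]
        rw [hol_zero_add] at h3
        rw [← h3]
        abel
      show ‖τ (hol (s j)⁻¹ 0)‖ ≤ _
      rw [h1, map_sub]
      refine (norm_sub_le _ _).trans (add_le_add ?_ ?_)
      · exact (hτb _).trans (mul_le_mul_of_nonneg_left (hc _) (norm_nonneg _))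
      · exact (hb2 j _).trans (mul_le_mul_of_nonneg_left (hxM _) hC2)
  let μ : (E →L[ℝ] E) × E → (E →L[ℝ] E) × E → (E →L[ℝ] E) × E :=
    fun z w => (z.1.comp w.1, z.2 + z.1 w.2)
  have hμ : Continuous fun z : ((E →L[ℝ] E) × E) × ((E →L[ℝ] E) × E) => μ z.1 z.2 := by
    show Continuous fun z : ((E →L[ℝ] E) × E) × ((E →L[ℝ] E) × E) =>
      (z.1.1.comp z.2.1, z.1.2 + z.1.1 z.2.2)
    fun_prop
  have hΦ : ∀ a b : Γ, ((L (a * b), T (a * b)) : (E →L[ℝ] E) × E) = μ (L a, T a) (L b, T b) :=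
    fun a b => Prod.ext (hLmul a b) (hTmul a b)
  have hbc := bdd_conj μ hμ (fun γ => (L γ, T γ)) hΦ s hbd1 hbd2
  -- invariance of the cylinder
  have hfix : ∀ b ∈ G, ∀ u, P u = 0 → (hol b).linear u = u := by
    intro b hb u hu
    have h1 : (hol b).linear u - u = (hol b u - u) - (hol b 0 - 0) := by
      rw [hol_zero_add b u]
      abel
    have h2 : P ((hol b).linear u - u) = (hol b).linear u - u := by
      rw [h1, map_sub, hk b hb u, hk b hb 0]
    have h3 : P ((hol b).linear u - u) = 0 := by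
      rw [map_sub, hPc, hu, map_zero, sub_zero]
    rw [h3] at h2
    exact (sub_eq_zero.1 h2.symm)
  have hcyl : ∀ b ∈ G, ∀ y ∈ Ωc, hol b y ∈ Ωc := by
    intro b hb y hy
    show P (hol b y) + c0 ∈ range dev
    have h1 : P (P y + c0 - y) = 0 := by
      rw [map_sub, map_add, hPi, hPc0, add_zero, sub_self]
    have h2 : hol b (P y + c0) = P (hol b y) + c0 := by
      have e1 : P y + c0 = y + (P y + c0 - y) := by abel
      rw [e1, hol_add]
      have e2 : lin hol b (P y + c0 - y) = P y + c0 - y := hfix b hb _ h1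
      rw [e2]
      have e3 := hk b hb y
      rw [map_sub] at e3
      have e4 : P (hol b y) = hol b y - y + P y := by
        rw [← e3]
        abel
      rw [e4]
      abel
    rw [← h2]
    exact range_inv D b _ hy
  obtain ⟨i, hi⟩ := ultra2 (Γ := G) (Z := (E →L[ℝ] E) × E) μ hμ
    (fun b => (L (b : Γ), T (b : Γ))) (fun a b => hΦ a b)
    (fun j => ⟨s j * δ * (s j)⁻¹, hGn.conj_mem δ δ.2 (s j)⟩) (hbc (δ : Γ))
    (by
      refine (hbc (δ : Γ)⁻¹).subset ?_
      rintro _ ⟨j, rfl⟩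
      refine ⟨j, ?_⟩
      have e1 : s j * (δ : Γ)⁻¹ * (s j)⁻¹ = (s j * δ * (s j)⁻¹)⁻¹ := by group
      show (L (s j * (δ : Γ)⁻¹ * (s j)⁻¹), T (s j * (δ : Γ)⁻¹ * (s j)⁻¹)) =
        (L (s j * δ * (s j)⁻¹)⁻¹, T (s j * δ * (s j)⁻¹)⁻¹)
      rw [e1])
    (ι := {i // i ∈ I}) (fun i => (stV (B i) (big (a i))).subgroupOf G)
    {z | ‖z.1 p + z.2 - τ p‖ < ρ}
    (by
      have hcont : Continuous fun z : (E →L[ℝ] E) × E => ‖z.1 p + z.2 - τ p‖ := by fun_prop
      refine (isOpen_lt hcont continuous_const).mem_nhds ?_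
      show ‖τ ((hol 1).linear p) + τ (hol 1 0) - τ p‖ < ρ
      rw [map_one]
      show ‖τ p + τ 0 - τ p‖ < ρ
      rw [map_zero, add_zero, sub_self, norm_zero]
      exact hρ)
    (by
      intro b hb
      by_contra hcon
      push Not at hcon
      refine one_fixed hD hKV hρ (fun a ha => hs1 a (hAt ha)) (fun a ha => hs2 a (hAt ha))
        (hol (b : Γ)) (hcyl b b.2) ?_ ?_
      · intro i hi v hv
        rcases tr (hIA i hi).1 (hIA i hi).2.1 (a i) (ham i hi) (hIfl i hi) (hBm i b)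
          with h | h
        · exact absurd (show b ∈ (stV (B i) (big (a i))).subgroupOf G from h) (hcon ⟨i, hi⟩)
        · obtain ⟨k, hk, k', hk', hkk⟩ := h ⟨v, hv⟩
          exact ⟨k, ⟨k, hk, rfl⟩, k', ⟨k', hk', rfl⟩, congrArg Subtype.val hkk⟩
      · have h1 : ‖τ ((hol (b : Γ)).linear p) + τ (hol (b : Γ) 0) - τ p‖ < ρ := hb
        rw [tau_sub hD R I (hk b b.2 p), map_sub, hol_zero_add (b : Γ) p, map_add,
          add_comm (tau π (R \ I)ᶜ (hol (b : Γ) 0))]
        exact h1)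
    (fun i j => ‖cl (B i (s j * δ * (s j)⁻¹))‖)
    (fun i => conj_div (B i) (hIA i i.2).1 (hBm i) s (hIfl2 i i.2).2 δ (hδ i))
    (fun i j => cl_pos (by
      have h1 := (hIA i i.2).2.1
      have h2 := (hIA i i.2).1.pos
      omega) _)
  have hnf : ¬ ((stV (B i) (big (a i))).subgroupOf G).FiniteIndex :=
    inf_index (B i) (hIA i i.2).1 (hBm i) (hno i i.2) (hub i i.2) k (a i) (ham i i.2)
      (hIfl i i.2)
  clear_value G
  refine growth_contra2 (B i) (hIA i i.2).1 (hBm i) (a i) (ham i i.2) (hIfl i i.2) G hnf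
    (fun j => ⟨s j * δ * (s j)⁻¹, hGn.conj_mem δ δ.2 (s j)⟩) ?_
  intro a' b' C
  obtain ⟨k', l, h1, h2, h3, h4⟩ := hi a' b' C
  exact ⟨k', l, h1, h2, h3, h4⟩

end main

end Pool.Agent.N520.AN
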