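import Pool.Agent.N520.AN.All
import Pool.Agent.N520.AN.Stm4

/-!
Project AN, fourth part: slices.
-/

set_option autoImplicit false

open Set Filter Topology Metric
open Pool.Agent.W689.Mk Pool.Agent.TH94.MK Pool.Agent.R522.Mk.Rk Pool.Agent.TH569.MK
open Pool.Agent.N520.RO

namespace Pool.Agent.N520.AN

/-- the dichotomy for the slices, for the whole group -/
theorem gen1 {F : Type} [NormedAddCommGroup F] [NormedSpace ℝ F] [FiniteDimensional ℝ F]
    (X Γ E : Type) [NormedAddCommGroup E] [NormedSpace ℝ E]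
    [FiniteDimensional ℝ E] [TopologicalSpace X] [T2Space X] [SecondCountableTopology X]
    [ConnectedSpace X] [Group Γ] [MulAction Γ X] (dev : X → E) (hol : Γ →* (E ≃ᵃ[ℝ] E))
    (D : AffData X Γ E dev hol) (hinj : Function.Injective dev) (W : Submodule ℝ E)
    (hWinv : ∀ γ, ∀ v ∈ W, (hol γ).linear v ∈ W)
    (P : Set (F →L[ℝ] W)) (hP : PSys (restr hol W hWinv) P) (j : ℕ)
    (hj : ∀ γ ∈ derivedSeries Γ j, ∀ v : E, hol γ v - v ∈ W) :
    IsHomeomorph dev ∨ ∀ x ∈ range dev, ∀ v ∈ W, x + v ∈ range dev := by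
  set B := restr hol (W) hWinv with hBdef
  have hB : ∀ γ (v : W), (hol γ).linear (v : E) = (B γ v : E) := fun γ v => rfl
  obtain ⟨δ, hδ, hlow⟩ := hP.low
  obtain ⟨C0, hC0, hC0r, hcc⟩ := range_cc D
  obtain ⟨r, hr0, hgood⟩ := Pool.Agent.N441.RO.t_slice E F Γ hol (W) (fun γ => B γ) hB
    P hP.cpt (range dev) D.loc.isOpenMap.isOpen_range
    (range_inv D) (range_pd D hinj) C0 hC0 hC0r hcc δ hδ hlow
  -- dichotomy for the slices
  have hdich : ∀ x ∈ range dev, {v : W | x + v ∈ range dev} = univ ∨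
      ∃ k ∈ P, ∀ y ∈ {v : W | x + v ∈ range dev}, ∀ f,
        y + k f ∈ {v : W | x + v ∈ range dev} := by
    intro x hx
    have hopen : IsOpen {v : W | x + v ∈ range dev} :=
      D.loc.isOpenMap.isOpen_range.preimage (continuous_const.add continuous_subtype_val)
    exact Pool.Agent.N712.RO.t_dich (W) F P hP.fam {v : W | x + v ∈ range dev} r hopen
      ⟨0, by show x + ((0 : W) : E) ∈ range dev; rwa [Submodule.coe_zero, add_zero]⟩ hr0
      (fun p hp hp' => hgood x p hp hp')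
  by_cases hall : ∀ x ∈ range dev, {v : W | x + v ∈ range dev} = univ
  · right
    intro x hx v hv
    have h1 : (⟨v, hv⟩ : W) ∈ {v : W | x + v ∈ range dev} := by
      rw [hall x hx]
      trivial
    exact h1
  left
  push Not at hall
  obtain ⟨x, hx, hbad⟩ := hall
  obtain ⟨k0, hk0, hinv0⟩ := (hdich x hx).resolve_left hbad
  set Ω : Set (W) := {v : W | x + v ∈ range dev} with hΩ
  have h0mem : (0 : W) ∈ Ω := by
    show x + ((0 : W) : E) ∈ range dev
    rwa [Submodule.coe_zero, add_zero]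
  -- two transversal directions are impossible
  have hno : ∀ k : F →L[ℝ] W, (∀ y ∈ Ω, ∀ f, y + k f ∈ Ω) → ¬ Trans k0 k := by
    intro k hk ht
    apply hbad
    refine eq_univ_iff_forall.mpr fun v => ?_
    obtain ⟨f, f', hf⟩ := ht v
    have h1 := hk _ (hinv0 0 h0mem f) (-f')
    rw [map_neg, zero_add, ← sub_eq_add_neg, hf] at h1
    exact h1
  -- the derived subgroup fixes the plate
  have hlinW : ∀ n ∈ derivedSeries Γ j, ∀ v : E, (hol n).linear v - v ∈ W := by
    intro n hn v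
    have h1 := hj n hn v
    have h2 := hj n hn 0
    have h3 := lin_zero (hol n) v
    have h4 : (hol n).linear v - v = (hol n v - v) - (hol n 0 - 0) := by
      rw [h3]
      abel
    rw [h4]
    exact Submodule.sub_mem _ h1 h2
  have hfix0 : ∀ n ∈ derivedSeries Γ j, Pres (B n) k0 := by
    intro n hn
    obtain ⟨l, hl, hlk⟩ := hP.im n k0 hk0
    have hle : range k0 = range l := by
      rcases hP.fam k0 hk0 l hl with h | h
      · exact h
      exfalso
      refine hno l ?_ h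
      -- the slice is invariant under `n`
      have hstep : ∀ n ∈ derivedSeries Γ j, ∀ y : W, y ∈ Ω → ∃ z : W, z ∈ Ω ∧
          x + (z : E) = hol n (x + y) := by
        intro n hn y hy
        have h1 : hol n (x + y) - (x + y) ∈ W := hj n hn _
        have h2 : hol n (x + y) - x ∈ W := by
          have : hol n (x + y) - x = (hol n (x + y) - (x + y)) + y := by abel
          rw [this]
          exact Submodule.add_mem _ h1 y.2
        refine ⟨⟨_, h2⟩, ?_, ?_⟩
        · show x + (hol n (x + y) - x) ∈ range dev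
          rw [add_sub_cancel]
          exact range_inv D n _ hy
        · show x + (hol n (x + y) - x) = _
          rw [add_sub_cancel]
      intro y hy f
      obtain ⟨f0, hf0⟩ := (hlk (l f)).mp (mem_range_self f)
      have hf0' : B n (k0 f0) = l f := by rw [hf0, LinearEquiv.apply_symm_apply]
      obtain ⟨z, hz, hz'⟩ := hstep n⁻¹ (inv_mem hn) y hy
      have h1 := hinv0 z hz f0
      obtain ⟨u, hu, hu'⟩ := hstep n hn _ h1
      have h2 : u = y + l f := by
        apply Subtype.ext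
        have e1 : x + (u : E) = x + ((y + l f : W) : E) := by
          rw [hu', Submodule.coe_add, ← add_assoc, hz', hol_add]
          have e2 : hol n (hol n⁻¹ (x + y)) = x + y := hol_apply_inv n _
          rw [e2, Submodule.coe_add, add_assoc, ← hf0']
          rfl
        exact add_left_cancel e1
      rw [← h2]
      exact hu
    intro u
    rw [← hlk u, ← hle]
  have hnorm : (derivedSeries Γ j).Normal := inferInstance
  rcases elem_cases' hP.im (derivedSeries Γ j) hk0 hfix0 with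
    ⟨H, hH, hk⟩ | ⟨k1, hk1, k2, hk2, a1, a2, a3, b1, b2⟩
  · obtain ⟨γ, hγ, hn⟩ := hP.elem k0 hk0 H hH
    exact absurd (hk γ hγ) hn
  · obtain ⟨C, hC⟩ := hP.three k0 hk0 k1 hk1 k2 hk2 a1 a2 a3
    refine complete_of_derived vs2 X Γ E dev hol D hinj (W) hWinv j C hlinW ?_
    intro n hn v hv
    exact hC n (hfix0 n hn) (b1 n hn) (b2 n hn) ⟨v, hv⟩


/-- the dichotomy for the slices, for antipodal groups -/
theorem anti_slices (X Γ E : Type) [NormedAddCommGroup E] [NormedSpace ℝ E]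
    [FiniteDimensional ℝ E] [TopologicalSpace X] [T2Space X] [SecondCountableTopology X]
    [ConnectedSpace X] [Group Γ] [MulAction Γ X] (dev : X → E) (hol : Γ →* (E ≃ᵃ[ℝ] E))
    (D : AffData X Γ E dev hol) (hinj : Function.Injective dev) (W : Submodule ℝ E)
    (hWinv : ∀ γ, ∀ v ∈ W, (hol γ).linear v ∈ W) (q : ℕ) (Λ : Subgroup (W ≃ₗ[ℝ] W))
    (hΛ : ∀ A, A ∈ Λ ↔ ∃ γ, restr hol W hWinv γ = A) (hA : Anti q Λ)
    (hN : ∀ g : ℕ → W ≃ₗ[ℝ] W, (∀ j, g j ∈ Λ) → Fl q g → ∀ H' : Subgroup Γ, H'.FiniteIndex →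
      ∃ γ ∈ H', ∃ v ∈ big g, restr hol W hWinv γ v ∉ big g) (j : ℕ)
    (hj : ∀ γ ∈ derivedSeries Γ j, ∀ v : E, hol γ v - v ∈ W) :
    IsHomeomorph dev ∨ ∀ x ∈ range dev, ∀ v ∈ W, x + v ∈ range dev := by
  have hmem : ∀ γ, restr hol W hWinv γ ∈ Λ := fun γ => (hΛ _).2 ⟨γ, rfl⟩
  have hlinW : ∀ n ∈ derivedSeries Γ j, ∀ v : E, (hol n).linear v - v ∈ W := by
    intro n hn v
    have h1 := hj n hn v
    have h2 := hj n hn 0
    have h3 := lin_zero (hol n) v
    have h4 : (hol n).linear v - v = (hol n v - v) - (hol n 0 - 0) := by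
      rw [h3]
      abel
    rw [h4]
    exact Submodule.sub_mem _ h1 h2
  rcases (Plt q Λ).eq_empty_or_nonempty with hemp | hne
  · left
    obtain ⟨C, hC⟩ := bdd_of_not_div Λ fun g hg hdiv => by
      obtain ⟨φ, -, hφ⟩ := hA.div g hg hdiv
      obtain ⟨k, hk, hk'⟩ := p_par W q (big (g ∘ φ)) hφ.2
      have : k ∈ Plt q Λ := ⟨hk, g ∘ φ, fun j => hg _, hφ, hk'⟩
      rw [hemp] at this
      exact this
    exact complete_of_derived vs2 X Γ E dev hol D hinj W hWinv j C hlinW fun n _ v hv =>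
      hC _ (hmem n) ⟨v, hv⟩
  · have hinvp : ∀ k ∈ Plt q Λ, ∀ H' : Subgroup Γ, H'.FiniteIndex →
        ∃ γ ∈ H', ∃ x ∈ range k, restr hol W hWinv γ x ∉ range k := by
      rintro k ⟨-, g, hg, hfl, hk⟩ H' hH'
      obtain ⟨γ, hγ, v, hv, hv'⟩ := hN g hg hfl H' hH'
      exact ⟨γ, hγ, v, (hk v).2 hv, fun h => hv' ((hk _).1 h)⟩
    obtain ⟨δ, hδ, hδ'⟩ := p_low W q Λ hA (fun k hk => by
      obtain ⟨γ, -, x, hx, hx'⟩ := hinvp k hk ⊤ inferInstance
      exact ⟨_, hmem γ, x, hx, hx'⟩) hne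
    refine gen1 X Γ E dev hol D hinj W hWinv (Plt q Λ)
      ⟨p_cpt W q Λ hA, p_fam W q Λ hA, ⟨δ, hδ, fun γ => hδ' _ (hmem γ)⟩,
        fun γ k hk => p_im W q Λ hA _ (hmem γ) k hk, ?_, ?_⟩ j hj
    · intro k1 hk1 k2 hk2 k3 hk3 a1 a2 a3
      obtain ⟨C, hC⟩ := p_three W q Λ hA k1 hk1 k2 hk2 k3 hk3 a1 a2 a3
      exact ⟨C, fun γ b1 b2 b3 => hC _ (hmem γ) b1 b2 b3⟩
    · intro k hk H'' hH''
      obtain ⟨γ, hγ, x, hx, hx'⟩ := hinvp k hk H'' hH''
      refine ⟨γ, hγ, fun h => ?_⟩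
      apply hx'
      rw [h, LinearEquiv.symm_apply_apply]
      exact hx

end Pool.Agent.N520.AN
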