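import Pool.Agent.N520.AN.Stm2

/-!
Project AN, third part: groups preserving a form; elements without fixed vectors.
Exact statements of the parts.
-/

set_option autoImplicit false

open Set Filter Topology

namespace Pool.Agent.N520.AN

/-- antipodal groups of isometries of a form are antipodal -/
def S3_FORM : Prop := ∀ (E : Type) [NormedAddCommGroup E] [NormedSpace ℝ E]
  [FiniteDimensional ℝ E] (B : E →ₗ[ℝ] E →ₗ[ℝ] ℝ) (q : ℕ) (Λ : Subgroup (E ≃ₗ[ℝ] E)),
  Antip B q Λ → Anti q Λ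

/-- in dimension `2 * q` there are elements without fixed vectors -/
def S3_NOFIX : Prop := ∀ (E : Type) [NormedAddCommGroup E] [NormedSpace ℝ E]
  [FiniteDimensional ℝ E] (q : ℕ) (Λ : Subgroup (E ≃ₗ[ℝ] E)), Anti q Λ →
  Module.finrank ℝ E = 2 * q → (∃ k ∈ Plt q Λ, ∃ c ∈ Λ, ∃ x ∈ range k, c x ∉ range k) →
  ∃ A ∈ Λ, ∀ v : E, A v = v → v = 0

end Pool.Agent.N520.AN
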