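import Pool.Agent.N520.AN.Main
import Pool.Agent.N520.AN.Stm3
import Pool.Agent.N520.RO.RankF

/-!
Project AN, third part: elementary groups; virtual solvability in the absence of a middle space.
-/

set_option autoImplicit false

open Set Filter Topology
open Pool.Agent.W689.Mk Pool.Agent.R522.Mk.Rk Pool.Agent.N520.RO

namespace Pool.Agent.N520.AN

section
variable {Γ E : Type} [Group Γ] [NormedAddCommGroup E] [NormedSpace ℝ E]

/-- solvable on `W` and modulo `W` -/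
theorem solv_of_two (hol : Γ →* (E ≃ᵃ[ℝ] E)) (H : Subgroup Γ) (W : Submodule ℝ E)
    (hW : ∀ γ ∈ H, ∀ v ∈ W, (hol γ).linear v ∈ W) (hs : Group.IsSolvable (LinOn hol H W)) (j : ℕ)
    (hj : ∀ γ ∈ derivedSeries H j, ∀ v : E, hol (γ : Γ) v - v ∈ W) :
    Group.IsSolvable (H.map hol) := by
  obtain ⟨n, hn⟩ := hs
  have hW' : ∀ γ, ∀ v ∈ W, ((hol.comp H.subtype) γ).linear v ∈ W := fun γ v hv => hW γ γ.2 v hv
  let φ : H →* LinOn hol H W := (restr (hol.comp H.subtype) W hW').codRestrict (LinOn hol H W)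
    fun γ => ⟨γ, γ.2, fun v => rfl⟩
  have h1 : ∀ γ ∈ derivedSeries H n, ∀ w ∈ W, (hol (γ : Γ)).linear w = w := by
    intro γ hγ w hw
    have h2 : φ γ ∈ derivedSeries (LinOn hol H W) n :=
      map_derivedSeries_le_derivedSeries φ n ⟨γ, hγ, rfl⟩
    rw [hn, Subgroup.mem_bot] at h2
    have h3 : restr (hol.comp H.subtype) W hW' γ = 1 := congrArg Subtype.val h2
    have h4 : restr (hol.comp H.subtype) W hW' γ ⟨w, hw⟩ = ⟨w, hw⟩ := by
      rw [h3]; rfl
    exact congrArg Subtype.val h4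
  have hant : ∀ a b : ℕ, a ≤ b → derivedSeries H b ≤ derivedSeries H a := by
    intro a b hab
    induction hab with
    | refl => exact le_rfl
    | step _ ih =>
      refine le_trans ?_ ih
      rw [derivedSeries_succ]
      exact Subgroup.commutator_le_left _ _
  set J := max j n with hJ
  have hcomm : ∀ γ ∈ derivedSeries H J, ∀ δ ∈ derivedSeries H J,
      hol ((γ : Γ) * δ) = hol ((δ : Γ) * γ) := by
    have key : ∀ γ ∈ derivedSeries H J, ∀ δ ∈ derivedSeries H J, ∀ x : E,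
        hol ((γ : Γ) * δ) x = x + (hol (γ : Γ) x - x) + (hol (δ : Γ) x - x) := by
      intro γ hγ δ hδ x
      have a1 : hol (δ : Γ) x - x ∈ W := hj δ (hant _ _ (le_max_left _ _) hδ) x
      have a2 : (hol (γ : Γ)).linear (hol (δ : Γ) x - x) = hol (δ : Γ) x - x :=
        h1 γ (hant _ _ (le_max_right _ _) hγ) _ a1
      have a3 : hol (γ : Γ) (x + (hol (δ : Γ) x - x)) =
          hol (γ : Γ) x + (hol (γ : Γ)).linear (hol (δ : Γ) x - x) := hol_add _ _ _
      rw [map_mul]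
      show hol (γ : Γ) (hol (δ : Γ) x) = _
      have a4 : hol (δ : Γ) x = x + (hol (δ : Γ) x - x) := by abel
      conv_lhs => rw [a4]
      rw [a3, a2]
      abel
    intro γ hγ δ hδ
    refine AffineEquiv.ext fun x => ?_
    rw [key γ hγ δ hδ x, key δ hδ γ hγ x]
    abel
  let χ : H →* H.map hol := (hol.comp H.subtype).codRestrict (H.map hol)
    fun γ => ⟨γ, γ.2, rfl⟩
  have hχ : Function.Surjective χ := by
    rintro ⟨_, γ, hγ, rfl⟩
    exact ⟨⟨γ, hγ⟩, rfl⟩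
  refine ⟨⟨J + 1, ?_⟩⟩
  rw [← map_derivedSeries_eq hχ, Subgroup.map_eq_bot_iff, derivedSeries_succ,
    Subgroup.commutator_le]
  intro γ hγ δ hδ
  rw [MonoidHom.mem_ker]
  refine Subtype.ext ?_
  show hol ((γ * δ * γ⁻¹ * δ⁻¹ : H) : Γ) = 1
  have h5 := hcomm γ hγ δ hδ
  have h6 : ((γ * δ * γ⁻¹ * δ⁻¹ : H) : Γ) = ((γ : Γ) * δ) * ((δ : Γ) * γ)⁻¹ := by
    rw [mul_inv_rev]
    simp [mul_assoc]
  rw [h6, map_mul, map_inv, h5, mul_inv_cancel]

/-- some subgroup of finite index preserves a limit space -/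
def Elem (hol : Γ →* (E ≃ᵃ[ℝ] E)) (H : Subgroup Γ) (W : Submodule ℝ E) (q : ℕ) : Prop :=
  ∃ g : ℕ → W ≃ₗ[ℝ] W, (∀ j, g j ∈ LinOn hol H W) ∧ Fl q g ∧
    ∃ H' : Subgroup Γ, H'.FiniteIndex ∧ H' ≤ H ∧ ∀ A ∈ LinOn hol H' W, ∀ v ∈ big g, A v ∈ big g

theorem derived_mono {H' H : Subgroup Γ} (hle : H' ≤ H) (j : ℕ) (γ : H')
    (hγ : γ ∈ derivedSeries H' j) : (⟨γ, hle γ.2⟩ : H) ∈ derivedSeries H j :=
  map_derivedSeries_le_derivedSeries (Subgroup.inclusion hle) j ⟨γ, hγ, rfl⟩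

end

theorem complete_of_solv' (X Γ E : Type) [NormedAddCommGroup E] [NormedSpace ℝ E]
    [FiniteDimensional ℝ E] [TopologicalSpace X] [T2Space X] [SecondCountableTopology X]
    [Nonempty X] [Group Γ] [MulAction Γ X] (dev : X → E) (hol : Γ →* (E ≃ᵃ[ℝ] E))
    (D : AffData X Γ E dev hol) (hinj : Function.Injective dev) (A : Subgroup Γ)
    (hA : A.FiniteIndex) (hsol : Group.IsSolvable (A.map hol)) : IsHomeomorph dev := by
  refine Pool.Agent.Y449.MS.Wrap.main Pool.Agent.Y449.MS.All.finv X Γ E dev hol D hinj A hA ?_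
  have h8 : ∀ k : A.map hol, AffineEquiv.linearHom (k : E ≃ᵃ[ℝ] E) ∈
      A.map (AffineEquiv.linearHom.comp hol) := by
    rintro ⟨_, a, ha, rfl⟩
    exact ⟨a, ha, rfl⟩
  have h9 : Function.Surjective ((AffineEquiv.linearHom.comp (A.map hol).subtype).codRestrict
      (A.map (AffineEquiv.linearHom.comp hol)) h8) := by
    rintro ⟨_, a, ha, rfl⟩
    exact ⟨⟨hol a, a, ha, rfl⟩, rfl⟩
  exact Group.isSolvable_of_surjective h9

/-- completeness -/
theorem anti_full (hPAR : S2_PAR) (hCPT : S2_CPT) (hFAM : S2_FAM) (hIM : S2_IM) (hLOW : S2_LOW)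
    (hTHREE : S2_THREE) (X Γ E : Type) [NormedAddCommGroup E] [NormedSpace ℝ E]
    [FiniteDimensional ℝ E] [TopologicalSpace X] [T2Space X] [SecondCountableTopology X]
    [ConnectedSpace X] [Group Γ] [MulAction Γ X] (dev : X → E) (hol : Γ →* (E ≃ᵃ[ℝ] E))
    (D : AffData X Γ E dev hol) (hinj : Function.Injective dev) (H : Subgroup Γ)
    (hH : H.FiniteIndex) (S : ℕ → Submodule ℝ E) (m : ℕ) (hO : OverFlag hol H S m) (q : ℕ)
    (hA : Anti q (LinOn hol H (S 0)))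
    (hE : Elem hol H (S 0) q → ∃ H' : Subgroup Γ, H'.FiniteIndex ∧ H' ≤ H ∧
      Group.IsSolvable (LinOn hol H' (S 0))) (j : ℕ)
    (hj : ∀ γ ∈ derivedSeries H j, ∀ v : E, hol (γ : Γ) v - v ∈ S 0) : IsHomeomorph dev := by
  have hinv0 : ∀ γ ∈ H, ∀ v ∈ S 0, (hol γ).linear v ∈ S 0 := hO.2.2.1 0 (Nat.zero_le m)
  by_cases hel : Elem hol H (S 0) q
  · obtain ⟨H', hH', hle, hs⟩ := hE hel
    exact complete_of_solv' X Γ E dev hol D hinj H' hH' (solv_of_two hol H' (S 0)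
      (fun γ hγ => hinv0 γ (hle hγ)) hs j fun γ hγ => hj _ (derived_mono hle j γ hγ))
  · refine anti_main hPAR hCPT hFAM hIM hLOW hTHREE X Γ E dev hol D hinj H hH S m hO q hA ?_ j hj
    intro g hg hfl H' hH' hle
    by_contra hc
    push Not at hc
    exact hel ⟨g, hg, hfl, H', hH', hle, hc⟩

/-- virtual solvability, for the whole group -/
theorem anti_solv0 (hPAR : S2_PAR) (hIM : S2_IM) (hTHREE : S2_THREE) (hNF : S3_NOFIX)
    (X Γ E : Type) [NormedAddCommGroup E] [NormedSpace ℝ E]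
    [FiniteDimensional ℝ E] [TopologicalSpace X] [T2Space X] [SecondCountableTopology X]
    [ConnectedSpace X] [Group Γ] [MulAction Γ X] (dev : X → E) (hol : Γ →* (E ≃ᵃ[ℝ] E))
    (D : AffData X Γ E dev hol) (hdev : IsHomeomorph dev)
    (hfree : ∀ (γ : Γ) (x : X), γ • x = x → γ = 1) (W : Submodule ℝ E)
    (hWinv : ∀ γ, ∀ v ∈ W, (hol γ).linear v ∈ W) (q : ℕ) (Λ : Subgroup (W ≃ₗ[ℝ] W))
    (hΛ : ∀ γ, restr hol W hWinv γ ∈ Λ) (hA : Anti q Λ) (hdim : Module.finrank ℝ W = 2 * q)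
    (hN : ∀ g : ℕ → W ≃ₗ[ℝ] W, (∀ j, g j ∈ Λ) → Fl q g → ∀ H' : Subgroup Γ, H'.FiniteIndex →
      ∃ γ ∈ H', ∃ v ∈ big g, restr hol W hWinv γ v ∉ big g) (j : ℕ)
    (hj : ∀ γ ∈ derivedSeries Γ j, ∀ v : E, hol γ v - v ∈ W) :
    ∃ H' : Subgroup Γ, H'.FiniteIndex ∧ Group.IsSolvable (H'.map hol) := by
  have hinj := hdev.injective
  set B := restr hol W hWinv with hBdef
  have hlinW : ∀ n ∈ derivedSeries Γ j, ∀ v : E, (hol n).linear v - v ∈ W := by
    intro n hn v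
    have h1 := hj n hn v
    have h2 := hj n hn 0
    have h3 := lin_zero (hol n) v
    have h4 : (hol n).linear v - v = (hol n v - v) - (hol n 0 - 0) := by
      rw [h3]
      abel
    rw [h4]
    exact Submodule.sub_mem _ h1 h2
  have hnofix : ∀ γ : Γ, γ ≠ 1 → ∀ x : E, hol γ x ≠ x := by
    intro γ hγ x hx
    obtain ⟨y, rfl⟩ := hdev.surjective x
    rw [← D.equi] at hx
    exact hγ (hfree γ y (hinj hx))
  have hV : ∃ v : W, v ≠ 0 := by
    have h1 : 0 < Module.finrank ℝ W := by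
      rw [hdim]
      have := hA.pos
      omega
    have := Module.finrank_pos_iff.1 h1
    exact exists_ne 0
  -- fixed vectors
  have hvec : ∀ γ ∈ derivedSeries Γ j, ∃ v : W, v ≠ 0 ∧ B γ v = v := by
    intro γ hγ
    by_cases h1 : γ = 1
    · obtain ⟨v, hv⟩ := hV
      refine ⟨v, hv, ?_⟩
      rw [h1, map_one]
      rfl
    by_contra hno
    push Not at hno
    let A : W →ₗ[ℝ] W := (B γ : W →ₗ[ℝ] W) - LinearMap.id
    have hA : Function.Injective A := by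
      rw [injective_iff_map_eq_zero]
      intro v hv
      by_contra hv0
      apply hno v hv0
      have : B γ v - v = 0 := hv
      exact sub_eq_zero.mp this
    have hAs : Function.Surjective A := LinearMap.injective_iff_surjective.mp hA
    have h0 : hol γ 0 ∈ W := by
      have := hj γ hγ 0
      rwa [sub_zero] at this
    obtain ⟨v, hv⟩ := hAs (-⟨hol γ 0, h0⟩)
    apply hnofix γ h1 (v : E)
    have h2 : B γ v - v = -⟨hol γ 0, h0⟩ := hv
    have h3 : ((B γ v : W) : E) - v = -hol γ 0 := congrArg Subtype.val h2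
    rw [lin_zero]
    have h4 : (hol γ).linear (v : E) - v = -hol γ 0 := h3
    rw [eq_comm, ← sub_eq_zero]
    have h5 : (v : E) - ((hol γ).linear (v : E) + hol γ 0) =
        -(((hol γ).linear (v : E) - v) + hol γ 0) := by abel
    rw [h5, h4, neg_add_cancel, neg_zero]
  let ΛM : Subgroup (W ≃ₗ[ℝ] W) := (derivedSeries Γ j).map B
  have hsub : ∀ A ∈ ΛM, A ∈ Λ := by
    rintro _ ⟨γ, -, rfl⟩
    exact hΛ γ
  have hAM : Anti q ΛM := ⟨hA.pos, fun g hg => hA.div g fun i => hsub _ (hg i),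
    fun g h hg hh => hA.anti g h (fun i => hsub _ (hg i)) fun i => hsub _ (hh i)⟩
  have hbd : (∃ C : ℝ, ∀ n ∈ derivedSeries Γ j, ∀ v : W, ‖B n v‖ ≤ C * ‖v‖) →
      ∃ H' : Subgroup Γ, H'.FiniteIndex ∧ Group.IsSolvable (H'.map hol) := by
    rintro ⟨C, hC⟩
    exact solv_of_derived vs2 X Γ E dev hol D hinj W hWinv j C hlinW fun n hn v hv =>
      hC n hn ⟨v, hv⟩
  by_cases hp : ∃ k ∈ Plt q ΛM, ∃ c ∈ ΛM, ∃ x ∈ range k, c x ∉ range k
  · exfalso
    obtain ⟨_, ⟨γ, hγ, rfl⟩, hf⟩ := hNF W q ΛM hAM hdim hp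
    obtain ⟨v, hv, hv'⟩ := hvec γ hγ
    exact hv (hf v hv')
  · push Not at hp
    rcases (Plt q ΛM).eq_empty_or_nonempty with hemp | ⟨k0, hk0⟩
    · obtain ⟨C, hC⟩ := bdd_of_not_div ΛM fun g hg hdiv => by
        obtain ⟨φ, -, hφ⟩ := hAM.div g hg hdiv
        obtain ⟨k, hk, hk'⟩ := hPAR W q (big (g ∘ φ)) hφ.2
        have : k ∈ Plt q ΛM := ⟨hk, g ∘ φ, fun j => hg _, hφ, hk'⟩
        rw [hemp] at this
        exact this
      exact hbd ⟨C, fun n hn => hC _ ⟨n, hn, rfl⟩⟩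
    · have hsubP : ∀ k ∈ Plt q ΛM, k ∈ Plt q Λ := by
        rintro k ⟨h1, g, hg, hfl, hk⟩
        exact ⟨h1, g, fun i => hsub _ (hg i), hfl, hk⟩
      have hfix0 : ∀ n ∈ derivedSeries Γ j, Pres (B n) k0 := by
        intro n hn u
        constructor
        · intro hu
          exact hp k0 hk0 (B n)⁻¹ (ΛM.inv_mem ⟨n, hn, rfl⟩) u hu
        · intro hu
          have := hp k0 hk0 (B n) ⟨n, hn, rfl⟩ _ hu
          rwa [LinearEquiv.apply_symm_apply] at this
      have hnorm : (derivedSeries Γ j).Normal := inferInstance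
      rcases elem_cases' (B := B) (P := Plt q Λ) (fun γ k hk => hIM W q Λ hA _ (hΛ γ) k hk)
        (derivedSeries Γ j) (hsubP k0 hk0) hfix0 with
        ⟨H, hH, hk⟩ | ⟨k1, hk1, k2, hk2, a1, a2, a3, b1, b2⟩
      · exfalso
        obtain ⟨-, g, hg, hfl, hr⟩ := hsubP k0 hk0
        obtain ⟨γ, hγ, v, hv, hv'⟩ := hN g hg hfl H hH
        apply hv'
        rw [← hr, hk γ hγ, LinearEquiv.symm_apply_apply, hr]
        exact hv
      · obtain ⟨C, hC⟩ := hTHREE W q Λ hA k0 (hsubP k0 hk0) k1 hk1 k2 hk2 a1 a2 a3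
        exact hbd ⟨C, fun n hn => hC _ (hΛ n) (hfix0 n hn) (b1 n hn) (b2 n hn)⟩

/-- virtual solvability -/
theorem anti_solv (hPAR : S2_PAR) (hCPT : S2_CPT) (hFAM : S2_FAM) (hIM : S2_IM) (hLOW : S2_LOW)
    (hTHREE : S2_THREE) (hNF : S3_NOFIX) (X Γ E : Type) [NormedAddCommGroup E] [NormedSpace ℝ E]
    [FiniteDimensional ℝ E] [TopologicalSpace X] [T2Space X] [SecondCountableTopology X]
    [ConnectedSpace X] [Group Γ] [MulAction Γ X] (dev : X → E) (hol : Γ →* (E ≃ᵃ[ℝ] E))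
    (D : AffData X Γ E dev hol) (hinj : Function.Injective dev)
    (hfree : ∀ (γ : Γ) (x : X), γ • x = x → γ = 1) (H : Subgroup Γ)
    (hH : H.FiniteIndex) (S : ℕ → Submodule ℝ E) (m : ℕ) (hO : OverFlag hol H S m) (q : ℕ)
    (hA : Anti q (LinOn hol H (S 0))) (hdim : Module.finrank ℝ (S 0) = 2 * q)
    (hE : Elem hol H (S 0) q → ∃ H' : Subgroup Γ, H'.FiniteIndex ∧ H' ≤ H ∧
      Group.IsSolvable (LinOn hol H' (S 0))) (j : ℕ)
    (hj : ∀ γ ∈ derivedSeries H j, ∀ v : E, hol (γ : Γ) v - v ∈ S 0) :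
    IsHomeomorph dev ∧ ∃ H' : Subgroup Γ, H'.FiniteIndex ∧ Group.IsSolvable (H'.map hol) := by
  have hdev := anti_full hPAR hCPT hFAM hIM hLOW hTHREE X Γ E dev hol D hinj H hH S m hO q hA hE j hj
  refine ⟨hdev, ?_⟩
  have hinv0 : ∀ γ ∈ H, ∀ v ∈ S 0, (hol γ).linear v ∈ S 0 := hO.2.2.1 0 (Nat.zero_le m)
  by_cases hel : Elem hol H (S 0) q
  · obtain ⟨H', hH', hle, hs⟩ := hE hel
    exact ⟨H', hH', solv_of_two hol H' (S 0)
      (fun γ hγ => hinv0 γ (hle hγ)) hs j fun γ hγ => hj _ (derived_mono hle j γ hγ)⟩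
  · have hWinv : ∀ γ, ∀ v ∈ S 0, ((hol.comp H.subtype) γ).linear v ∈ S 0 :=
      fun γ v hv => hinv0 γ γ.2 v hv
    obtain ⟨A, hA, hs⟩ := anti_solv0 hPAR hIM hTHREE hNF X H E dev (hol.comp H.subtype)
      (Pool.Agent.Y449.MK.restrict D H hH) hdev
      (fun γ x hx => Subtype.ext (hfree (γ : Γ) x hx)) (S 0) hWinv q (LinOn hol H (S 0))
      (fun γ => ⟨γ, γ.2, fun v => rfl⟩) hA hdim (by
        intro g hg hfl H'' hH''
        by_contra hc
        push Not at hc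
        refine hel ⟨g, hg, hfl, H''.map H.subtype, ?_, Subgroup.map_subtype_le H'', ?_⟩
        · refine ⟨?_⟩
          rw [Subgroup.index_map_subtype]
          exact mul_ne_zero hH''.index_ne_zero hH.index_ne_zero
        · rintro A ⟨_, ⟨γ, hγ, rfl⟩, hA'⟩ v hv
          have e1 : restr (hol.comp H.subtype) (S 0) hWinv γ = A := by
            refine LinearEquiv.ext fun v => Subtype.ext ?_
            exact hA' v
          rw [← e1]
          exact hc γ hγ v hv) j hj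
    refine ⟨A.map H.subtype, ?_, ?_⟩
    · refine ⟨?_⟩
      rw [Subgroup.index_map_subtype]
      exact mul_ne_zero hA.index_ne_zero hH.index_ne_zero
    · rw [Subgroup.map_map]
      exact hs

end Pool.Agent.N520.AN
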