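import Mathlib

/-!
Project AN (Markus conjecture): divergent antipodal (for example Anosov) linear holonomy.
Definitions and exact statements of the parts.
-/

set_option autoImplicit false

open Set Filter Topology

namespace Pool.Agent.N520.AN

section
variable {E : Type} [NormedAddCommGroup E] [NormedSpace ℝ E]

/-- the attracting space of a sequence of linear automorphisms: the limits of the sequences
`g j (b j)` with `b j → 0` -/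
def att (g : ℕ → E ≃ₗ[ℝ] E) : Submodule ℝ E where
  carrier := {v | ∃ b : ℕ → E, Tendsto b atTop (𝓝 0) ∧ Tendsto (fun j => g j (b j)) atTop (𝓝 v)}
  add_mem' := by
    rintro v w ⟨b, hb, hv⟩ ⟨c, hc, hw⟩
    refine ⟨fun j => b j + c j, by simpa using hb.add hc, ?_⟩
    simpa using hv.add hw
  zero_mem' := ⟨fun _ => 0, tendsto_const_nhds, by simpa using tendsto_const_nhds⟩
  smul_mem' := by
    rintro a v ⟨b, hb, hv⟩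
    refine ⟨fun j => a • b j, by simpa using hb.const_smul a, ?_⟩
    simpa using hv.const_smul a

/-- the norms tend to infinity -/
def Div (g : ℕ → E ≃ₗ[ℝ] E) : Prop :=
  ∃ v : ℕ → E, (∀ j, ‖v j‖ ≤ 1) ∧ Tendsto (fun j => ‖g j (v j)‖) atTop atTop

/-- a divergent antipodal group, with respect to isotropic subspaces of dimension `q` -/
structure Antip (B : E →ₗ[ℝ] E →ₗ[ℝ] ℝ) (q : ℕ) (Λ : Subgroup (E ≃ₗ[ℝ] E)) : Prop where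
  refl : ∀ v w, B v w = 0 → B w v = 0
  nondeg : ∀ v, (∀ w, B v w = 0) → v = 0
  pres : ∀ g ∈ Λ, ∀ v w, B (g v) (g w) = B v w
  pos : 0 < q
  le : ∀ g : ℕ → E ≃ₗ[ℝ] E, (∀ j, g j ∈ Λ) → Module.finrank ℝ (att g) ≤ q
  div : ∀ g : ℕ → E ≃ₗ[ℝ] E, (∀ j, g j ∈ Λ) → Div g →
    ∃ φ : ℕ → ℕ, StrictMono φ ∧ Module.finrank ℝ (att (g ∘ φ)) = q
  anti : ∀ g h : ℕ → E ≃ₗ[ℝ] E, (∀ j, g j ∈ Λ) → (∀ j, h j ∈ Λ) → Module.finrank ℝ (att g) = q →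
    Module.finrank ℝ (att h) = q → att g = att h ∨ ∀ v ∈ att g, (∀ w ∈ att h, B v w = 0) → v = 0

variable [FiniteDimensional ℝ E]

/-- the plates: normalized parametrizations of the orthogonal spaces of the limit spaces -/
def Pl (B : E →ₗ[ℝ] E →ₗ[ℝ] ℝ) (q : ℕ) (Λ : Subgroup (E ≃ₗ[ℝ] E)) :
    Set (EuclideanSpace ℝ (Fin (Module.finrank ℝ E - q)) →L[ℝ] E) :=
  {k | (∀ f, ‖toEuclidean (k f)‖ = ‖f‖) ∧ ∃ g : ℕ → E ≃ₗ[ℝ] E, (∀ j, g j ∈ Λ) ∧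
    Module.finrank ℝ (att g) = q ∧ ∀ x, x ∈ range k ↔ ∀ v ∈ att g, B x v = 0}

end

/-- the orthogonal space of a limit space is a plate -/
def S_EX : Prop := ∀ (E : Type) [NormedAddCommGroup E] [NormedSpace ℝ E] [FiniteDimensional ℝ E]
  (B : E →ₗ[ℝ] E →ₗ[ℝ] ℝ) (q : ℕ) (Λ : Subgroup (E ≃ₗ[ℝ] E)), Antip B q Λ →
  ∀ g : ℕ → E ≃ₗ[ℝ] E, (∀ j, g j ∈ Λ) → Module.finrank ℝ (att g) = q →
  ∃ k ∈ Pl B q Λ, ∀ x, x ∈ range k ↔ ∀ v ∈ att g, B x v = 0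

/-- the set of plates is compact -/
def S_CPT : Prop := ∀ (E : Type) [NormedAddCommGroup E] [NormedSpace ℝ E] [FiniteDimensional ℝ E]
  (B : E →ₗ[ℝ] E →ₗ[ℝ] ℝ) (q : ℕ) (Λ : Subgroup (E ≃ₗ[ℝ] E)), Antip B q Λ → IsCompact (Pl B q Λ)

/-- any two plates are equal or transversal -/
def S_FAM : Prop := ∀ (E : Type) [NormedAddCommGroup E] [NormedSpace ℝ E] [FiniteDimensional ℝ E]
  (B : E →ₗ[ℝ] E →ₗ[ℝ] ℝ) (q : ℕ) (Λ : Subgroup (E ≃ₗ[ℝ] E)), Antip B q Λ →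
  ∀ k ∈ Pl B q Λ, ∀ l ∈ Pl B q Λ, range k = range l ∨ ∀ e : E, ∃ f f', k f - l f' = e

/-- the images of plates are plates -/
def S_IM : Prop := ∀ (E : Type) [NormedAddCommGroup E] [NormedSpace ℝ E] [FiniteDimensional ℝ E]
  (B : E →ₗ[ℝ] E →ₗ[ℝ] ℝ) (q : ℕ) (Λ : Subgroup (E ≃ₗ[ℝ] E)), Antip B q Λ →
  ∀ g ∈ Λ, ∀ k ∈ Pl B q Λ, ∃ l ∈ Pl B q Λ, ∀ u, u ∈ range l ↔ g.symm u ∈ range k

/-- the elements of the group expand some plate -/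
def S_LOW : Prop := ∀ (E : Type) [NormedAddCommGroup E] [NormedSpace ℝ E] [FiniteDimensional ℝ E]
  (B : E →ₗ[ℝ] E →ₗ[ℝ] ℝ) (q : ℕ) (Λ : Subgroup (E ≃ₗ[ℝ] E)), Antip B q Λ →
  (∀ g : ℕ → E ≃ₗ[ℝ] E, (∀ j, g j ∈ Λ) → Module.finrank ℝ (att g) = q →
    ∃ h ∈ Λ, ∃ v ∈ att g, h v ∉ att g) → (Pl B q Λ).Nonempty →
  ∃ δ : ℝ, 0 < δ ∧ ∀ g ∈ Λ, ∃ k ∈ Pl B q Λ, ∀ f, δ * ‖g.symm (k f)‖ ≤ ‖k f‖

end Pool.Agent.N520.AN
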