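import Pool.Agent.N520.AN.Sl
import Pool.Agent.W689.Mk.Star

/-!
Project AN, fourth part: linear holonomy preserving two complementary planes.
-/

set_option autoImplicit false

open Set Filter Topology Metric
open Pool.Agent.W689.Mk Pool.Agent.TH94.MK Pool.Agent.R522.Mk.Rk Pool.Agent.TH569.MK
open Pool.Agent.N520.RO

namespace Pool.Agent.N520.AN

/-- approximation of boundary points -/
theorem good_seq {X Γ E : Type} [NormedAddCommGroup E] [NormedSpace ℝ E]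
    [FiniteDimensional ℝ E] [TopologicalSpace X] [T2Space X] [SecondCountableTopology X]
    [Group Γ] [MulAction Γ X] {dev : X → E} {hol : Γ →* (E ≃ᵃ[ℝ] E)}
    (D : AffData X Γ E dev hol) (hinj : Function.Injective dev) {p : E}
    (hp : p ∈ closure (range dev)) (hpΩ : p ∉ range dev) :
    ∃ (r : ℝ) (x : ℕ → E) (γ : ℕ → Γ), 0 < r ∧ Tendsto x atTop (𝓝 p) ∧
      (∀ j w, ‖w‖ ≤ r → x j + (hol (γ j)).linear w ∈ range dev) ∧
      ∀ (φ : ℕ → ℕ) (w : ℕ → E) (v : E), StrictMono φ → (∀ j, ‖w j‖ ≤ r) →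
        Tendsto (fun j => (hol (γ (φ j))).linear (w j)) atTop (𝓝 v) → p + v ∉ range dev := by
  have : ProperSpace E := FiniteDimensional.proper_real E
  set Ω : Set E := range dev with hΩdef
  have hΩ : IsOpen Ω := D.loc.isOpenMap.isOpen_range
  have hinv := range_inv D
  have hpd := range_pd D hinj
  obtain ⟨C0, hC0, hC0Ω, hcc⟩ := range_cc D
  obtain ⟨r, hr, hrΩ⟩ := hC0.exists_cthickening_subset_open hΩ hC0Ω
  obtain ⟨a, haΩ, ha⟩ := mem_closure_iff_seq_limit.1 hp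
  choose γ c hc hγc using fun k => hcc (a k) (haΩ k)
  have hC1 : IsCompact (cthickening r C0) := hC0.cthickening
  have hin : ∀ k (w : E), ‖w‖ ≤ r → c k + w ∈ cthickening r C0 := by
    intro k w hw
    refine mem_cthickening_of_dist_le _ _ _ _ (hc k) ?_
    rw [dist_eq_norm, add_sub_cancel_left]; exact hw
  have hmove : ∀ k (w : E), hol (γ k) (c k + w) = a k + (hol (γ k)).linear w := by
    intro k w
    rw [hol_add, hγc k]
  have claim1 : ∀ q ∈ Ω, ∃ ε > 0, ∀ᶠ k in atTop, ∀ w : E, ‖w‖ ≤ r →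
      a k + (hol (γ k)).linear w ∉ closedBall q ε := by
    intro q hq
    obtain ⟨ε, hε, hεΩ⟩ := Metric.nhds_basis_closedBall.mem_iff.1 (hΩ.mem_nhds hq)
    refine ⟨ε, hε, ?_⟩
    have hC : IsCompact (cthickening r C0 ∪ closedBall q ε) := hC1.union (isCompact_closedBall _ _)
    have hCΩ : cthickening r C0 ∪ closedBall q ε ⊆ Ω := union_subset hrΩ hεΩ
    have hF := hpd _ hC hCΩ
    set G := {γ : Γ | ∃ c ∈ cthickening r C0 ∪ closedBall q ε,
      hol γ c ∈ cthickening r C0 ∪ closedBall q ε} with hFdef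
    have hT : IsCompact (⋃ g ∈ G, hol g '' C0) :=
      hF.isCompact_biUnion fun g _ => hC0.image (hol_cont g)
    have hpT : p ∉ ⋃ g ∈ G, hol g '' C0 := by
      intro hcon
      obtain ⟨g, _, hcon⟩ := mem_iUnion₂.1 hcon
      obtain ⟨c', hc', rfl⟩ := hcon
      exact hpΩ (hinv g c' (hC0Ω hc'))
    have hev : ∀ᶠ k in atTop, a k ∉ ⋃ g ∈ G, hol g '' C0 :=
      ha.eventually (hT.isClosed.isOpen_compl.mem_nhds hpT)
    filter_upwards [hev] with k hk w hw hcon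
    apply hk
    refine mem_iUnion₂.2 ⟨γ k, ?_, c k, hc k, hγc k⟩
    refine ⟨c k + w, Or.inl (hin k w hw), Or.inr ?_⟩
    rw [hmove]; exact hcon
  refine ⟨r, a, γ, hr, ha, ?_, ?_⟩
  · intro j w hw
    rw [← hmove]
    exact hinv _ _ (hrΩ (hin j w hw))
  · intro φ w v hφ hw hv hq
    obtain ⟨ε, hε, hev⟩ := claim1 _ hq
    have h1 : Tendsto (fun k => a (φ k) + (hol (γ (φ k))).linear (w k)) atTop (𝓝 (p + v)) :=
      (ha.comp hφ.tendsto_atTop).add hv
    obtain ⟨k, hk1, hk2⟩ := ((h1.eventually (closedBall_mem_nhds _ hε)).and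
      (hφ.tendsto_atTop.eventually hev)).exists
    exact hk2 (w k) (hw k) hk1

/-- a convex image is everything -/
theorem convex_complete {X Γ E : Type} [NormedAddCommGroup E] [NormedSpace ℝ E]
    [FiniteDimensional ℝ E] [TopologicalSpace X] [T2Space X] [SecondCountableTopology X]
    [Nonempty X] [Group Γ] [MulAction Γ X] {dev : X → E} {hol : Γ →* (E ≃ᵃ[ℝ] E)}
    (D : AffData X Γ E dev hol) (hinj : Function.Injective dev) (hc : Convex ℝ (range dev)) :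
    IsHomeomorph dev := by
  obtain ⟨x⟩ := (inferInstance : Nonempty X)
  have h1 : range dev = univ := star_univ D (mem_range_self x) (hc.starConvex (mem_range_self x))
    (range_inv D)
  exact ⟨D.loc.continuous, D.loc.isOpenMap, hinj, range_eq_univ.1 h1⟩

section lines
variable {E : Type} [NormedAddCommGroup E] [NormedSpace ℝ E] [FiniteDimensional ℝ E]

/-- two different lines of a plane span it -/
theorem sup_lines {V K M : Submodule ℝ E} (hV : Module.finrank ℝ V = 2) (hK : K ≤ V) (hM : M ≤ V)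
    (hK1 : Module.finrank ℝ K = 1) (hM1 : Module.finrank ℝ M = 1) (hne : M ≠ K) : K ⊔ M = V := by
  refine Submodule.eq_of_le_of_finrank_le (sup_le hK hM) ?_
  have h1 := Submodule.finrank_sup_add_finrank_inf_eq K M
  have h2 : Module.finrank ℝ (K ⊓ M : Submodule ℝ E) = 0 := by
    by_contra h0
    have h3 : Module.finrank ℝ (K ⊓ M : Submodule ℝ E) ≤ 1 := by
      rw [← hK1]
      exact Submodule.finrank_mono inf_le_left
    have h4 : (K ⊓ M : Submodule ℝ E) = K :=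
      Submodule.eq_of_le_of_finrank_le inf_le_left (by omega)
    have h5 : (K ⊓ M : Submodule ℝ E) = M :=
      Submodule.eq_of_le_of_finrank_le inf_le_right (by omega)
    exact hne (h5.symm.trans h4)
  omega

/-- two points of the first type have a common line -/
theorem tyI_cross {Ω : Set E} {V₁ V₂ : Submodule ℝ E} (hc : IsCompl V₁ V₂)
    (h1 : Module.finrank ℝ V₁ = 2) (h2 : Module.finrank ℝ V₂ = 2) {p p' : E}
    {K₁ K₂ M₁ M₂ : Submodule ℝ E} (h : TyI Ω V₁ V₂ p K₁ K₂) (h' : TyI Ω V₁ V₂ p' M₁ M₂) :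
    M₁ = K₁ ∨ M₂ = K₂ := by
  by_contra hne
  rw [not_or] at hne
  obtain ⟨a1, a2, a3, a4, a5, a6⟩ := h
  obtain ⟨b1, b2, b3, b4, b5, b6⟩ := h'
  have e1 := sup_lines h1 a1 b1 a3 b3 hne.1
  have e2 := sup_lines h2 a2 b2 a4 b4 hne.2
  have e3 : (K₁ ⊔ K₂) ⊔ (M₁ ⊔ M₂) = ⊤ := by
    rw [sup_sup_sup_comm, e1, e2]
    exact hc.sup_eq_top
  obtain ⟨k, hk, m, hm, hkm⟩ : ∃ k ∈ K₁ ⊔ K₂, ∃ m ∈ M₁ ⊔ M₂, k + m = p' - p :=
    Submodule.mem_sup.1 (by rw [e3]; trivial)
  obtain ⟨m', hm', hz⟩ := a6 M₁ b1 M₂ b2 b3 b4 hne.1 hne.2 k hk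
  apply b5 (m' - m) (Submodule.sub_mem _ hm' hm)
  have : p' + (m' - m) = p + k + m' := by
    have h3 : p' = p + (k + m) := by rw [hkm]; abel
    rw [h3]
    abel
  rw [this]
  exact hz

end lines

section group
variable {Γ : Type} [Group Γ]

/-- a group is not the union of two proper subgroups -/
theorem union_two (P Q : Γ → Prop) (hP : ∀ a b, P a → P b → P (a * b)) (hP' : ∀ a, P a → P a⁻¹)
    (hQ : ∀ a b, Q a → Q b → Q (a * b)) (hQ' : ∀ a, Q a → Q a⁻¹) (h : ∀ a, P a ∨ Q a) :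
    (∀ a, P a) ∨ ∀ a, Q a := by
  by_contra hc
  rw [not_or] at hc
  obtain ⟨h1, h2⟩ := hc
  push Not at h1 h2
  obtain ⟨a, ha⟩ := h1
  obtain ⟨b, hb⟩ := h2
  have ha' := (h a).resolve_left ha
  have hb' := (h b).resolve_right hb
  rcases h (a * b) with h3 | h3
  · apply ha
    have := hP _ _ h3 (hP' _ hb')
    rwa [mul_inv_cancel_right] at this
  · apply hb
    have := hQ _ _ (hQ' _ ha') h3
    rwa [inv_mul_cancel_left] at this

end group

section main
variable {X Γ E : Type} [NormedAddCommGroup E] [NormedSpace ℝ E]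
    [FiniteDimensional ℝ E] [TopologicalSpace X] [T2Space X] [SecondCountableTopology X]
    [ConnectedSpace X] [Group Γ] [MulAction Γ X] {dev : X → E} {hol : Γ →* (E ≃ᵃ[ℝ] E)}

theorem lin_mul (γ δ : Γ) (v : E) :
    (hol (γ * δ)).linear v = (hol γ).linear ((hol δ).linear v) := by
  rw [map_mul]
  rfl

theorem lin_inv (γ : Γ) (v : E) : (hol γ⁻¹).linear ((hol γ).linear v) = v := by
  rw [← lin_mul, inv_mul_cancel, map_one]
  rfl

theorem lin_inv' (γ : Γ) (v : E) : (hol γ).linear ((hol γ⁻¹).linear v) = v := by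
  rw [← lin_mul, mul_inv_cancel, map_one]
  rfl

theorem mem_map_lin (γ : Γ) (K : Submodule ℝ E) (v : E) :
    v ∈ K.map ((hol γ).linear : E →ₗ[ℝ] E) ↔ (hol γ⁻¹).linear v ∈ K := by
  constructor
  · rintro ⟨u, hu, rfl⟩
    have : (hol γ⁻¹).linear ((hol γ).linear u) = u := lin_inv γ u
    show (hol γ⁻¹).linear ((hol γ).linear u) ∈ K
    rw [this]
    exact hu
  · intro h
    exact ⟨_, h, lin_inv' γ v⟩

theorem finrank_map_lin (γ : Γ) (K : Submodule ℝ E) :
    Module.finrank ℝ (K.map ((hol γ).linear : E →ₗ[ℝ] E)) = Module.finrank ℝ K :=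
  LinearEquiv.finrank_map_eq (hol γ).linear K

/-- the images of points of the first type -/
theorem tyI_map (D : AffData X Γ E dev hol) {V₁ V₂ : Submodule ℝ E}
    (i1 : ∀ γ, ∀ v ∈ V₁, (hol γ).linear v ∈ V₁) (i2 : ∀ γ, ∀ v ∈ V₂, (hol γ).linear v ∈ V₂)
    {p : E} {K₁ K₂ : Submodule ℝ E} (h : TyI (range dev) V₁ V₂ p K₁ K₂) (γ : Γ) :
    TyI (range dev) V₁ V₂ (hol γ p) (K₁.map ((hol γ).linear : E →ₗ[ℝ] E))
      (K₂.map ((hol γ).linear : E →ₗ[ℝ] E)) := by
  obtain ⟨a1, a2, a3, a4, a5, a6⟩ := h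
  have hsup : ∀ (A B : Submodule ℝ E) (v : E), v ∈ A.map ((hol γ).linear : E →ₗ[ℝ] E) ⊔
      B.map ((hol γ).linear : E →ₗ[ℝ] E) ↔ (hol γ⁻¹).linear v ∈ A ⊔ B := by
    intro A B v
    rw [← Submodule.map_sup, mem_map_lin]
  refine ⟨?_, ?_, ?_, ?_, ?_, ?_⟩
  · rintro _ ⟨v, hv, rfl⟩
    exact i1 γ v (a1 hv)
  · rintro _ ⟨v, hv, rfl⟩
    exact i2 γ v (a2 hv)
  · rw [finrank_map_lin, a3]
  · rw [finrank_map_lin, a4]
  · intro v hv hcon
    rw [hsup] at hv
    apply a5 _ hv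
    have h1 := range_inv D γ⁻¹ _ hcon
    rwa [hol_add, hol_inv_apply] at h1
  · intro M₁ hM₁ M₂ hM₂ f1 f2 n1 n2 v hv
    rw [hsup] at hv
    obtain ⟨m, hm, hz⟩ := a6 (M₁.map ((hol γ⁻¹).linear : E →ₗ[ℝ] E)) (by
        rintro _ ⟨v, hv, rfl⟩
        exact i1 γ⁻¹ v (hM₁ hv)) (M₂.map ((hol γ⁻¹).linear : E →ₗ[ℝ] E)) (by
        rintro _ ⟨v, hv, rfl⟩
        exact i2 γ⁻¹ v (hM₂ hv)) (by rw [finrank_map_lin, f1]) (by rw [finrank_map_lin, f2])
      (by
        intro h0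
        apply n1
        ext u
        rw [mem_map_lin, ← h0, mem_map_lin, inv_inv, lin_inv']) (by
        intro h0
        apply n2
        ext u
        rw [mem_map_lin, ← h0, mem_map_lin, inv_inv, lin_inv']) _ hv
    refine ⟨(hol γ).linear m, ?_, ?_⟩
    · rw [← Submodule.map_sup, mem_map_lin, inv_inv] at hm
      exact hm
    · have h1 := range_inv D γ _ hz
      rw [hol_add, hol_add] at h1
      have h2 : lin hol γ ((hol γ⁻¹).linear v) = v := lin_inv' γ v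
      rwa [h2] at h1

/-- a point of the first type gives an invariant line -/
theorem tyI_line (D : AffData X Γ E dev hol) {V₁ V₂ : Submodule ℝ E} (hc : IsCompl V₁ V₂)
    (h1 : Module.finrank ℝ V₁ = 2) (h2 : Module.finrank ℝ V₂ = 2)
    (i1 : ∀ γ, ∀ v ∈ V₁, (hol γ).linear v ∈ V₁) (i2 : ∀ γ, ∀ v ∈ V₂, (hol γ).linear v ∈ V₂)
    {p : E} {K₁ K₂ : Submodule ℝ E} (h : TyI (range dev) V₁ V₂ p K₁ K₂) :
    (∀ γ, ∀ v ∈ K₁, (hol γ).linear v ∈ K₁) ∨ ∀ γ, ∀ v ∈ K₂, (hol γ).linear v ∈ K₂ := by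
  have key : ∀ K : Submodule ℝ E, ∀ γ : Γ, (∀ v ∈ K, (hol γ).linear v ∈ K) →
      ∀ v ∈ K, (hol γ⁻¹).linear v ∈ K := by
    intro K γ hK v hv
    have e1 : K.map ((hol γ).linear : E →ₗ[ℝ] E) = K := by
      refine Submodule.eq_of_le_of_finrank_le ?_ ?_
      · rintro _ ⟨u, hu, rfl⟩
        exact hK u hu
      · rw [finrank_map_lin]
    rw [← mem_map_lin, e1]
    exact hv
  have hpm : ∀ K : Submodule ℝ E, ∀ γ δ : Γ, (∀ v ∈ K, (hol γ).linear v ∈ K) →
      (∀ v ∈ K, (hol δ).linear v ∈ K) → ∀ v ∈ K, (hol (γ * δ)).linear v ∈ K := by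
    intro K γ δ hγ hδ v hv
    rw [lin_mul]
    exact hγ _ (hδ v hv)
  refine union_two (fun γ => ∀ v ∈ K₁, (hol γ).linear v ∈ K₁)
    (fun γ => ∀ v ∈ K₂, (hol γ).linear v ∈ K₂) (hpm K₁) (key K₁) (hpm K₂) (key K₂) fun γ => ?_
  rcases tyI_cross hc h1 h2 h (tyI_map D i1 i2 h γ) with h3 | h3
  · left
    intro v hv
    have : (hol γ).linear v ∈ K₁.map ((hol γ).linear : E →ₗ[ℝ] E) := ⟨v, hv, rfl⟩
    rwa [h3] at this
  · right
    intro v hv
    have : (hol γ).linear v ∈ K₂.map ((hol γ).linear : E →ₗ[ℝ] E) := ⟨v, hv, rfl⟩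
    rwa [h3] at this

end main

end Pool.Agent.N520.AN
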