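import Pool.Agent.N520.AN.TwoP

/-!
Project AN, fourth part: linear holonomy preserving two complementary planes, main theorem.
-/

set_option autoImplicit false

open Set Filter Topology Metric
open Pool.Agent.W689.Mk Pool.Agent.TH94.MK Pool.Agent.R522.Mk.Rk Pool.Agent.TH569.MK
open Pool.Agent.N520.RO

namespace Pool.Agent.N520.AN

section main
variable {X Γ E : Type} [NormedAddCommGroup E] [NormedSpace ℝ E]
    [FiniteDimensional ℝ E] [TopologicalSpace X] [T2Space X] [SecondCountableTopology X]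
    [ConnectedSpace X] [Group Γ] [MulAction Γ X] {dev : X → E} {hol : Γ →* (E ≃ᵃ[ℝ] E)}

/-- solvable on `V₁`: a derived subgroup acts trivially modulo `V₂` -/
theorem solv_mod (H : Subgroup Γ) {V₁ V₂ : Submodule ℝ E} (hc : IsCompl V₁ V₂)
    (i1 : ∀ γ ∈ H, ∀ v ∈ V₁, (hol γ).linear v ∈ V₁) (i2 : ∀ γ ∈ H, ∀ v ∈ V₂, (hol γ).linear v ∈ V₂)
    (hs : Group.IsSolvable (LinOn hol H V₁)) :
    ∃ j, ∀ γ ∈ derivedSeries H j, ∀ v : E, hol (γ : Γ) v - v ∈ V₂ := by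
  obtain ⟨n, hn⟩ := hs
  have hW' : ∀ γ, ∀ v ∈ V₁, ((hol.comp H.subtype) γ).linear v ∈ V₁ := fun γ v hv => i1 γ γ.2 v hv
  let φ : H →* LinOn hol H V₁ := (restr (hol.comp H.subtype) V₁ hW').codRestrict (LinOn hol H V₁)
    fun γ => ⟨γ, γ.2, fun v => rfl⟩
  have h1 : ∀ γ ∈ derivedSeries H n, ∀ w ∈ V₁, (hol (γ : Γ)).linear w = w := by
    intro γ hγ w hw
    have h2 : φ γ ∈ derivedSeries (LinOn hol H V₁) n :=
      map_derivedSeries_le_derivedSeries φ n ⟨γ, hγ, rfl⟩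
    rw [hn, Subgroup.mem_bot] at h2
    have h3 : restr (hol.comp H.subtype) V₁ hW' γ = 1 := congrArg Subtype.val h2
    have h4 : restr (hol.comp H.subtype) V₁ hW' γ ⟨w, hw⟩ = ⟨w, hw⟩ := by
      rw [h3]; rfl
    exact congrArg Subtype.val h4
  have h2 : ∀ γ ∈ derivedSeries H n, ∀ d : E, (hol (γ : Γ)).linear d - d ∈ V₂ := by
    intro γ hγ d
    obtain ⟨a, ha, b, hb, rfl⟩ : ∃ a ∈ V₁, ∃ b ∈ V₂, a + b = d :=
      Submodule.mem_sup.1 (by rw [hc.sup_eq_top]; trivial)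
    rw [map_add, h1 γ hγ a ha, add_sub_add_left_eq_sub]
    exact Submodule.sub_mem _ (i2 γ γ.2 b hb) hb
  let N : Subgroup H :=
    { carrier := {γ | ∀ v : E, hol (γ : Γ) v - v ∈ V₂}
      one_mem' := by
        intro v
        show hol ((1 : H) : Γ) v - v ∈ V₂
        rw [Subgroup.coe_one, map_one]
        show v - v ∈ V₂
        rw [sub_self]
        exact Submodule.zero_mem _
      mul_mem' := by
        intro a b ha hb v
        have h3 := Submodule.add_mem _ (ha (hol (b : Γ) v)) (hb v)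
        rw [sub_add_sub_cancel] at h3
        show hol ((a * b : H) : Γ) v - v ∈ V₂
        rw [Subgroup.coe_mul, map_mul]
        exact h3
      inv_mem' := by
        intro a ha v
        have h3 := Submodule.neg_mem _ (ha (hol (a : Γ)⁻¹ v))
        rw [hol_apply_inv, neg_sub] at h3
        exact h3 }
  refine ⟨n + 1, ?_⟩
  have hle : derivedSeries H (n + 1) ≤ N := by
    rw [derivedSeries_succ, Subgroup.commutator_le]
    intro γ hγ δ hδ v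
    show hol ((γ * δ * γ⁻¹ * δ⁻¹ : H) : Γ) v - v ∈ V₂
    set x := hol ((δ : Γ) * γ)⁻¹ v with hx
    have e1 : hol ((δ : Γ) * γ) x = v := hol_apply_inv _ _
    have e2 : hol ((γ * δ * γ⁻¹ * δ⁻¹ : H) : Γ) v = hol ((γ : Γ) * δ) x := by
      have h6 : ((γ * δ * γ⁻¹ * δ⁻¹ : H) : Γ) = ((γ : Γ) * δ) * ((δ : Γ) * γ)⁻¹ := by
        rw [mul_inv_rev]
        simp [mul_assoc]
      rw [h6, map_mul]
      rfl
    rw [e2, ← e1]
    have key : ∀ γ ∈ derivedSeries H n, ∀ δ : H,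
        hol ((γ : Γ) * δ) x - (hol (γ : Γ) x + hol (δ : Γ) x - x) ∈ V₂ := by
      intro γ hγ δ
      have a3 : hol (γ : Γ) (x + (hol (δ : Γ) x - x)) =
          hol (γ : Γ) x + (hol (γ : Γ)).linear (hol (δ : Γ) x - x) := hol_add _ _ _
      have a4 : x + (hol (δ : Γ) x - x) = hol (δ : Γ) x := by abel
      rw [a4] at a3
      have a5 : hol ((γ : Γ) * δ) x = hol (γ : Γ) (hol (δ : Γ) x) := by
        rw [map_mul]
        rfl
      have a6 := h2 γ hγ (hol (δ : Γ) x - x)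
      have a7 : hol ((γ : Γ) * δ) x - (hol (γ : Γ) x + hol (δ : Γ) x - x) =
          (hol (γ : Γ)).linear (hol (δ : Γ) x - x) - (hol (δ : Γ) x - x) := by
        rw [a5, a3]
        abel
      rw [a7]
      exact a6
    have h7 := Submodule.sub_mem _ (key γ hγ δ) (key δ hδ γ)
    have h8 : hol ((γ : Γ) * δ) x - (hol (γ : Γ) x + hol (δ : Γ) x - x) -
        (hol ((δ : Γ) * γ) x - (hol (δ : Γ) x + hol (γ : Γ) x - x)) =
        hol ((γ : Γ) * δ) x - hol ((δ : Γ) * γ) x := by abel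
    rwa [h8] at h7
  exact fun γ hγ => hle hγ

/-- the boundary points -/
theorem bdry_types (hTYP : S4_TYP) (D : AffData X Γ E dev hol) (hinj : Function.Injective dev)
    {V₁ V₂ : Submodule ℝ E} (hc : IsCompl V₁ V₂)
    (h1 : Module.finrank ℝ V₁ = 2) (h2 : Module.finrank ℝ V₂ = 2)
    (i1 : ∀ γ, ∀ v ∈ V₁, (hol γ).linear v ∈ V₁) (i2 : ∀ γ, ∀ v ∈ V₂, (hol γ).linear v ∈ V₂)
    (d1 : ∀ A ∈ LinOn hol ⊤ V₁, |LinearMap.det (A : V₁ →ₗ[ℝ] V₁)| = 1)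
    (d2 : ∀ A ∈ LinOn hol ⊤ V₂, |LinearMap.det (A : V₂ →ₗ[ℝ] V₂)| = 1)
    {p : E} (hp : p ∈ closure (range dev)) (hp' : p ∉ range dev) :
    (∃ N : Submodule ℝ E, Module.finrank ℝ N + 1 = Module.finrank ℝ E ∧
      ∃ ε : ℝ, 0 < ε ∧ ∀ v ∈ N, ‖v‖ < ε → p + v ∉ range dev) ∨
    ∃ K₁ K₂ : Submodule ℝ E, TyI (range dev) V₁ V₂ p K₁ K₂ := by
  obtain ⟨r, x, γ, hr, hx, a1, a2⟩ := good_seq D hinj hp hp'
  exact hTYP E V₁ V₂ hc h1 h2 (LinOn hol ⊤ V₁) (LinOn hol ⊤ V₂) d1 d2 (range dev) p x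
    (fun j => (hol (γ j)).linear) r hr hx
    (fun j => ⟨restr hol V₁ i1 (γ j), ⟨γ j, trivial, fun v => rfl⟩, fun v => rfl⟩)
    (fun j => ⟨restr hol V₂ i2 (γ j), ⟨γ j, trivial, fun v => rfl⟩, fun v => rfl⟩) a1 a2

theorem finrank_comap {V l : Submodule ℝ E} (hl : l ≤ V) :
    Module.finrank ℝ (l.comap V.subtype) = Module.finrank ℝ l :=
  (Submodule.comapSubtypeEquivOfLe hl).finrank_eq

theorem solv_line (hTRI : S4_TRI) (H : Subgroup Γ) {V l : Submodule ℝ E}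
    (hV : Module.finrank ℝ V = 2) (hl : l ≤ V) (hl1 : Module.finrank ℝ l = 1)
    (hinv : ∀ γ ∈ H, ∀ v ∈ l, (hol γ).linear v ∈ l) : Group.IsSolvable (LinOn hol H V) := by
  refine hTRI V hV _ (l.comap V.subtype) (by rw [finrank_comap hl, hl1]) ?_
  rintro A ⟨γ, hγ, hA⟩ v hv
  show ((A v : V) : E) ∈ l
  rw [← hA]
  exact hinv γ hγ _ hv

theorem derived_top (j : ℕ) (γ : Γ) (hγ : γ ∈ derivedSeries Γ j) :
    (⟨γ, trivial⟩ : (⊤ : Subgroup Γ)) ∈ derivedSeries (⊤ : Subgroup Γ) j :=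
  map_derivedSeries_le_derivedSeries (Subgroup.topEquiv (G := Γ)).symm.toMonoidHom j ⟨γ, hγ, rfl⟩

/-- the case of an invariant line in one plane -/
theorem half (hPL : S4_PL) (hSTAR : S4_STAR) (hTRI : S4_TRI) (hTYP : S4_TYP)
    (D : AffData X Γ E dev hol) (hinj : Function.Injective dev)
    {V₁ V₂ : Submodule ℝ E} (hc : IsCompl V₁ V₂)
    (h1 : Module.finrank ℝ V₁ = 2) (h2 : Module.finrank ℝ V₂ = 2)
    (i1 : ∀ γ, ∀ v ∈ V₁, (hol γ).linear v ∈ V₁) (i2 : ∀ γ, ∀ v ∈ V₂, (hol γ).linear v ∈ V₂)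
    (d1 : ∀ A ∈ LinOn hol ⊤ V₁, |LinearMap.det (A : V₁ →ₗ[ℝ] V₁)| = 1)
    (d2 : ∀ A ∈ LinOn hol ⊤ V₂, |LinearMap.det (A : V₂ →ₗ[ℝ] V₂)| = 1)
    {l : Submodule ℝ E} (hl : l ≤ V₁) (hl1 : Module.finrank ℝ l = 1)
    (hinvl : ∀ γ, ∀ v ∈ l, (hol γ).linear v ∈ l) : IsHomeomorph dev := by
  by_cases hex : ∃ H' : Subgroup Γ, H'.FiniteIndex ∧ ∃ l2 ≤ V₂, Module.finrank ℝ l2 = 1 ∧
      ∀ γ ∈ H', ∀ v ∈ l2, (hol γ).linear v ∈ l2
  · obtain ⟨H', hH', l2, hl2, hl21, hinv2⟩ := hex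
    obtain ⟨j, hj⟩ := solv_mod H' hc (fun γ _ => i1 γ) (fun γ _ => i2 γ)
      (solv_line hTRI H' h1 hl hl1 fun γ _ => hinvl γ)
    exact complete_of_solv' X Γ E dev hol D hinj H' hH' (solv_of_two hol H' V₂
      (fun γ _ => i2 γ) (solv_line hTRI H' h2 hl2 hl21 hinv2) j hj)
  obtain ⟨j, hj⟩ := solv_mod (⊤ : Subgroup Γ) hc (fun γ _ => i1 γ) (fun γ _ => i2 γ)
    (solv_line hTRI ⊤ h1 hl hl1 fun γ _ => hinvl γ)
  rcases anti_slices X Γ E dev hol D hinj V₂ i2 1 (LinOn hol ⊤ V₂) (by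
      intro A
      constructor
      · rintro ⟨γ, -, hA⟩
        refine ⟨γ, LinearEquiv.ext fun v => Subtype.ext ?_⟩
        exact hA v
      · rintro ⟨γ, rfl⟩
        exact ⟨γ, trivial, fun v => rfl⟩) (hPL V₂ h2 _ d2) (by
      intro g hg hfl H' hH'
      by_contra hcon
      push Not at hcon
      apply hex
      refine ⟨H', hH', (big g).map V₂.subtype, Submodule.map_subtype_le _ _, ?_, ?_⟩
      · rw [Submodule.finrank_map_subtype_eq]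
        have := hfl.2
        omega
      · rintro γ hγ _ ⟨v, hv, rfl⟩
        exact ⟨_, hcon γ hγ v hv, rfl⟩) j (fun γ hγ v => hj _ (derived_top j γ hγ) v) with h | hfull
  · exact h
  · refine convex_complete D hinj (hSTAR E (range dev) D.loc.isOpenMap.isOpen_range
      (isConnected_range D.loc.continuous) fun p hp hp' => ?_)
    rcases bdry_types hTYP D hinj hc h1 h2 i1 i2 d1 d2 hp hp' with h | ⟨K₁, K₂, a1, a2, a3, a4, a5, -⟩
    · exact h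
    · refine ⟨K₁ ⊔ V₂, ?_, 1, one_pos, ?_⟩
      · have e1 := Submodule.finrank_sup_add_finrank_inf_eq K₁ V₂
        have e2 : (K₁ ⊓ V₂ : Submodule ℝ E) = ⊥ := by
          rw [← le_bot_iff, ← hc.inf_eq_bot]
          exact inf_le_inf_right _ a1
        have e3 := Submodule.finrank_add_eq_of_isCompl hc
        rw [e2, finrank_bot] at e1
        omega
      · intro v hv _ hcon
        obtain ⟨k, hk, w, hw, rfl⟩ := Submodule.mem_sup.1 hv
        apply a5 k (Submodule.mem_sup_left hk)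
        have := hfull _ hcon (-w) (V₂.neg_mem hw)
        rwa [← add_assoc, add_neg_cancel_right] at this

/-- two planes, for the whole group -/
theorem two_planes0 (hPL : S4_PL) (hSTAR : S4_STAR) (hTRI : S4_TRI) (hTYP : S4_TYP)
    (D : AffData X Γ E dev hol) (hinj : Function.Injective dev)
    {V₁ V₂ : Submodule ℝ E} (hc : IsCompl V₁ V₂)
    (h1 : Module.finrank ℝ V₁ = 2) (h2 : Module.finrank ℝ V₂ = 2)
    (i1 : ∀ γ, ∀ v ∈ V₁, (hol γ).linear v ∈ V₁) (i2 : ∀ γ, ∀ v ∈ V₂, (hol γ).linear v ∈ V₂)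
    (d1 : ∀ A ∈ LinOn hol ⊤ V₁, |LinearMap.det (A : V₁ →ₗ[ℝ] V₁)| = 1)
    (d2 : ∀ A ∈ LinOn hol ⊤ V₂, |LinearMap.det (A : V₂ →ₗ[ℝ] V₂)| = 1) : IsHomeomorph dev := by
  by_cases e1 : ∃ l ≤ V₁, Module.finrank ℝ l = 1 ∧ ∀ γ, ∀ v ∈ l, (hol γ).linear v ∈ l
  · obtain ⟨l, hl, hl1, hinv⟩ := e1
    exact half hPL hSTAR hTRI hTYP D hinj hc h1 h2 i1 i2 d1 d2 hl hl1 hinv
  by_cases e2 : ∃ l ≤ V₂, Module.finrank ℝ l = 1 ∧ ∀ γ, ∀ v ∈ l, (hol γ).linear v ∈ l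
  · obtain ⟨l, hl, hl1, hinv⟩ := e2
    exact half hPL hSTAR hTRI hTYP D hinj hc.symm h2 h1 i2 i1 d2 d1 hl hl1 hinv
  · refine convex_complete D hinj (hSTAR E (range dev) D.loc.isOpenMap.isOpen_range
      (isConnected_range D.loc.continuous) fun p hp hp' => ?_)
    rcases bdry_types hTYP D hinj hc h1 h2 i1 i2 d1 d2 hp hp' with h | ⟨K₁, K₂, hK⟩
    · exact h
    · exfalso
      rcases tyI_line D hc h1 h2 i1 i2 hK with h | h
      · exact e1 ⟨K₁, hK.1, hK.2.2.1, h⟩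
      · exact e2 ⟨K₂, hK.2.1, hK.2.2.2.1, h⟩

end main

/-- two planes -/
theorem two_planes (hPL : S4_PL) (hSTAR : S4_STAR) (hTRI : S4_TRI) (hTYP : S4_TYP)
    (X Γ E : Type) [NormedAddCommGroup E] [NormedSpace ℝ E]
    [FiniteDimensional ℝ E] [TopologicalSpace X] [T2Space X] [SecondCountableTopology X]
    [ConnectedSpace X] [Group Γ] [MulAction Γ X] (dev : X → E) (hol : Γ →* (E ≃ᵃ[ℝ] E))
    (D : AffData X Γ E dev hol) (hinj : Function.Injective dev) (H : Subgroup Γ)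
    (hH : H.FiniteIndex) (V₁ V₂ : Submodule ℝ E) (hc : IsCompl V₁ V₂)
    (h1 : Module.finrank ℝ V₁ = 2) (h2 : Module.finrank ℝ V₂ = 2)
    (i1 : ∀ γ ∈ H, ∀ v ∈ V₁, (hol γ).linear v ∈ V₁) (i2 : ∀ γ ∈ H, ∀ v ∈ V₂, (hol γ).linear v ∈ V₂)
    (d1 : ∀ A ∈ LinOn hol H V₁, |LinearMap.det (A : V₁ →ₗ[ℝ] V₁)| = 1)
    (d2 : ∀ A ∈ LinOn hol H V₂, |LinearMap.det (A : V₂ →ₗ[ℝ] V₂)| = 1) : IsHomeomorph dev :=
  two_planes0 hPL hSTAR hTRI hTYP (hol := hol.comp H.subtype)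
    (Pool.Agent.Y449.MK.restrict D H hH) hinj hc h1 h2 (fun γ => i1 γ γ.2) (fun γ => i2 γ γ.2)
    (by
      rintro A ⟨γ, -, hA⟩
      exact d1 A ⟨γ, γ.2, hA⟩)
    (by
      rintro A ⟨γ, -, hA⟩
      exact d2 A ⟨γ, γ.2, hA⟩)

end Pool.Agent.N520.AN
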